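import Pool.Agent.H358R4.Hom
import Pool.Agent.H358R2.Asym

/-!
Asymptotics.
-/

namespace Pool.Agent.H358R4

open Finset Filter

lemma omega_le (q : ℕ) (hq : 0 < q) : (q.primeFactors.card : ℝ) ≤ 2 * Real.log q := by
  have h1 : 2 ^ q.primeFactors.card ≤ q := by
    calc 2 ^ q.primeFactors.card = ∏ p ∈ q.primeFactors, 2 := by rw [Finset.prod_const]
      _ ≤ ∏ p ∈ q.primeFactors, p := Finset.prod_le_prod' fun p hp =>
          (Nat.prime_of_mem_primeFactors hp).two_le
      _ ≤ q := Nat.le_of_dvd hq (Nat.prod_primeFactors_dvd q)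
  have h2 : ((2 : ℝ) ^ q.primeFactors.card) ≤ q := by exact_mod_cast h1
  have h3 := Real.log_le_log (by positivity) h2
  rw [Real.log_pow] at h3
  have h4 : (0.5 : ℝ) ≤ Real.log 2 := by
    have := Real.log_two_gt_d9; linarith
  have h5 : (0 : ℝ) ≤ q.primeFactors.card := by positivity
  nlinarith

lemma pi_lower : ∀ᶠ M : ℕ in atTop, (M : ℝ) / (2 * Real.log M) ≤ (Nat.primeCounting M : ℝ) := by
  have h1 : ∀ᶠ M : ℕ in atTop, Real.log ((M : ℝ) + 1) ≤ 0.1 * ((M : ℝ) + 1) := by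
    have h := Real.isLittleO_log_id_atTop.bound (show (0 : ℝ) < 0.1 by norm_num)
    have h2 : Tendsto (fun M : ℕ => (M : ℝ) + 1) atTop atTop :=
      tendsto_atTop_add_const_right _ _ tendsto_natCast_atTop_atTop
    filter_upwards [h2.eventually h, h2.eventually (eventually_ge_atTop 1)] with M hM hM1
    simp only [id_eq, Real.norm_eq_abs] at hM
    rw [abs_of_nonneg (Real.log_nonneg hM1), abs_of_nonneg (by linarith)] at hM
    exact hM
  filter_upwards [h1, eventually_ge_atTop 3] with M hM hM3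
  have h2 := Chebyshev.pi_ge M
  have hM3' : (3 : ℝ) ≤ M := by exact_mod_cast hM3
  have hlog : 0 < Real.log M := Real.log_pos (by linarith)
  refine le_trans ?_ h2
  rw [div_le_div_iff₀ (by positivity) hlog]
  have h4 : (0.69 : ℝ) ≤ Real.log 2 := by
    have := Real.log_two_gt_d9; linarith
  have h5 : (M : ℝ) / 2 ≤ M * Real.log 2 - Real.log (M + 1) := by nlinarith
  nlinarith

lemma tendsto_nat_rpow {t : ℝ} (ht : 0 < t) :
    Tendsto (fun q : ℕ => (q : ℝ) ^ t) atTop atTop :=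
  (tendsto_rpow_atTop ht).comp tendsto_natCast_atTop_atTop

lemma log_le_rpow {t : ℝ} (ht : 0 < t) : ∀ᶠ q : ℕ in atTop, Real.log q ≤ (q : ℝ) ^ t := by
  have h := (isLittleO_log_rpow_atTop ht).bound (show (0 : ℝ) < 1 by norm_num)
  filter_upwards [tendsto_natCast_atTop_atTop.eventually h, eventually_ge_atTop 1] with q hq hq1
  have hq1' : (1 : ℝ) ≤ q := by exact_mod_cast hq1
  rw [Real.norm_eq_abs, Real.norm_eq_abs, abs_of_nonneg (Real.log_nonneg hq1'),
    abs_of_nonneg (by positivity), one_mul] at hq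
  exact hq

lemma choose_lower (k : ℕ) (hk : 1 ≤ k) : ∀ᶠ q : ℕ in atTop, ∀ M : ℕ, M ^ k ≤ q →
    q < (M + 1) ^ k → (q : ℝ) ^ (1 - 1 / (16 * (k : ℝ))) ≤
      ((((range (M + 1)).filter Nat.Prime) \ q.primeFactors).card.choose k : ℝ) := by
  have hkR : (1 : ℝ) ≤ k := by exact_mod_cast hk
  set s : ℝ := 1 / k with hs
  have hs0 : 0 < s := by positivity
  have hs1 : s ≤ 1 := by rw [hs, div_le_one (by linarith)]; exact hkR
  set σ : ℝ := s * (1 - s / 16) with hσ
  set η : ℝ := s ^ 2 / 64 with hη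
  have hη0 : 0 < η := by positivity
  have hσ0 : 0 < σ := by rw [hσ]; apply mul_pos hs0; linarith
  have hησ : η ≤ σ := by rw [hη, hσ]; nlinarith
  have hgap : 0 < s - η - σ := by rw [hη, hσ]; nlinarith [mul_pos hs0 hs0]
  obtain ⟨M1, hM1⟩ := eventually_atTop.1 pi_lower
  filter_upwards [(tendsto_nat_rpow hs0).eventually (eventually_ge_atTop ((M1 : ℝ) + 3)),
    log_le_rpow hη0,
    (tendsto_nat_rpow hgap).eventually
      (eventually_ge_atTop (4 * ((k.factorial : ℝ) + k + 2))),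
    eventually_ge_atTop 3] with q hqM hlog hbig hq3 M hMk hMk1
  have hq3' : (3 : ℝ) ≤ q := by exact_mod_cast hq3
  have hq0 : (0 : ℝ) < q := by linarith
  have hx0 : (0 : ℝ) < (q : ℝ) ^ s := by positivity
  have hMup : (M : ℝ) ≤ (q : ℝ) ^ s := by
    have h1 : ((M : ℝ)) ^ k ≤ q := by exact_mod_cast hMk
    have h2 := Real.rpow_le_rpow (by positivity) h1 hs0.le
    rw [hs, one_div, Real.pow_rpow_inv_natCast (by positivity) (by omega)] at h2
    rw [hs, one_div]
    exact h2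
  have hMlow : (q : ℝ) ^ s < (M : ℝ) + 1 := by
    have h1 : (q : ℝ) < ((M : ℝ) + 1) ^ k := by exact_mod_cast hMk1
    have h2 := Real.rpow_lt_rpow hq0.le h1 hs0
    rw [hs, one_div, Real.pow_rpow_inv_natCast (by positivity) (by omega)] at h2
    rw [hs, one_div]
    exact h2
  have hMM1 : M1 ≤ M := by
    have : (M1 : ℝ) ≤ M := by linarith
    exact_mod_cast this
  have hM2 : (2 : ℝ) ≤ M := by
    have : (0 : ℝ) ≤ M1 := by positivity
    linarith
  have hlogM : 0 < Real.log M := Real.log_pos (by linarith)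
  have hlogq : 0 < Real.log q := Real.log_pos (by linarith)
  have hlogMq : Real.log M ≤ Real.log q := by
    have h1 := Real.log_le_log (by linarith) hMup
    rw [Real.log_rpow hq0] at h1
    nlinarith
  have hpi := hM1 M hMM1
  -- lower bound for the prime counting function
  have hpi2 : (q : ℝ) ^ (s - η) / 4 ≤ (Nat.primeCounting M : ℝ) := by
    refine le_trans ?_ hpi
    have h1 : (q : ℝ) ^ s / 2 ≤ M := by linarith
    have hqη : (0 : ℝ) < (q : ℝ) ^ η := by positivity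
    have h2 : (q : ℝ) ^ (s - η) * (q : ℝ) ^ η = (q : ℝ) ^ s := by
      rw [← Real.rpow_add hq0]; congr 1; ring
    have h0 : (0 : ℝ) < (q : ℝ) ^ (s - η) := by positivity
    rw [le_div_iff₀ (by positivity)]
    have h3 : Real.log M ≤ (q : ℝ) ^ η := hlogMq.trans hlog
    calc (q : ℝ) ^ (s - η) / 4 * (2 * Real.log M) = (q : ℝ) ^ (s - η) * Real.log M / 2 := by ring
      _ ≤ (q : ℝ) ^ (s - η) * (q : ℝ) ^ η / 2 := by gcongr
      _ = (q : ℝ) ^ s / 2 := by rw [h2]
      _ ≤ M := h1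
  set n := (((range (M + 1)).filter Nat.Prime) \ q.primeFactors).card with hn
  have hcard : ((range (M + 1)).filter Nat.Prime).card = Nat.primeCounting M := by
    rw [Nat.primeCounting, Nat.primeCounting', Nat.count_eq_card_filter_range]
  have hn1 : (Nat.primeCounting M : ℝ) ≤ n + q.primeFactors.card := by
    have h1 := Finset.card_le_card_sdiff_add_card (s := ((range (M + 1)).filter Nat.Prime))
      (t := q.primeFactors)
    rw [hcard, ← hn] at h1
    exact_mod_cast h1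
  have homega := omega_le q (by omega)
  have hqη1 : (q : ℝ) ^ η ≤ (q : ℝ) ^ σ := Real.rpow_le_rpow_of_exponent_le (by linarith) hησ
  have hqσ1 : (1 : ℝ) ≤ (q : ℝ) ^ σ := Real.one_le_rpow (by linarith) hσ0.le
  have hkey : (k.factorial : ℝ) * (q : ℝ) ^ σ + k ≤ n := by
    have h1 : (q : ℝ) ^ (s - η) = (q : ℝ) ^ (s - η - σ) * (q : ℝ) ^ σ := by
      rw [← Real.rpow_add hq0]; congr 1; ring
    have h2 : 4 * ((k.factorial : ℝ) + k + 2) * (q : ℝ) ^ σ ≤ (q : ℝ) ^ (s - η) := by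
      rw [h1]
      exact mul_le_mul_of_nonneg_right hbig (by positivity)
    have h3 : (k : ℝ) ≤ k * (q : ℝ) ^ σ := le_mul_of_one_le_right (by positivity) hqσ1
    nlinarith
  have hkey2 : (k.factorial : ℝ) * (q : ℝ) ^ σ ≤ ((n + 1 - k : ℕ) : ℝ) := by
    have h1 : ((n : ℝ) - k) ≤ ((n + 1 - k : ℕ) : ℝ) := by
      have h2 : n ≤ (n + 1 - k) + k := by omega
      have h3 : (n : ℝ) ≤ ((n + 1 - k : ℕ) : ℝ) + k := by exact_mod_cast h2
      linarith
    linarith
  have hfact : (1 : ℝ) ≤ k.factorial := by exact_mod_cast Nat.one_le_iff_ne_zero.2 (Nat.factorial_ne_zero k)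
  have hch := Nat.pow_le_choose (α := ℝ) k n
  refine le_trans ?_ hch
  have h4 : ((k.factorial : ℝ) * (q : ℝ) ^ σ) ^ k ≤ ((n + 1 - k : ℕ) : ℝ) ^ k :=
    pow_le_pow_left₀ (by positivity) hkey2 k
  have h5 : ((q : ℝ) ^ σ) ^ k = (q : ℝ) ^ (1 - 1 / (16 * (k : ℝ))) := by
    rw [← Real.rpow_natCast, ← Real.rpow_mul hq0.le]
    congr 1
    rw [hσ, hs]
    field_simp
  rw [le_div_iff₀ (by positivity), ← h5]
  refine le_trans ?_ h4
  rw [mul_pow, mul_comm]
  apply mul_le_mul_of_nonneg_right _ (by positivity)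
  calc (k.factorial : ℝ) = (k.factorial : ℝ) ^ 1 := (pow_one _).symm
    _ ≤ (k.factorial : ℝ) ^ k := pow_le_pow_right₀ hfact hk

lemma tau_le {t : ℝ} (ht : 0 < t) : ∀ᶠ q : ℕ in atTop, (q.divisors.card : ℝ) ≤ (q : ℝ) ^ t := by
  obtain ⟨K, hK⟩ := exists_nat_gt (2 / t)
  have hK0 : (0 : ℝ) < K := lt_trans (by positivity) hK
  have hK0' : 0 < K := by exact_mod_cast hK0
  set C : ℕ := (K ^ K * 2) ^ (2 ^ K) with hC
  filter_upwards [(tendsto_nat_rpow (t := 1) one_pos).eventually (eventually_ge_atTop (C : ℝ)),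
    eventually_ge_atTop 1] with q hq hq1
  have hq1' : (1 : ℝ) ≤ q := by exact_mod_cast hq1
  rw [Real.rpow_one] at hq
  have h1 := Pool.Agent.H358R2.card_divisors_pow_le K hK0' q (by omega)
  rw [← hC] at h1
  have h2 : ((q.divisors.card : ℝ)) ^ K ≤ C * q := by exact_mod_cast h1
  have h3 : ((q.divisors.card : ℝ)) ^ K ≤ ((q : ℝ) ^ t) ^ K := by
    refine h2.trans ?_
    rw [← Real.rpow_natCast, ← Real.rpow_mul (by positivity)]
    have h4 : (2 : ℝ) ≤ t * K := by
      rw [div_lt_iff₀ ht] at hK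
      linarith
    calc (C : ℝ) * q ≤ q * q := mul_le_mul_of_nonneg_right hq (by positivity)
      _ = (q : ℝ) ^ (2 : ℝ) := by rw [Real.rpow_two]; ring
      _ ≤ (q : ℝ) ^ (t * K) := Real.rpow_le_rpow_of_exponent_le hq1' h4
  exact le_of_pow_le_pow_left₀ hK0'.ne' (by positivity) h3

end Pool.Agent.H358R4
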