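import Pool.Agent.H358R4.Fourier

/-!
Small representatives of the cosets of a large subgroup of `(ZMod q)ˣ`.
-/

namespace Pool.Agent.H358R4

open Finset

section

variable {q : ℕ} [NeZero q]

lemma e_pow (x : ZMod q) (n : ℕ) : e x ^ n = e ((n : ZMod q) * x) := by
  induction n with
  | zero => simp [e_zero]
  | succ n ih => rw [pow_succ, ih, ← e_add]; congr 1; push_cast; ring

lemma card_mod (L M i : ℕ) (hM : 0 < M) :
    ((range L).filter (fun j => j % M = i % M)).card ≤ L / M + 1 := by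
  calc ((range L).filter (fun j => j % M = i % M)).card ≤ (range (L / M + 1)).card := by
        apply Finset.card_le_card_of_injOn (fun j => j / M)
        · intro j hj
          have hj' : j < L := by
            have := Finset.mem_filter.1 (Finset.mem_coe.1 hj)
            exact Finset.mem_range.1 this.1
          have : j / M ≤ L / M := Nat.div_le_div_right hj'.le
          simp only [coe_range, Set.mem_Iio]
          omega
        · intro j hj j' hj' hjj
          have h1 := (Finset.mem_filter.1 (Finset.mem_coe.1 hj)).2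
          have h2 := (Finset.mem_filter.1 (Finset.mem_coe.1 hj')).2
          simp only at hjj
          rw [← Nat.div_add_mod j M, ← Nat.div_add_mod j' M, hjj, h1, h2]
    _ = L / M + 1 := by simp

lemma sum_mult (g M : ℕ) (hq : q = g * M) (hg : 0 < g) (F : ZMod q → ℝ) :
    ∑ h ∈ univ.filter (fun h : ZMod q => g ∣ h.val), F h =
      ∑ t ∈ range M, F ((g * t : ℕ) : ZMod q) := by
  symm
  have hval : ∀ t ∈ range M, ((g * t : ℕ) : ZMod q).val = g * t := by
    intro t ht
    apply ZMod.val_natCast_of_lt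
    have h1 : g * t < g * M := Nat.mul_lt_mul_of_pos_left (Finset.mem_range.1 ht) hg
    exact lt_of_lt_of_eq h1 hq.symm
  refine Finset.sum_bij (fun t _ => ((g * t : ℕ) : ZMod q)) ?_ ?_ ?_ ?_
  · intro t ht
    rw [Finset.mem_filter]
    exact ⟨Finset.mem_univ _, by rw [hval t ht]; exact Dvd.intro _ rfl⟩
  · intro t ht t' ht' h
    have h1 := congrArg ZMod.val h
    rw [hval t ht, hval t' ht'] at h1
    exact Nat.eq_of_mul_eq_mul_left hg h1
  · intro h hh
    obtain ⟨t, ht⟩ := (Finset.mem_filter.1 hh).2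
    refine ⟨t, ?_, ?_⟩
    · rw [Finset.mem_range]
      have h1 : g * t < g * M := by rw [← ht]; exact lt_of_lt_of_eq (ZMod.val_lt h) hq
      exact Nat.lt_of_mul_lt_mul_left h1
    · rw [← ht]
      exact ZMod.natCast_zmod_val h
  · intro t _
    rfl

lemma sum_DD (g M L : ℕ) (hq : q = g * M) (hg : 0 < g) (hM : 0 < M) :
    ∑ h ∈ univ.filter (fun h : ZMod q => g ∣ h.val), ‖DD L h‖ ^ 2 ≤ (L : ℝ) ^ 2 + M * L := by
  rw [sum_mult g M hq hg (fun h => ‖DD L h‖ ^ 2)]
  have key : ((∑ t ∈ range M, ‖DD L ((g * t : ℕ) : ZMod q)‖ ^ 2 : ℝ) : ℂ) =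
      ((∑ i ∈ range L, ∑ j ∈ range L,
        (if e (((j : ZMod q) - (i : ZMod q)) * (g : ZMod q)) = 1 then (M : ℝ) else 0) : ℝ) : ℂ) := by
    push_cast
    simp_rw [sq_eq]
    have e1 : ∀ t : ℕ, DD L ((g : ZMod q) * (t : ZMod q)) *
        (starRingEnd ℂ) (DD L ((g : ZMod q) * (t : ZMod q))) =
        ∑ i ∈ range L, ∑ j ∈ range L, (e (((j : ZMod q) - (i : ZMod q)) * (g : ZMod q))) ^ t := by
      intro t
      unfold DD
      rw [map_sum, Finset.sum_mul_sum]
      refine Finset.sum_congr rfl fun i _ => Finset.sum_congr rfl fun j _ => ?_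
      rw [conj_e, ← e_add, e_pow]
      congr 1
      ring
    simp_rw [e1]
    rw [Finset.sum_comm]
    refine Finset.sum_congr rfl fun i _ => ?_
    rw [Finset.sum_comm]
    refine Finset.sum_congr rfl fun j _ => ?_
    set z := e (((j : ZMod q) - (i : ZMod q)) * (g : ZMod q)) with hz
    have hzM : z ^ M = 1 := by
      rw [hz, e_pow]
      have : ((M : ZMod q)) * (((j : ZMod q) - (i : ZMod q)) * (g : ZMod q)) = 0 := by
        have h0 : ((g * M : ℕ) : ZMod q) = 0 := by
          rw [ZMod.natCast_eq_zero_iff, ← hq]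
        push_cast at h0
        linear_combination ((j : ZMod q) - (i : ZMod q)) * h0
      rw [this, e_zero]
    split_ifs with h1
    · rw [h1]; simp
    · rw [geom_sum_eq h1, hzM, sub_self, zero_div]
      simp
  have key2 : ∑ t ∈ range M, ‖DD L ((g * t : ℕ) : ZMod q)‖ ^ 2 =
      ∑ i ∈ range L, ∑ j ∈ range L,
        (if e (((j : ZMod q) - (i : ZMod q)) * (g : ZMod q)) = 1 then (M : ℝ) else 0) := by exact_mod_cast key
  rw [key2]
  have h3 : ∀ i ∈ range L, ∑ j ∈ range L,
      (if e (((j : ZMod q) - (i : ZMod q)) * (g : ZMod q)) = 1 then (M : ℝ) else 0) ≤ L + M := by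
    intro i _
    rw [← Finset.sum_filter, Finset.sum_const, nsmul_eq_mul]
    have hsub : (range L).filter (fun j : ℕ => e (((j : ZMod q) - (i : ZMod q)) * (g : ZMod q)) = 1) ⊆
        (range L).filter (fun j => j % M = i % M) := by
      intro j hj
      rw [Finset.mem_filter] at hj ⊢
      refine ⟨hj.1, ?_⟩
      have h1 : ((j : ZMod q) - (i : ZMod q)) * (g : ZMod q) = 0 := by
        have h2 : e (((j : ZMod q) - (i : ZMod q)) * (g : ZMod q)) = e (0 : ZMod q) := by rw [hj.2, e_zero]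
        exact ZMod.injective_stdAddChar h2
      have h2 : ((g * j : ℕ) : ZMod q) = ((g * i : ℕ) : ZMod q) := by
        push_cast
        linear_combination h1
      rw [ZMod.natCast_eq_natCast_iff] at h2
      have h3 : g * j ≡ g * i [MOD g * M] := by rw [← hq]; exact h2
      exact Nat.ModEq.mul_left_cancel' hg.ne' h3
    have hcard := (Finset.card_le_card hsub).trans (card_mod L M i hM)
    have hc' : (((range L).filter (fun j : ℕ => e (((j : ZMod q) - (i : ZMod q)) * (g : ZMod q)) = 1)).card : ℝ) ≤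
        ((L / M : ℕ) : ℝ) + 1 := by exact_mod_cast hcard
    have hLM : ((L / M : ℕ) : ℝ) * M ≤ L := by exact_mod_cast Nat.div_mul_le_self L M
    have hMr : (0 : ℝ) ≤ M := by positivity
    calc _ ≤ (((L / M : ℕ) : ℝ) + 1) * M := mul_le_mul_of_nonneg_right hc' hMr
      _ = ((L / M : ℕ) : ℝ) * M + M := by ring
      _ ≤ L + M := by linarith
  calc _ ≤ ∑ i ∈ range L, ((L : ℝ) + M) := Finset.sum_le_sum h3
    _ = (L : ℝ) ^ 2 + M * L := by
        rw [Finset.sum_const, card_range, nsmul_eq_mul]; ring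

lemma sum_DD' (g M L : ℕ) (hq : q = g * M) (hg : 0 < g) (hM : 0 < M) :
    ∑ h ∈ univ.filter (fun h : ZMod q => h ≠ 0 ∧ g ∣ h.val), ‖DD L h‖ ^ 2 ≤ (M : ℝ) * L := by
  have h1 := sum_DD (q := q) g M L hq hg hM
  have h0 : (0 : ZMod q) ∈ univ.filter (fun h : ZMod q => g ∣ h.val) := by
    rw [Finset.mem_filter]; exact ⟨Finset.mem_univ _, by rw [ZMod.val_zero]; exact dvd_zero g⟩
  rw [← Finset.add_sum_erase _ _ h0] at h1
  have h2 : ‖DD L (0 : ZMod q)‖ ^ 2 = (L : ℝ) ^ 2 := by
    unfold DD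
    simp [e_zero]
  have h3 : (univ.filter (fun h : ZMod q => g ∣ h.val)).erase 0 =
      univ.filter (fun h : ZMod q => h ≠ 0 ∧ g ∣ h.val) := by
    ext x; simp
  rw [h2, h3] at h1
  linarith

lemma hat_bound {φ : ZMod q → ℂ} (K : Finset (ZMod q)ˣ)
    (hK : ∀ k ∈ K, ∀ x : ZMod q, φ (x * (k : ZMod q)) = φ x) (h : ZMod q) :
    (K.card : ℝ) * ‖hat φ h‖ ^ 2 ≤ (Nat.gcd q h.val : ℝ) * ∑ y, ‖hat φ y‖ ^ 2 := by
  classical
  have h1 : (K.card : ℝ) * ‖hat φ h‖ ^ 2 = ∑ k ∈ K, ‖hat φ (h * (k : ZMod q))‖ ^ 2 := by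
    rw [← nsmul_eq_mul, ← Finset.sum_const]
    refine Finset.sum_congr rfl fun k hk => ?_
    rw [hat_inv (hK k hk)]
  rw [h1, ← Finset.sum_fiberwise K (fun k => h * (k : ZMod q)), Finset.mul_sum]
  apply Finset.sum_le_sum
  intro y _
  have h2 : ∑ k ∈ K.filter (fun k : (ZMod q)ˣ => h * (k : ZMod q) = y),
      ‖hat φ (h * (k : ZMod q))‖ ^ 2 =
      ((K.filter (fun k : (ZMod q)ˣ => h * (k : ZMod q) = y)).card : ℝ) * ‖hat φ y‖ ^ 2 := by
    rw [← nsmul_eq_mul, ← Finset.sum_const]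
    refine Finset.sum_congr rfl fun k hk => ?_
    rw [(Finset.mem_filter.1 hk).2]
  rw [h2]
  apply mul_le_mul_of_nonneg_right _ (by positivity)
  have h3 : (K.filter (fun k : (ZMod q)ˣ => h * (k : ZMod q) = y)).card ≤
      (univ.filter (fun x : ZMod q => h * x = y)).card := by
    apply Finset.card_le_card_of_injOn (fun k : (ZMod q)ˣ => (k : ZMod q))
    · intro k hk
      have := (Finset.mem_filter.1 (Finset.mem_coe.1 hk)).2
      simpa using this
    · intro k _ k' _ hkk
      exact Units.ext hkk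
  exact_mod_cast h3.trans (card_fiber h y)

/-- The main estimate. -/
theorem main_bound {φ : ZMod q → ℂ} (K : Finset (ZMod q)ˣ) (hK0 : 0 < K.card)
    (hK : ∀ k ∈ K, ∀ x : ZMod q, φ (x * (k : ZMod q)) = φ x) (hsum : ∑ x, φ x = 0) (L : ℕ) :
    ‖∑ i ∈ range L, ∑ j ∈ range L, φ ((i : ZMod q) + (j : ZMod q))‖ ≤
      (q.divisors.card : ℝ) * L * √(q * (∑ x, ‖φ x‖ ^ 2) / K.card) := by
  classical
  have hq0 : 0 < q := Nat.pos_of_ne_zero (NeZero.ne q)
  have hqR : (0 : ℝ) < q := by exact_mod_cast hq0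
  have hKR : (0 : ℝ) < K.card := by exact_mod_cast hK0
  set B : ℝ := q * (∑ x, ‖φ x‖ ^ 2) / K.card with hB
  have hB0 : 0 ≤ B := by positivity
  have hhat0 : hat φ 0 = 0 := by
    unfold hat
    simp only [mul_zero, e_zero, mul_one]
    exact hsum
  have hhat : ∀ h, ‖hat φ h‖ ≤ (Nat.gcd q h.val : ℝ) * √B := by
    intro h
    have h1 := hat_bound K hK h
    rw [parseval] at h1
    have hg1 : (1 : ℝ) ≤ (Nat.gcd q h.val : ℝ) := by
      have : 0 < Nat.gcd q h.val := Nat.gcd_pos_of_pos_left _ hq0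
      exact_mod_cast this
    have h2 : ‖hat φ h‖ ^ 2 ≤ (Nat.gcd q h.val : ℝ) * B := by
      rw [hB, ← mul_div_assoc, le_div_iff₀ hKR, mul_comm]
      exact h1
    apply le_of_sq_le_sq _ (by positivity)
    rw [mul_pow, Real.sq_sqrt hB0]
    refine h2.trans ?_
    apply mul_le_mul_of_nonneg_right _ hB0
    nlinarith
  have h1 : (q : ℝ) * ‖∑ i ∈ range L, ∑ j ∈ range L, φ ((i : ZMod q) + (j : ZMod q))‖ ≤
      ∑ h, ‖hat φ h‖ * ‖DD L h‖ ^ 2 := by
    have h2 := double_sum φ L
    have h3 : ‖(q : ℂ) * ∑ i ∈ range L, ∑ j ∈ range L, φ ((i : ZMod q) + (j : ZMod q))‖ =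
        (q : ℝ) * ‖∑ i ∈ range L, ∑ j ∈ range L, φ ((i : ZMod q) + (j : ZMod q))‖ := by
      rw [norm_mul, Complex.norm_natCast]
    rw [← h3, h2]
    refine (norm_sum_le _ _).trans (le_of_eq ?_)
    refine Finset.sum_congr rfl fun h _ => ?_
    rw [norm_mul, norm_pow]
  have h4 : ∑ h, ‖hat φ h‖ * ‖DD L h‖ ^ 2 ≤ (q.divisors.card : ℝ) * (√B * q * L) := by
    have h5 : ∑ h, ‖hat φ h‖ * ‖DD L h‖ ^ 2 =
        ∑ h ∈ univ.filter (fun h : ZMod q => h ≠ 0), ‖hat φ h‖ * ‖DD L h‖ ^ 2 := by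
      rw [Finset.sum_filter]
      refine Finset.sum_congr rfl fun h _ => ?_
      by_cases h0 : h = 0
      · rw [h0, hhat0]; simp
      · simp [h0]
    rw [h5]
    have hmaps : ∀ h ∈ univ.filter (fun h : ZMod q => h ≠ 0), Nat.gcd q h.val ∈ q.divisors := by
      intro h _
      rw [Nat.mem_divisors]
      exact ⟨Nat.gcd_dvd_left _ _, hq0.ne'⟩
    rw [← Finset.sum_fiberwise_of_maps_to hmaps, ← nsmul_eq_mul, ← Finset.sum_const]
    apply Finset.sum_le_sum
    intro g hg
    have hgd : g ∣ q := Nat.dvd_of_mem_divisors hg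
    obtain ⟨M, hM⟩ := hgd
    have hg0 : 0 < g := Nat.pos_of_mem_divisors hg
    have hM0 : 0 < M := by
      rcases Nat.eq_zero_or_pos M with h0 | h0
      · rw [h0] at hM; omega
      · exact h0
    calc ∑ h ∈ (univ.filter (fun h : ZMod q => h ≠ 0)) with Nat.gcd q h.val = g,
          ‖hat φ h‖ * ‖DD L h‖ ^ 2
        ≤ ∑ h ∈ (univ.filter (fun h : ZMod q => h ≠ 0)) with Nat.gcd q h.val = g,
          ((g : ℝ) * √B) * ‖DD L h‖ ^ 2 := by
          apply Finset.sum_le_sum
          intro h hh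
          apply mul_le_mul_of_nonneg_right _ (by positivity)
          have := hhat h
          rw [(Finset.mem_filter.1 hh).2] at this
          exact this
      _ ≤ ∑ h ∈ univ.filter (fun h : ZMod q => h ≠ 0 ∧ g ∣ h.val),
          ((g : ℝ) * √B) * ‖DD L h‖ ^ 2 := by
          apply Finset.sum_le_sum_of_subset_of_nonneg
          · intro h hh
            rw [Finset.mem_filter, Finset.mem_filter] at hh
            rw [Finset.mem_filter]
            refine ⟨Finset.mem_univ _, hh.1.2, ?_⟩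
            rw [← hh.2]
            exact Nat.gcd_dvd_right _ _
          · intro h _ _
            positivity
      _ = ((g : ℝ) * √B) * ∑ h ∈ univ.filter (fun h : ZMod q => h ≠ 0 ∧ g ∣ h.val),
          ‖DD L h‖ ^ 2 := by rw [Finset.mul_sum]
      _ ≤ ((g : ℝ) * √B) * (M * L) := by
          apply mul_le_mul_of_nonneg_left _ (by positivity)
          exact sum_DD' g M L hM hg0 hM0
      _ = √B * q * L := by
          have : (q : ℝ) = g * M := by exact_mod_cast hM
          rw [this]; ring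
  have h6 : (q : ℝ) * ‖∑ i ∈ range L, ∑ j ∈ range L, φ ((i : ZMod q) + (j : ZMod q))‖ ≤
      (q : ℝ) * ((q.divisors.card : ℝ) * L * √B) := by
    refine h1.trans (h4.trans (le_of_eq ?_))
    ring
  exact le_of_mul_le_mul_left h6 hqR

/-- Every coset of a large subgroup has a small representative. -/
theorem coset_rep (K : Finset (ZMod q)ˣ) (hK0 : 0 < K.card)
    (hmul : ∀ k ∈ K, ∀ k' ∈ K, k * k' ∈ K) (hinv : ∀ k ∈ K, k⁻¹ ∈ K) (c : (ZMod q)ˣ) (L : ℕ)
    (hL : (q.divisors.card : ℝ) * √((q : ℝ) ^ 3) < K.card * L) :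
    ∃ n : ℕ, n + 2 ≤ 2 * L ∧ ∃ k ∈ K, (n : ZMod q) = ((c * k : (ZMod q)ˣ) : ZMod q) := by
  classical
  by_contra hno
  push Not at hno
  have hq0 : 0 < q := Nat.pos_of_ne_zero (NeZero.ne q)
  have hqR : (0 : ℝ) < q := by exact_mod_cast hq0
  have hKR : (0 : ℝ) < K.card := by exact_mod_cast hK0
  set C : Finset (ZMod q) := K.image (fun k => ((c * k : (ZMod q)ˣ) : ZMod q)) with hC
  have hCcard : C.card = K.card := by
    rw [hC, Finset.card_image_of_injective]
    intro k k' hkk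
    exact mul_left_cancel (Units.ext hkk)
  set φ : ZMod q → ℂ := fun x => (if x ∈ C then (q : ℂ) else 0) - K.card with hφ
  have hCinv : ∀ k ∈ K, ∀ x : ZMod q, x * (k : ZMod q) ∈ C ↔ x ∈ C := by
    intro k hk x
    rw [hC]
    simp only [Finset.mem_image]
    constructor
    · rintro ⟨k', hk', h⟩
      refine ⟨k' * k⁻¹, hmul _ hk' _ (hinv k hk), ?_⟩
      have h1 : ((c * (k' * k⁻¹) : (ZMod q)ˣ) : ZMod q) =
          ((c * k' : (ZMod q)ˣ) : ZMod q) * ((k⁻¹ : (ZMod q)ˣ) : ZMod q) := by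
        rw [← Units.val_mul, mul_assoc]
      rw [h1, h, mul_assoc, ← Units.val_mul, mul_inv_cancel, Units.val_one, mul_one]
    · rintro ⟨k', hk', h⟩
      refine ⟨k' * k, hmul _ hk' _ hk, ?_⟩
      rw [← h, ← Units.val_mul, mul_assoc]
  have hφK : ∀ k ∈ K, ∀ x : ZMod q, φ (x * (k : ZMod q)) = φ x := by
    intro k hk x
    simp only [hφ, hCinv k hk x]
  have hcount : ∑ x : ZMod q, (if x ∈ C then (1 : ℕ) else 0) = K.card := by
    rw [← hCcard, Finset.sum_ite_mem, Finset.univ_inter, Finset.sum_const, smul_eq_mul, mul_one]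
  have hsum : ∑ x, φ x = 0 := by
    simp only [hφ]
    rw [Finset.sum_sub_distrib, Finset.sum_ite_mem, Finset.univ_inter, Finset.sum_const,
      Finset.sum_const, hCcard, Finset.card_univ, ZMod.card, nsmul_eq_mul, nsmul_eq_mul]
    ring
  have hsq : ∑ x, ‖φ x‖ ^ 2 ≤ K.card * (q : ℝ) ^ 2 := by
    have h1 : ∀ x, ‖φ x‖ ^ 2 = (if x ∈ C then ((q : ℝ) ^ 2 - 2 * q * K.card) else 0) +
        (K.card : ℝ) ^ 2 := by
      intro x
      simp only [hφ]
      split_ifs
      · rw [← Complex.ofReal_natCast, ← Complex.ofReal_natCast, ← Complex.ofReal_sub,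
          Complex.norm_real, Real.norm_eq_abs, sq_abs]
        ring
      · rw [zero_sub, norm_neg, Complex.norm_natCast]
        ring
    simp_rw [h1]
    rw [Finset.sum_add_distrib, Finset.sum_ite_mem, Finset.univ_inter, Finset.sum_const,
      Finset.sum_const, hCcard, Finset.card_univ, ZMod.card, nsmul_eq_mul, nsmul_eq_mul]
    have : (0 : ℝ) ≤ q * (K.card : ℝ) ^ 2 := by positivity
    nlinarith
  have hdouble : ∑ i ∈ range L, ∑ j ∈ range L, φ ((i : ZMod q) + (j : ZMod q)) =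
      -((K.card : ℂ) * L ^ 2) := by
    have h1 : ∀ i ∈ range L, ∀ j ∈ range L, φ ((i : ZMod q) + (j : ZMod q)) = -(K.card : ℂ) := by
      intro i hi j hj
      simp only [hφ]
      rw [if_neg, zero_sub]
      intro hmem
      rw [hC, Finset.mem_image] at hmem
      obtain ⟨k, hk, h⟩ := hmem
      have hi' := Finset.mem_range.1 hi
      have hj' := Finset.mem_range.1 hj
      apply hno (i + j) (by omega) k hk
      rw [h]
      push_cast
      rfl
    rw [Finset.sum_congr rfl fun i hi => Finset.sum_congr rfl fun j hj => h1 i hi j hj]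
    simp only [Finset.sum_const, card_range, nsmul_eq_mul]
    ring
  have hmain := main_bound K hK0 hφK hsum L
  rw [hdouble, norm_neg, norm_mul, Complex.norm_natCast, norm_pow, Complex.norm_natCast] at hmain
  have hsqrt : √(q * (∑ x, ‖φ x‖ ^ 2) / K.card) ≤ √((q : ℝ) ^ 3) := by
    apply Real.sqrt_le_sqrt
    rw [div_le_iff₀ hKR]
    calc (q : ℝ) * ∑ x, ‖φ x‖ ^ 2 ≤ q * (K.card * (q : ℝ) ^ 2) :=
          mul_le_mul_of_nonneg_left hsq hqR.le
      _ = (q : ℝ) ^ 3 * K.card := by ring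
  have hL0 : 0 < L := by
    rcases Nat.eq_zero_or_pos L with h0 | h0
    · exfalso
      rw [h0] at hL
      have : (0 : ℝ) ≤ (q.divisors.card : ℝ) * √((q : ℝ) ^ 3) := by positivity
      push_cast at hL
      linarith
    · exact h0
  have hLR : (0 : ℝ) < L := by exact_mod_cast hL0
  have h7 : (K.card : ℝ) * (L : ℝ) ^ 2 ≤ (q.divisors.card : ℝ) * L * √((q : ℝ) ^ 3) :=
    hmain.trans (mul_le_mul_of_nonneg_left hsqrt (by positivity))
  nlinarith

end

end Pool.Agent.H358R4
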