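import Pool.Agent.H358R4.Coset

/-!
Elements of a coset divisible by an integer prime to the modulus.
-/

namespace Pool.Agent.H358R4

open Finset

/-- the coset as a set of residues -/
noncomputable def Cos {Q : ℕ} (K : Finset (ZMod Q)ˣ) (c : (ZMod Q)ˣ) : Finset (ZMod Q) :=
  K.image (fun k => ((c * k : (ZMod Q)ˣ) : ZMod Q))

lemma card_Cos {Q : ℕ} (K : Finset (ZMod Q)ˣ) (c : (ZMod Q)ˣ) : (Cos K c).card = K.card := by
  unfold Cos
  rw [Finset.card_image_of_injective]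
  intro k k' hkk
  exact mul_left_cancel (Units.ext hkk)

lemma Cos_inv {Q : ℕ} (K : Finset (ZMod Q)ˣ) (hmul : ∀ k ∈ K, ∀ k' ∈ K, k * k' ∈ K)
    (hinv : ∀ k ∈ K, k⁻¹ ∈ K) (c k : (ZMod Q)ˣ) (hk : k ∈ K) (x : ZMod Q) :
    x * (k : ZMod Q) ∈ Cos K c ↔ x ∈ Cos K c := by
  unfold Cos
  simp only [Finset.mem_image]
  constructor
  · rintro ⟨k', hk', h⟩
    refine ⟨k' * k⁻¹, hmul _ hk' _ (hinv k hk), ?_⟩
    have h1 : ((c * (k' * k⁻¹) : (ZMod Q)ˣ) : ZMod Q) =
        ((c * k' : (ZMod Q)ˣ) : ZMod Q) * ((k⁻¹ : (ZMod Q)ˣ) : ZMod Q) := by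
      rw [← Units.val_mul, mul_assoc]
    rw [h1, h, mul_assoc, ← Units.val_mul, mul_inv_cancel, Units.val_one, mul_one]
  · rintro ⟨k', hk', h⟩
    refine ⟨k' * k, hmul _ hk' _ hk, ?_⟩
    rw [← h, ← Units.val_mul, mul_assoc]

theorem count_div (Q d : ℕ) [NeZero Q] [NeZero d] (hcop : Nat.Coprime Q d)
    (K : Finset (ZMod Q)ˣ) (hK0 : 0 < K.card)
    (hmul : ∀ k ∈ K, ∀ k' ∈ K, k * k' ∈ K) (hinv : ∀ k ∈ K, k⁻¹ ∈ K) (c : (ZMod Q)ˣ) (L : ℕ) :
    |(∑ i ∈ range L, ∑ j ∈ range L,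
      (if ((i : ZMod Q) + (j : ZMod Q)) ∈ Cos K c ∧ d ∣ i + j then (1 : ℝ) else 0)) -
        K.card * (L : ℝ) ^ 2 / (Q * d)| ≤
      ((Q * d).divisors.card : ℝ) * L * √(Q * d / d.totient) := by
  classical
  haveI : NeZero (Q * d) := ⟨mul_ne_zero (NeZero.ne Q) (NeZero.ne d)⟩
  have hQ0 : (0 : ℝ) < Q := by exact_mod_cast Nat.pos_of_ne_zero (NeZero.ne Q)
  have hd0 : (0 : ℝ) < d := by exact_mod_cast Nat.pos_of_ne_zero (NeZero.ne d)
  have hKR : (0 : ℝ) < K.card := by exact_mod_cast hK0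
  have htot : (0 : ℝ) < d.totient := by
    exact_mod_cast Nat.totient_pos.2 (Nat.pos_of_ne_zero (NeZero.ne d))
  set e := ZMod.chineseRemainder hcop with he
  set ue : (ZMod (Q * d))ˣ ≃* (ZMod Q)ˣ × (ZMod d)ˣ :=
    (Units.mapEquiv e.toMulEquiv).trans MulEquiv.prodUnits with hue
  have hue1 : ∀ u : (ZMod (Q * d))ˣ, (((ue u).1 : (ZMod Q)ˣ) : ZMod Q) = (e (u : ZMod (Q * d))).1 :=
    fun u => rfl
  set K' : Finset (ZMod (Q * d))ˣ := (K ×ˢ (univ : Finset (ZMod d)ˣ)).map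
    ue.symm.toEquiv.toEmbedding with hK'
  have hK'card : K'.card = K.card * d.totient := by
    rw [hK', Finset.card_map, Finset.card_product, Finset.card_univ, ZMod.card_units_eq_totient]
  have hK'mem : ∀ u ∈ K', (ue u).1 ∈ K := by
    intro u hu
    rw [hK', Finset.mem_map] at hu
    obtain ⟨x, hx, rfl⟩ := hu
    have h1 : ue (ue.symm.toEquiv.toEmbedding x) = x := ue.apply_symm_apply x
    rw [h1]
    exact (Finset.mem_product.1 hx).1
  set C := Cos K c with hC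
  set ρ : ℝ := K.card / (Q * d) with hρ
  set ψ : ZMod (Q * d) → ℝ := fun x => (if (e x).1 ∈ C ∧ (e x).2 = 0 then (1 : ℝ) else 0) - ρ
    with hψ
  set φ : ZMod (Q * d) → ℂ := fun x => ((ψ x : ℝ) : ℂ) with hφ
  have hφK : ∀ k ∈ K', ∀ x : ZMod (Q * d), φ (x * (k : ZMod (Q * d))) = φ x := by
    intro k hk x
    simp only [hφ, hψ]
    have h1 : (e (x * (k : ZMod (Q * d)))).1 ∈ C ↔ (e x).1 ∈ C := by
      rw [map_mul, Prod.fst_mul, ← hue1, hC]
      exact Cos_inv K hmul hinv c _ (hK'mem k hk) _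
    have h2 : (e (x * (k : ZMod (Q * d)))).2 = 0 ↔ (e x).2 = 0 := by
      rw [map_mul, Prod.snd_mul]
      have h3 : IsUnit (e (k : ZMod (Q * d))).2 := by
        have : (((ue k).2 : (ZMod d)ˣ) : ZMod d) = (e (k : ZMod (Q * d))).2 := rfl
        rw [← this]; exact Units.isUnit _
      exact h3.mul_left_eq_zero
    simp only [h1, h2]
  -- the set where the indicator is one
  set C' := univ.filter (fun x : ZMod (Q * d) => (e x).1 ∈ C ∧ (e x).2 = 0) with hC'
  have hC'card : C'.card = K.card := by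
    rw [← card_Cos K c, ← hC]
    symm
    refine Finset.card_bij (fun y _ => e.symm (y, 0)) ?_ ?_ ?_
    · intro y hy
      rw [hC', Finset.mem_filter]
      refine ⟨Finset.mem_univ _, ?_⟩
      rw [RingEquiv.apply_symm_apply]
      exact ⟨hy, rfl⟩
    · intro y _ y' _ h
      have := e.symm.injective h
      exact (Prod.mk.inj this).1
    · intro x hx
      rw [hC', Finset.mem_filter] at hx
      refine ⟨(e x).1, hx.2.1, ?_⟩
      have : ((e x).1, (0 : ZMod d)) = e x := by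
        rw [← hx.2.2]
      rw [this, RingEquiv.symm_apply_apply]
  have hcardQ : (Fintype.card (ZMod (Q * d)) : ℝ) = Q * d := by
    rw [ZMod.card]; push_cast; rfl
  have hind : ∀ t : ℝ, ∑ x : ZMod (Q * d), (if (e x).1 ∈ C ∧ (e x).2 = 0 then t else 0) =
      K.card * t := by
    intro t
    rw [← Finset.sum_filter, Finset.sum_const, nsmul_eq_mul, ← hC', hC'card]
  have hρmul : (Q * d : ℝ) * ρ = K.card := by
    rw [hρ]; field_simp
  have hsumψ : ∑ x, ψ x = 0 := by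
    simp only [hψ]
    rw [Finset.sum_sub_distrib, hind, Finset.sum_const, Finset.card_univ, nsmul_eq_mul, hcardQ,
      hρmul]
    ring
  have hsum : ∑ x, φ x = 0 := by
    simp only [hφ]
    rw [← Complex.ofReal_sum, hsumψ, Complex.ofReal_zero]
  have hsq : ∑ x, ‖φ x‖ ^ 2 ≤ K.card := by
    have h1 : ∀ x, ‖φ x‖ ^ 2 = (if (e x).1 ∈ C ∧ (e x).2 = 0 then (1 - 2 * ρ) else 0) + ρ ^ 2 := by
      intro x
      simp only [hφ, hψ]
      rw [Complex.norm_real, Real.norm_eq_abs, sq_abs]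
      split_ifs <;> ring
    simp_rw [h1]
    rw [Finset.sum_add_distrib, hind, Finset.sum_const, Finset.card_univ, nsmul_eq_mul, hcardQ]
    have h2 : (Q * d : ℝ) * ρ ^ 2 = K.card * ρ := by
      rw [sq, ← mul_assoc, hρmul]
    rw [h2]
    have h3 : 0 ≤ ρ := by rw [hρ]; positivity
    nlinarith
  have hK'0 : 0 < K'.card := by
    rw [hK'card]
    exact Nat.mul_pos hK0 (Nat.totient_pos.2 (Nat.pos_of_ne_zero (NeZero.ne d)))
  have hmain := main_bound K' hK'0 hφK hsum L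
  have hlhs : ∑ i ∈ range L, ∑ j ∈ range L, φ ((i : ZMod (Q * d)) + (j : ZMod (Q * d))) =
      (((∑ i ∈ range L, ∑ j ∈ range L,
      (if ((i : ZMod Q) + (j : ZMod Q)) ∈ C ∧ d ∣ i + j then (1 : ℝ) else 0)) -
        K.card * (L : ℝ) ^ 2 / (Q * d) : ℝ) : ℂ) := by
    have h1 : ∀ i j : ℕ, ψ ((i : ZMod (Q * d)) + (j : ZMod (Q * d))) =
        (if ((i : ZMod Q) + (j : ZMod Q)) ∈ C ∧ d ∣ i + j then (1 : ℝ) else 0) - ρ := by
      intro i j
      simp only [hψ]
      have h2 : (e ((i : ZMod (Q * d)) + (j : ZMod (Q * d)))).1 = (i : ZMod Q) + (j : ZMod Q) := by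
        rw [map_add, map_natCast, map_natCast]; rfl
      have h3 : (e ((i : ZMod (Q * d)) + (j : ZMod (Q * d)))).2 = (((i + j : ℕ)) : ZMod d) := by
        rw [map_add, map_natCast, map_natCast]; push_cast; rfl
      simp only [h2, h3, ZMod.natCast_eq_zero_iff]
    have h5 : ∑ i ∈ range L, ∑ j ∈ range L, ψ ((i : ZMod (Q * d)) + (j : ZMod (Q * d))) =
        (∑ i ∈ range L, ∑ j ∈ range L,
      (if ((i : ZMod Q) + (j : ZMod Q)) ∈ C ∧ d ∣ i + j then (1 : ℝ) else 0)) -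
        K.card * (L : ℝ) ^ 2 / (Q * d) := by
      simp_rw [h1, Finset.sum_sub_distrib]
      simp only [Finset.sum_const, card_range, nsmul_eq_mul]
      rw [hρ]; ring
    rw [← h5]
    simp only [hφ]
    rw [Complex.ofReal_sum]
    refine Finset.sum_congr rfl fun i _ => ?_
    rw [Complex.ofReal_sum]
  rw [hlhs, Complex.norm_real, Real.norm_eq_abs] at hmain
  refine hmain.trans ?_
  apply mul_le_mul_of_nonneg_left _ (by positivity)
  apply Real.sqrt_le_sqrt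
  rw [hK'card]
  push_cast
  rw [div_le_div_iff₀ (by positivity) htot]
  have h4 : (Q * d : ℝ) * (∑ x, ‖φ x‖ ^ 2) ≤ Q * d * K.card :=
    mul_le_mul_of_nonneg_left hsq (by positivity)
  calc (Q * d : ℝ) * (∑ x, ‖φ x‖ ^ 2) * d.totient ≤ Q * d * K.card * d.totient :=
        mul_le_mul_of_nonneg_right h4 htot.le
    _ = Q * d * (K.card * d.totient) := by ring

end Pool.Agent.H358R4
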