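import Pool.Agent.H358R4.Asym

/-!
The rigidity theorem for all large moduli.
-/

namespace Pool.Agent.H358R4

open Finset Filter

lemma exists_L (k : ℕ) (hk : 1 ≤ k) : ∀ᶠ q : ℕ in atTop, ∀ M : ℕ, M ^ k ≤ q →
    q < (M + 1) ^ k → ∀ Kc : ℕ,
      (((range (M + 1)).filter Nat.Prime) \ q.primeFactors).card.choose k ≤ Kc →
      ∃ L : ℕ, (q.divisors.card : ℝ) * √((q : ℝ) ^ 3) < Kc * L ∧ (2 * L) ^ 2 ≤ q * M := by
  have hkR : (1 : ℝ) ≤ k := by exact_mod_cast hk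
  set s : ℝ := 1 / k with hs
  have hs0 : 0 < s := by positivity
  filter_upwards [choose_lower k hk, tau_le (t := s / 16) (by positivity),
    (tendsto_nat_rpow (t := 3 * s / 4) (by positivity)).eventually (eventually_ge_atTop 32),
    (tendsto_nat_rpow hs0).eventually (eventually_ge_atTop 2),
    eventually_ge_atTop 2] with q hch htau h32 h2 hq2 M hMk hMk1 Kc hKc
  have hq2' : (2 : ℝ) ≤ q := by exact_mod_cast hq2
  have hq0 : (0 : ℝ) < q := by linarith
  have hMlow : (q : ℝ) ^ s < (M : ℝ) + 1 := by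
    have h1 : (q : ℝ) < ((M : ℝ) + 1) ^ k := by exact_mod_cast hMk1
    have h2 := Real.rpow_lt_rpow hq0.le h1 hs0
    rw [hs, one_div, Real.pow_rpow_inv_natCast (by positivity) (by omega)] at h2
    rw [hs, one_div]
    exact h2
  have hKc' : (q : ℝ) ^ (1 - s / 16) ≤ Kc := by
    have h1 := hch M hMk hMk1
    have h3 : (1 : ℝ) - 1 / (16 * (k : ℝ)) = 1 - s / 16 := by rw [hs]; field_simp
    rw [h3] at h1
    exact h1.trans (by exact_mod_cast hKc)
  set R : ℝ := (q : ℝ) ^ (1 / 2 + s / 8) with hR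
  have hR1 : 1 ≤ R := Real.one_le_rpow (by linarith) (by positivity)
  refine ⟨⌊R⌋₊ + 1, ?_, ?_⟩
  · have h1 : R < ((⌊R⌋₊ + 1 : ℕ) : ℝ) := by
      push_cast
      exact Nat.lt_floor_add_one R
    have hKpos : (0 : ℝ) < (q : ℝ) ^ (1 - s / 16) := by positivity
    have hsq : √((q : ℝ) ^ 3) = (q : ℝ) ^ (3 / 2 : ℝ) := by
      rw [Real.sqrt_eq_rpow, ← Real.rpow_natCast, ← Real.rpow_mul hq0.le]
      norm_num
    calc (q.divisors.card : ℝ) * √((q : ℝ) ^ 3)
        ≤ (q : ℝ) ^ (s / 16) * (q : ℝ) ^ (3 / 2 : ℝ) := by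
          rw [hsq]; exact mul_le_mul_of_nonneg_right htau (by positivity)
      _ = (q : ℝ) ^ (1 - s / 16) * R := by
          rw [hR, ← Real.rpow_add hq0, ← Real.rpow_add hq0]; congr 1; ring
      _ < (q : ℝ) ^ (1 - s / 16) * ((⌊R⌋₊ + 1 : ℕ) : ℝ) :=
          mul_lt_mul_of_pos_left h1 hKpos
      _ ≤ Kc * ((⌊R⌋₊ + 1 : ℕ) : ℝ) := mul_le_mul_of_nonneg_right hKc' (by positivity)
  · have h1 : ((⌊R⌋₊ + 1 : ℕ) : ℝ) ≤ 2 * R := by
      push_cast
      have := Nat.floor_le (show 0 ≤ R by linarith)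
      linarith
    have h3 : (((2 * (⌊R⌋₊ + 1)) ^ 2 : ℕ) : ℝ) ≤ ((q * M : ℕ) : ℝ) := by
      have h4 : (((2 * (⌊R⌋₊ + 1)) ^ 2 : ℕ) : ℝ) ≤ 16 * R ^ 2 := by
        have e : (((2 * (⌊R⌋₊ + 1)) ^ 2 : ℕ) : ℝ) = (2 * ((⌊R⌋₊ + 1 : ℕ) : ℝ)) ^ 2 := by
          push_cast; ring
        rw [e]
        have h0 : (0 : ℝ) ≤ ((⌊R⌋₊ + 1 : ℕ) : ℝ) := by positivity
        nlinarith
      have h5 : R ^ 2 = q * (q : ℝ) ^ (s / 4) := by
        rw [hR, ← Real.rpow_natCast, ← Real.rpow_mul hq0.le]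
        conv_rhs => rw [← Real.rpow_one_add' hq0.le (by positivity)]
        congr 1
        push_cast
        ring
      have h6 : (q : ℝ) ^ s = (q : ℝ) ^ (3 * s / 4) * (q : ℝ) ^ (s / 4) := by
        rw [← Real.rpow_add hq0]; congr 1; ring
      have h7 : 32 * (q : ℝ) ^ (s / 4) ≤ (q : ℝ) ^ s := by
        rw [h6]; exact mul_le_mul_of_nonneg_right h32 (by positivity)
      have h8 : 16 * (q : ℝ) ^ (s / 4) ≤ M := by linarith
      push_cast
      push_cast at h4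
      refine h4.trans ?_
      rw [h5]
      nlinarith
    exact_mod_cast h3

/-- Rigidity: a completely multiplicative function with values in an abelian group, which is
constant on a residue class modulo `q` up to `q ^ (2 + ε)`, is a character up to `q ^ (1 + ε)`. -/
theorem rigid_aux (k : ℕ) (hk : 1 ≤ k) : ∃ q0 : ℕ, 2 ≤ q0 ∧ ∀ q : ℕ, q0 ≤ q →
    ∀ (A : Type) [CommGroup A] (f : ℕ → A), CM f → ∀ a : ℕ, Nat.Coprime a q → ∀ c : A,
    ∀ Y : ℕ, (q : ℝ) ^ (1 + 1 / (k : ℝ)) ≤ Y → Const q Y a f c →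
    ∃ χ : (ZMod q)ˣ →* A, ∀ (n : ℕ) (hn : Nat.Coprime n q), n < Y →
      f n = χ (ZMod.unitOfCoprime n hn) := by
  obtain ⟨q0, hq0⟩ := eventually_atTop.1 (exists_L k hk)
  refine ⟨max q0 2, le_max_right _ _, ?_⟩
  intro q hq A _ f hf a ha c Y hY hC
  have hq2 : 2 ≤ q := le_trans (le_max_right _ _) hq
  haveI : NeZero q := ⟨by omega⟩
  have hk0 : k ≠ 0 := by omega
  have hqR : (2 : ℝ) ≤ q := by exact_mod_cast hq2
  -- choose M
  obtain ⟨M, hMk, hMk1⟩ : ∃ M : ℕ, M ^ k ≤ q ∧ q < (M + 1) ^ k := by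
    classical
    have hex : ∃ m : ℕ, q < (m + 1) ^ k := ⟨q, by
      calc q < q + 1 := Nat.lt_succ_self q
        _ = (q + 1) ^ 1 := (pow_one _).symm
        _ ≤ (q + 1) ^ k := Nat.pow_le_pow_right (by omega) hk⟩
    refine ⟨Nat.find hex, ?_, Nat.find_spec hex⟩
    rcases Nat.eq_zero_or_pos (Nat.find hex) with h | h
    · rw [h, zero_pow hk0]; omega
    · have h1 := Nat.find_min hex (m := Nat.find hex - 1) (by omega)
      rw [Nat.sub_add_cancel h] at h1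
      omega
  have hMq : (M : ℝ) ≤ (q : ℝ) ^ (1 / (k : ℝ)) := by
    have h1 : ((M : ℝ)) ^ k ≤ q := by exact_mod_cast hMk
    have h2 := Real.rpow_le_rpow (by positivity) h1 (show (0 : ℝ) ≤ 1 / k by positivity)
    rw [one_div, Real.pow_rpow_inv_natCast (by positivity) hk0] at h2
    rw [one_div]
    exact h2
  have hMY : M * q ≤ Y := by
    have h1 : ((M * q : ℕ) : ℝ) ≤ Y := by
      push_cast
      refine le_trans ?_ hY
      rw [Real.rpow_add (by linarith), Real.rpow_one, mul_comm]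
      exact mul_le_mul_of_nonneg_left hMq (by linarith)
    exact_mod_cast h1
  have hM1 : 1 ≤ M := by
    by_contra h
    have : M = 0 := by omega
    rw [this, zero_add, one_pow] at hMk1
    omega
  have hqY : q ≤ Y := by nlinarith
  obtain ⟨L, hL1, hL2⟩ := hq0 q (le_trans (le_max_left _ _) hq) M hMk hMk1
    (KF hq2 hf).card (card_KF hq2 hf hqY ha hC hMY hMk)
  have hmul := FU_mul hq2 hf hqY ha hC hL1 (by
    calc (2 * L) ^ 2 ≤ q * M := hL2
      _ = M * q := mul_comm _ _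
      _ ≤ Y := hMY)
  refine ⟨MonoidHom.mk' (FU f) hmul, fun n hn hnY => ?_⟩
  exact per hq2 hf hqY ha hC hnY hn

end Pool.Agent.H358R4
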