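import Pool.Agent.H358R4.SUnit
import Pool.Agent.H358R4.Rigid

/-!
Both parities of the number of prime factors in every residue class below `q ^ (2 + ε)`.
-/

namespace Pool.Agent.H358R4

open Finset Filter NumberTheorySymbols

lemma prod_erase_le (q : ℕ) (hq : 0 < q) : ∏ p ∈ q.primeFactors.erase 2, p ≤ q := by
  have h1 : ∏ p ∈ q.primeFactors.erase 2, p ≤ ∏ p ∈ q.primeFactors, p := by
    apply Finset.prod_le_prod_of_subset_of_one_le' (Finset.erase_subset _ _)
    intro p hp _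
    exact (Nat.prime_of_mem_primeFactors hp).one_lt.le
  exact h1.trans (Nat.le_of_dvd hq (Nat.prod_primeFactors_dvd q))

/-- a small prime on which a real character is `1` -/
theorem least_pos : ∀ᶠ q : ℕ in atTop, ∀ χ : (ZMod q)ˣ →* ℤˣ,
    ∃ l : ℕ, l.Prime ∧ l ≤ 3 * q ∧ ∃ h : Nat.Coprime l q, χ (ZMod.unitOfCoprime l h) = 1 := by
  classical
  filter_upwards [count_small, eventually_ge_atTop 81] with q hcount hq81 χ
  by_contra hno
  push Not at hno
  have hq0 : 0 < q := by omega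
  obtain ⟨D, hD, hDχ⟩ := real_char q hq0 χ
  set P := q.primeFactors.erase 2 with hP
  have hprodpos : 0 < ∏ p ∈ P, p := Finset.prod_pos fun p hp =>
    (Nat.prime_of_mem_primeFactors (Finset.mem_of_mem_erase hp)).pos
  have hDabs : D.natAbs ≤ 2 * q := by
    have h1 : D.natAbs ∣ 2 * ∏ p ∈ P, p := by
      have h2 := Int.natAbs_dvd_natAbs.2 hD
      rw [Int.natAbs_mul] at h2
      have h3 : (∏ p ∈ P, (p : ℤ)).natAbs = ∏ p ∈ P, p := by
        rw [← Nat.cast_prod, Int.natAbs_natCast]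
      rw [h3] at h2
      exact h2
    have h2 := Nat.le_of_dvd (by positivity) h1
    have h3 := prod_erase_le q hq0
    rw [← hP] at h3
    omega
  have hDp : ∀ p : ℕ, p.Prime → p ≠ 2 → ¬ p ∣ q → ¬ (p : ℤ) ∣ D := by
    intro p hp hp2 hpq hpD
    have h1 := hpD.trans hD
    have hpp : Prime (p : ℤ) := Nat.prime_iff_prime_int.1 hp
    rcases hpp.dvd_or_dvd h1 with h2 | h2
    · have h3 : (p : ℤ) ∣ 2 := by
        have := (dvd_neg).2 h2
        simpa using this
      have h4 : p ∣ 2 := by exact_mod_cast h3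
      exact hp2 ((Nat.prime_dvd_prime_iff_eq hp Nat.prime_two).1 h4)
    · rw [hpp.dvd_finsetProd_iff] at h2
      obtain ⟨r, hr, hpr⟩ := h2
      have h3 : p ∣ r := by exact_mod_cast hpr
      rw [hP, Finset.mem_erase, Nat.mem_primeFactors] at hr
      rw [(Nat.prime_dvd_prime_iff_eq hp hr.2.1).1 h3] at hpq
      exact hpq hr.2.2.1
  set T := (Icc 1 (3 * q)).filter (fun e => e.primeFactors ⊆ insert 2 q.primeFactors) with hT
  set T' : Finset ℤ := insert 0 (T.image (fun n : ℕ => (n : ℤ)) ∪ T.image (fun n : ℕ => -(n : ℤ)))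
    with hT'
  have hT'card : T'.card ≤ 2 * T.card + 1 := by
    calc T'.card ≤ (T.image (fun n : ℕ => (n : ℤ)) ∪ T.image (fun n : ℕ => -(n : ℤ))).card + 1 :=
          Finset.card_insert_le _ _
      _ ≤ (T.image (fun n : ℕ => (n : ℤ))).card + (T.image (fun n : ℕ => -(n : ℤ))).card + 1 := by
          have := Finset.card_union_le (T.image (fun n : ℕ => (n : ℤ)))
            (T.image (fun n : ℕ => -(n : ℤ)))
          omega
      _ ≤ T.card + T.card + 1 := by
          have h1 := Finset.card_image_le (s := T) (f := fun n : ℕ => (n : ℤ))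
          have h2 := Finset.card_image_le (s := T) (f := fun n : ℕ => -(n : ℤ))
          omega
      _ = 2 * T.card + 1 := by ring
  have hinj : (Icc 1 (Nat.sqrt q)).card ≤ T'.card := by
    apply Finset.card_le_card_of_injOn (fun x : ℕ => (x : ℤ) ^ 2 - D)
    · intro x hx
      rw [Finset.mem_coe, Finset.mem_Icc] at hx
      rw [Finset.mem_coe]
      have hx2 : x ^ 2 ≤ q := by
        calc x ^ 2 ≤ (Nat.sqrt q) ^ 2 := Nat.pow_le_pow_left hx.2 2
          _ ≤ q := Nat.sqrt_le' q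
      set n := ((x : ℤ) ^ 2 - D).natAbs with hn
      rcases Nat.eq_zero_or_pos n with hn0 | hn0
      · rw [hT', Finset.mem_insert]
        left
        exact Int.natAbs_eq_zero.1 hn0
      · have hn3 : n ≤ 3 * q := by
          have h1 : ((x : ℤ) ^ 2 - D).natAbs ≤ ((x : ℤ) ^ 2).natAbs + D.natAbs :=
            Int.natAbs_sub_le _ _
          have h2 : ((x : ℤ) ^ 2).natAbs = x ^ 2 := by
            rw [Int.natAbs_pow, Int.natAbs_natCast]
          omega
        have hnT : n ∈ T := by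
          rw [hT, Finset.mem_filter, Finset.mem_Icc]
          refine ⟨⟨hn0, hn3⟩, fun p hp => ?_⟩
          rw [Nat.mem_primeFactors] at hp
          obtain ⟨hpp, hpn, -⟩ := hp
          rw [Finset.mem_insert, Nat.mem_primeFactors]
          by_cases hp2 : p = 2
          · exact Or.inl hp2
          · right
            refine ⟨hpp, ?_, hq0.ne'⟩
            by_contra hpq
            haveI : Fact p.Prime := ⟨hpp⟩
            have hcop : Nat.Coprime p q := (Nat.Prime.coprime_iff_not_dvd hpp).2 hpq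
            have hpodd : p % 2 = 1 := hpp.eq_two_or_odd.resolve_left hp2
            apply hno p hpp ((Nat.le_of_dvd hn0 hpn).trans hn3) hcop
            have h1 := hDχ p hcop hpodd
            have h2 : J(D | p) = 1 := by
              rw [← jacobiSym.legendreSym.to_jacobiSym]
              have hD0 : (D : ZMod p) ≠ 0 := by
                rw [Ne, ZMod.intCast_zmod_eq_zero_iff_dvd]
                exact hDp p hpp hp2 hpq
              rw [legendreSym.eq_one_iff p hD0]
              refine ⟨(x : ZMod p), ?_⟩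
              have h3 : (p : ℤ) ∣ (x : ℤ) ^ 2 - D := by
                rw [← Int.natCast_dvd] at hpn
                exact hpn
              have h4 : (((x : ℤ) ^ 2 - D : ℤ) : ZMod p) = 0 := by
                rw [ZMod.intCast_zmod_eq_zero_iff_dvd]; exact h3
              push_cast at h4
              linear_combination -h4
            rw [h2] at h1
            exact Units.ext h1
        rw [hT', Finset.mem_insert, Finset.mem_union, Finset.mem_image, Finset.mem_image]
        right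
        rcases Int.natAbs_eq ((x : ℤ) ^ 2 - D) with h1 | h1
        · left; exact ⟨n, hnT, h1.symm⟩
        · right; exact ⟨n, hnT, h1.symm⟩
    · intro x hx y hy hxy
      simp only at hxy
      have h1 : (x : ℤ) ^ 2 = (y : ℤ) ^ 2 := by linarith
      have h2 : x ^ 2 = y ^ 2 := by exact_mod_cast h1
      exact Nat.pow_left_injective (by norm_num : (2 : ℕ) ≠ 0) h2
  rw [Nat.card_Icc, Nat.add_sub_cancel] at hinj
  have h1 : ((Nat.sqrt q : ℕ) : ℝ) ≤ 2 * T.card + 1 := by exact_mod_cast hinj.trans hT'card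
  have h2 : (q : ℝ) < ((Nat.sqrt q : ℕ) + 1 : ℝ) ^ 2 := by
    have := Nat.lt_succ_sqrt' q
    exact_mod_cast this
  set t : ℝ := (q : ℝ) ^ (1 / 4 : ℝ) with ht
  have hqR : (81 : ℝ) ≤ q := by exact_mod_cast hq81
  have ht4 : t ^ 4 = q := by
    rw [ht, ← Real.rpow_natCast, ← Real.rpow_mul (by linarith)]
    norm_num
  have ht0 : 0 ≤ t := by positivity
  have ht3 : 3 ≤ t := by
    by_contra h
    push Not at h
    have : t ^ 4 < 3 ^ 4 := pow_lt_pow_left₀ h ht0 (by norm_num)
    rw [ht4] at this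
    linarith
  have h3 : ((Nat.sqrt q : ℕ) : ℝ) + 1 ≤ 2 * t + 2 := by linarith
  have h4 : t ^ 4 < (2 * t + 2) ^ 2 := by
    rw [ht4]
    refine lt_of_lt_of_le h2 ?_
    exact pow_le_pow_left₀ (by positivity) h3 2
  have h5 : 2 * t + 2 ≤ t ^ 2 := by nlinarith
  have h6 : (2 * t + 2) ^ 2 ≤ (t ^ 2) ^ 2 := pow_le_pow_left₀ (by linarith) h5 2
  nlinarith

/-- Rigidity in terms of real exponents. -/
theorem rigid (ε : ℝ) (hε : 0 < ε) : ∃ q0 : ℕ, 2 ≤ q0 ∧ ∀ q : ℕ, q0 ≤ q →
    ∀ (A : Type) [CommGroup A] (f : ℕ → A),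
    (∀ m n : ℕ, m ≠ 0 → n ≠ 0 → f (m * n) = f m * f n) → ∀ a : ℕ, Nat.Coprime a q → ∀ c : A,
    (∀ N : ℕ, 0 < N → (N : ℝ) < (q : ℝ) ^ (2 + ε) → N ≡ a [MOD q] → f N = c) →
    ∃ χ : (ZMod q)ˣ →* A, ∀ (n : ℕ) (hn : Nat.Coprime n q), (n : ℝ) < (q : ℝ) ^ (1 + ε) →
      f n = χ (ZMod.unitOfCoprime n hn) := by
  obtain ⟨k, hk⟩ := exists_nat_gt (1 / ε)
  have hk0 : (0 : ℝ) < k := lt_trans (by positivity) hk
  have hk1 : 1 ≤ k := by
    have : 0 < k := by exact_mod_cast hk0
    omega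
  obtain ⟨q0, hq02, hq0⟩ := rigid_aux k hk1
  refine ⟨q0, hq02, ?_⟩
  intro q hq A _ f hf a ha c hC
  have hq2 : 2 ≤ q := le_trans hq02 hq
  have hqR : (2 : ℝ) ≤ q := by exact_mod_cast hq2
  set Y : ℕ := ⌈(q : ℝ) ^ (1 + ε)⌉₊ with hY
  have hkε : 1 / (k : ℝ) ≤ ε := by
    rw [div_le_iff₀ hk0]
    rw [div_lt_iff₀ hε] at hk
    linarith
  have hYpos : (0 : ℝ) < (q : ℝ) ^ (1 + ε) := by positivity
  obtain ⟨χ, hχ⟩ := hq0 q hq A f hf a ha c Y (by
    refine le_trans ?_ (Nat.le_ceil _)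
    exact Real.rpow_le_rpow_of_exponent_le (by linarith) (by linarith)) (by
    intro N hN0 hN hNa
    apply hC N hN0 _ ((ZMod.natCast_eq_natCast_iff _ _ _).1 hNa)
    have h1 : ((Y - 1 : ℕ) : ℝ) < (q : ℝ) ^ (1 + ε) := by
      have h2 := Nat.ceil_lt_add_one hYpos.le
      have h3 : 1 ≤ Y := Nat.one_le_ceil_iff.2 hYpos
      rw [Nat.cast_sub h3]
      push_cast
      linarith
    have h2 : ((q - 1 : ℕ) : ℝ) < q := by
      rw [Nat.cast_sub (by omega)]; push_cast; linarith
    have h3 : (N : ℝ) ≤ ((q - 1 : ℕ) : ℝ) * ((Y - 1 : ℕ) : ℝ) := by exact_mod_cast hN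
    have h4 : ((q - 1 : ℕ) : ℝ) * ((Y - 1 : ℕ) : ℝ) < q * (q : ℝ) ^ (1 + ε) := by
      apply mul_lt_mul'' h2 h1 (by positivity) (by positivity)
    have h5 : (q : ℝ) * (q : ℝ) ^ (1 + ε) = (q : ℝ) ^ (2 + ε) := by
      rw [← Real.rpow_one_add' (by linarith) (by linarith)]
      congr 1; ring
    linarith)
  refine ⟨χ, fun n hn hnY => hχ n hn ?_⟩
  exact Nat.lt_ceil.2 hnY

/-- the Liouville function as a function into the units of `ℤ` -/
def lio (n : ℕ) : ℤˣ := (-1) ^ (ArithmeticFunction.cardFactors n)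

lemma lio_mul (m n : ℕ) (hm : m ≠ 0) (hn : n ≠ 0) : lio (m * n) = lio m * lio n := by
  unfold lio
  rw [ArithmeticFunction.cardFactors_mul hm hn, pow_add]

lemma lio_prime {l : ℕ} (hl : l.Prime) : lio l = -1 := by
  unfold lio
  rw [ArithmeticFunction.cardFactors_apply_prime hl, pow_one]

/-- both parities for all large moduli -/
theorem parity_large (ε : ℝ) (hε : 0 < ε) : ∃ q0 : ℕ, 2 ≤ q0 ∧ ∀ q : ℕ, q0 ≤ q →
    ∀ a : ℕ, Nat.Coprime a q → ∀ j : ℕ, j < 2 → ∃ N : ℕ, 0 < N ∧ (N : ℝ) < (q : ℝ) ^ (2 + ε) ∧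
      N ≡ a [MOD q] ∧ ArithmeticFunction.cardFactors N % 2 = j := by
  obtain ⟨q0, hq02, hq0⟩ := rigid ε hε
  obtain ⟨q1, hq1⟩ := eventually_atTop.1 least_pos
  obtain ⟨q2, hq2⟩ := eventually_atTop.1
    ((tendsto_nat_rpow hε).eventually (eventually_ge_atTop (4 : ℝ)))
  refine ⟨max q0 (max q1 q2), le_trans hq02 (le_max_left _ _), ?_⟩
  intro q hq a ha j hj
  have h0 : q0 ≤ q := le_trans (le_max_left _ _) hq
  have h1 : q1 ≤ q := le_trans (le_trans (le_max_left _ _) (le_max_right _ _)) hq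
  have h2 : q2 ≤ q := le_trans (le_trans (le_max_right _ _) (le_max_right _ _)) hq
  by_contra hno
  push Not at hno
  have hpar : ∀ n : ℕ, lio n = 1 ↔ ArithmeticFunction.cardFactors n % 2 = 0 := by
    intro n
    unfold lio
    constructor
    · intro h
      rcases Nat.mod_two_eq_zero_or_one (ArithmeticFunction.cardFactors n) with h3 | h3
      · exact h3
      · rw [Odd.neg_one_pow (Nat.odd_iff.2 h3)] at h
        exact absurd h (by decide)
    · intro h
      exact Even.neg_one_pow (Nat.even_iff.2 h)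
  obtain ⟨χ, hχ⟩ := hq0 q h0 ℤˣ lio lio_mul a ha (if j = 0 then -1 else 1) (by
    intro N hN0 hN hNa
    have h3 := hno N hN0 hN hNa
    have h4 : ArithmeticFunction.cardFactors N % 2 < 2 := Nat.mod_lt _ (by norm_num)
    split_ifs with hj0
    · rcases Int.units_eq_one_or (lio N) with h5 | h5
      · exfalso; apply h3; rw [(hpar N).1 h5, hj0]
      · exact h5
    · rw [hpar]; omega)
  obtain ⟨l, hl, hl3, hlq, hχl⟩ := hq1 q h1 χ
  have hqR : (2 : ℝ) ≤ q := by
    have : 2 ≤ q := le_trans hq02 h0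
    exact_mod_cast this
  have hlt : (l : ℝ) < (q : ℝ) ^ (1 + ε) := by
    have h3 : (l : ℝ) ≤ 3 * q := by exact_mod_cast hl3
    have h4 := hq2 q h2
    have h5 : (q : ℝ) ^ (1 + ε) = q * (q : ℝ) ^ ε := by
      rw [Real.rpow_one_add' (by linarith) (by linarith)]
    rw [h5]
    nlinarith
  have h3 := hχ l hlq hlt
  rw [hχl, lio_prime hl] at h3
  exact absurd h3 (by decide)

end Pool.Agent.H358R4
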