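import Mathlib

/-!
Small representatives of the cosets of a large subgroup of `(ZMod q)ˣ`.
-/

namespace Pool.Agent.H358R4

open Finset

section

variable {q : ℕ} [NeZero q]

/-- the standard additive character -/
noncomputable def e (x : ZMod q) : ℂ := ZMod.stdAddChar x

lemma e_zero : e (0 : ZMod q) = 1 := by simp [e]

lemma e_add (x y : ZMod q) : e (x + y) = e x * e y := by
  unfold e; rw [AddChar.map_add_eq_mul]

lemma norm_e (x : ZMod q) : ‖e x‖ = 1 := by
  unfold e; exact AddChar.norm_apply _ _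

lemma conj_e (x : ZMod q) : (starRingEnd ℂ) (e x) = e (-x) := by
  have h1 : e x * e (-x) = 1 := by rw [← e_add, add_neg_cancel, e_zero]
  have h2 : e x * (starRingEnd ℂ) (e x) = 1 := by
    rw [Complex.mul_conj, Complex.normSq_eq_norm_sq, norm_e]; norm_num
  have h3 : e x ≠ 0 := by
    intro h0; rw [h0, zero_mul] at h1; exact zero_ne_one h1
  exact mul_left_cancel₀ h3 (h2.trans h1.symm)

lemma sum_e (b : ZMod q) : ∑ h : ZMod q, e (b * h) = if b = 0 then (q : ℂ) else 0 := by
  have h := AddChar.sum_mulShift (ψ := (ZMod.stdAddChar : AddChar (ZMod q) ℂ)) b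
    (ZMod.isPrimitive_stdAddChar q)
  rw [ZMod.card] at h
  push_cast at h
  rw [← h]
  apply Finset.sum_congr rfl
  intro x _
  rw [mul_comm]
  rfl

/-- Fourier transform -/
noncomputable def hat (φ : ZMod q → ℂ) (h : ZMod q) : ℂ := ∑ x, φ x * e (x * h)

lemma sq_eq (z : ℂ) : ((‖z‖ : ℂ)) ^ 2 = z * (starRingEnd ℂ) z := by
  rw [Complex.mul_conj, Complex.normSq_eq_norm_sq]; push_cast; rfl

lemma parseval (φ : ZMod q → ℂ) : ∑ h, ‖hat φ h‖ ^ 2 = q * ∑ x, ‖φ x‖ ^ 2 := by
  have key : ((∑ h, ‖hat φ h‖ ^ 2 : ℝ) : ℂ) = ((q * ∑ x, ‖φ x‖ ^ 2 : ℝ) : ℂ) := by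
    push_cast
    simp_rw [sq_eq]
    have e1 : ∀ h, hat φ h * (starRingEnd ℂ) (hat φ h) =
        ∑ x, ∑ y, φ x * (starRingEnd ℂ) (φ y) * e ((x - y) * h) := by
      intro h
      unfold hat
      rw [map_sum, Finset.sum_mul_sum]
      refine Finset.sum_congr rfl fun x _ => Finset.sum_congr rfl fun y _ => ?_
      rw [map_mul, conj_e, sub_mul, sub_eq_add_neg, e_add]
      ring
    simp_rw [e1]
    rw [Finset.sum_comm]
    have e2 : ∀ x, ∑ h : ZMod q, ∑ y, φ x * (starRingEnd ℂ) (φ y) * e ((x - y) * h) =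
        q * (φ x * (starRingEnd ℂ) (φ x)) := by
      intro x
      rw [Finset.sum_comm]
      have e3 : ∀ y, ∑ h : ZMod q, φ x * (starRingEnd ℂ) (φ y) * e ((x - y) * h) =
          if x = y then q * (φ x * (starRingEnd ℂ) (φ y)) else 0 := by
        intro y
        rw [← Finset.mul_sum, sum_e]
        simp only [sub_eq_zero]
        split_ifs <;> ring
      simp_rw [e3]
      rw [Finset.sum_ite_eq]
      simp
    simp_rw [e2]
    rw [Finset.mul_sum]
  exact_mod_cast key

/-- exponential sum over an interval -/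
noncomputable def DD (L : ℕ) (h : ZMod q) : ℂ := ∑ i ∈ range L, e (-((i : ZMod q) * h))

lemma inversion (φ : ZMod q → ℂ) (x : ZMod q) : ∑ h, hat φ h * e (-(x * h)) = q * φ x := by
  unfold hat
  simp_rw [Finset.sum_mul]
  rw [Finset.sum_comm]
  have e3 : ∀ y, ∑ h : ZMod q, φ y * e (y * h) * e (-(x * h)) =
      if y = x then q * φ y else 0 := by
    intro y
    have : ∀ h : ZMod q, φ y * e (y * h) * e (-(x * h)) = φ y * e ((y - x) * h) := by
      intro h
      rw [mul_assoc, ← e_add]
      congr 2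
      ring
    simp_rw [this]
    rw [← Finset.mul_sum, sum_e]
    simp only [sub_eq_zero]
    split_ifs <;> ring
  simp_rw [e3]
  rw [Finset.sum_ite_eq']
  simp

lemma double_sum (φ : ZMod q → ℂ) (L : ℕ) :
    (q : ℂ) * ∑ i ∈ range L, ∑ j ∈ range L, φ ((i : ZMod q) + (j : ZMod q)) =
      ∑ h, hat φ h * (DD L h) ^ 2 := by
  have e1 : ∀ h : ZMod q, hat φ h * (DD L h) ^ 2 =
      ∑ i ∈ range L, ∑ j ∈ range L, hat φ h * e (-(((i : ZMod q) + (j : ZMod q)) * h)) := by
    intro h
    unfold DD
    rw [sq, Finset.sum_mul_sum, Finset.mul_sum]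
    refine Finset.sum_congr rfl fun i _ => ?_
    rw [Finset.mul_sum]
    refine Finset.sum_congr rfl fun j _ => ?_
    rw [add_mul, neg_add, e_add]
  simp_rw [e1]
  rw [Finset.mul_sum]
  conv_rhs => rw [Finset.sum_comm]
  refine Finset.sum_congr rfl fun i _ => ?_
  rw [Finset.mul_sum]
  conv_rhs => rw [Finset.sum_comm]
  refine Finset.sum_congr rfl fun j _ => ?_
  rw [inversion]

lemma hat_inv {φ : ZMod q → ℂ} {k : (ZMod q)ˣ} (hk : ∀ x : ZMod q, φ (x * (k : ZMod q)) = φ x)
    (h : ZMod q) : hat φ (h * (k : ZMod q)) = hat φ h := by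
  unfold hat
  refine Fintype.sum_equiv (Units.mulRight k) (fun x => φ x * e (x * (h * (k : ZMod q))))
    (fun x => φ x * e (x * h)) ?_
  intro x
  simp only [Units.mulRight_apply, hk]
  congr 2
  ring

/-- number of solutions of a linear equation -/
lemma card_fiber (h y : ZMod q) : (univ.filter (fun x : ZMod q => h * x = y)).card ≤
    Nat.gcd q h.val := by
  classical
  set g := Nat.gcd q h.val with hg
  have hq0 : 0 < q := Nat.pos_of_ne_zero (NeZero.ne q)
  have hg0 : 0 < g := Nat.gcd_pos_of_pos_left _ hq0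
  obtain ⟨M, hM⟩ : g ∣ q := Nat.gcd_dvd_left q h.val
  have hM0 : 0 < M := by
    rcases Nat.eq_zero_or_pos M with h0 | h0
    · rw [h0] at hM; omega
    · exact h0
  have hdiv : q / g = M := by
    conv_lhs => rw [hM]
    exact Nat.mul_div_cancel_left _ hg0
  have hmod : ∀ x x' : ZMod q, h * x = y → h * x' = y → x.val % M = x'.val % M := by
    intro x x' hx hx'
    have h1 : ((h.val * x.val : ℕ) : ZMod q) = ((h.val * x'.val : ℕ) : ZMod q) := by
      push_cast
      simp only [ZMod.natCast_zmod_val]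
      rw [hx, hx']
    rw [ZMod.natCast_eq_natCast_iff] at h1
    have h2 := Nat.ModEq.cancel_left_div_gcd hq0 h1
    rw [← hg, hdiv] at h2
    exact h2
  calc (univ.filter (fun x : ZMod q => h * x = y)).card ≤ (range g).card := by
        apply Finset.card_le_card_of_injOn (fun x => x.val / M)
        · intro x _
          simp only [coe_range, Set.mem_Iio]
          rw [Nat.div_lt_iff_lt_mul hM0]
          exact lt_of_lt_of_eq (ZMod.val_lt x) hM
        · intro x hx x' hx' hxx
          have h1 := hmod x x' (by simpa using hx) (by simpa using hx')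
          have h2 : x.val = x'.val := by
            rw [← Nat.div_add_mod x.val M, ← Nat.div_add_mod x'.val M, h1]
            simp only at hxx
            rw [hxx]
          exact ZMod.val_injective q h2
    _ = g := by simp

end

end Pool.Agent.H358R4
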