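import Pool.Agent.H358R4.Coset

/-!
A completely multiplicative function which is constant on a residue class.
-/

namespace Pool.Agent.H358R4

open Finset

section

variable {A : Type*} [CommGroup A]

/-- completely multiplicative on the positive integers -/
def CM (f : ℕ → A) : Prop := ∀ m n : ℕ, m ≠ 0 → n ≠ 0 → f (m * n) = f m * f n

lemma CM.one {f : ℕ → A} (hf : CM f) : f 1 = 1 := by
  have h := hf 1 1 one_ne_zero one_ne_zero
  rw [mul_one] at h
  exact (mul_eq_left.1 h.symm)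

/-- `f` is constant on a class modulo `q` up to `(q - 1) * (Y - 1)` -/
def Const (q Y a : ℕ) (f : ℕ → A) (c : A) : Prop :=
  ∀ N : ℕ, 0 < N → N ≤ (q - 1) * (Y - 1) → (N : ZMod q) = (a : ZMod q) → f N = c

variable {q : ℕ} [NeZero q] {f : ℕ → A}

/-- the function on the unit group -/
def FU (f : ℕ → A) (g : (ZMod q)ˣ) : A := f (g : ZMod q).val

lemma val_pos (hq : 2 ≤ q) (g : (ZMod q)ˣ) : 0 < (g : ZMod q).val := by
  haveI : Fact (1 < q) := ⟨hq⟩
  rcases Nat.eq_zero_or_pos (g : ZMod q).val with h | h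
  · exfalso
    rw [ZMod.val_eq_zero] at h
    exact g.ne_zero h
  · exact h

lemma FU_one (hq : 2 ≤ q) (hf : CM f) : FU f (1 : (ZMod q)ˣ) = 1 := by
  haveI : Fact (1 < q) := ⟨hq⟩
  unfold FU
  rw [Units.val_one, ZMod.val_one]
  exact hf.one

/-- the stabiliser -/
def KS (hq : 2 ≤ q) (hf : CM f) : Subgroup (ZMod q)ˣ where
  carrier := {h | ∀ g : (ZMod q)ˣ, FU f (h * g) = FU f h * FU f g}
  mul_mem' := by
    intro h k hh hk g
    simp only [Set.mem_setOf_eq] at hh hk
    rw [mul_assoc, hh, hk, hh k]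
    exact (mul_assoc _ _ _).symm
  one_mem' := by
    intro g
    rw [one_mul, FU_one hq hf, one_mul]
  inv_mem' := by
    intro h hh g
    simp only [Set.mem_setOf_eq] at hh
    have h1 : FU f h * FU f h⁻¹ = 1 := by
      rw [← hh, mul_inv_cancel, FU_one hq hf]
    have h2 : FU f h * FU f (h⁻¹ * g) = FU f g := by
      rw [← hh, mul_inv_cancel_left]
    have h3 : FU f h⁻¹ = (FU f h)⁻¹ := eq_inv_of_mul_eq_one_right h1
    rw [h3, ← h2, inv_mul_cancel_left]

lemma mem_KS (hq : 2 ≤ q) (hf : CM f) (h : (ZMod q)ˣ) :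
    h ∈ KS hq hf ↔ ∀ g : (ZMod q)ˣ, FU f (h * g) = FU f h * FU f g := Iff.rfl

lemma coprime_pos (hq : 2 ≤ q) {n : ℕ} (hn : Nat.Coprime n q) : 0 < n := by
  rcases Nat.eq_zero_or_pos n with h | h
  · rw [h, Nat.coprime_zero_left] at hn; omega
  · exact h

lemma per (hq : 2 ≤ q) (hf : CM f) {Y a : ℕ} {c : A} (hY : q ≤ Y) (ha : Nat.Coprime a q)
    (hC : Const q Y a f c) {n : ℕ} (hn : n < Y) (hnq : Nat.Coprime n q) :
    f n = FU f (ZMod.unitOfCoprime n hnq) := by
  set u := ZMod.unitOfCoprime n hnq with hu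
  set w : (ZMod q)ˣ := ZMod.unitOfCoprime a ha * u⁻¹ with hw
  have hwp := val_pos hq w
  have hup := val_pos hq u
  have hwl : (w : ZMod q).val < q := ZMod.val_lt _
  have hul : (u : ZMod q).val < q := ZMod.val_lt _
  have hn0 := coprime_pos hq hnq
  have hcast : ((u : ZMod q)) * (w : ZMod q) = (a : ZMod q) := by
    rw [← Units.val_mul, hw, mul_comm u, inv_mul_cancel_right, ZMod.coe_unitOfCoprime]
  have e1 : f (n * (w : ZMod q).val) = c := by
    apply hC
    · positivity
    · rw [mul_comm (q - 1)]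
      exact Nat.mul_le_mul (by omega) (by omega)
    · push_cast
      rw [ZMod.natCast_zmod_val, ← hcast, hu, ZMod.coe_unitOfCoprime]
  have e2 : f ((u : ZMod q).val * (w : ZMod q).val) = c := by
    apply hC
    · positivity
    · exact Nat.mul_le_mul (by omega) (by omega)
    · push_cast
      rw [ZMod.natCast_zmod_val, ZMod.natCast_zmod_val, ← hcast]
  rw [hf _ _ hn0.ne' hwp.ne'] at e1
  rw [hf _ _ hup.ne' hwp.ne', ← e1] at e2
  exact (mul_right_cancel e2).symm

lemma small_mem (hq : 2 ≤ q) (hf : CM f) {Y a : ℕ} {c : A} (hY : q ≤ Y) (ha : Nat.Coprime a q)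
    (hC : Const q Y a f c) {m : ℕ} (hm : m * q ≤ Y) (hmq : Nat.Coprime m q) :
    ZMod.unitOfCoprime m hmq ∈ KS hq hf := by
  rw [mem_KS]
  intro g
  have hm0 := coprime_pos hq hmq
  have hgp := val_pos hq g
  have hgl : (g : ZMod q).val < q := ZMod.val_lt _
  have hgc : Nat.Coprime (g : ZMod q).val q := ZMod.val_coe_unit_coprime g
  have hmg : Nat.Coprime (m * (g : ZMod q).val) q := Nat.Coprime.mul_left hmq hgc
  have h1 : m * (g : ZMod q).val < Y := by
    calc m * (g : ZMod q).val < m * q := Nat.mul_lt_mul_of_pos_left hgl hm0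
      _ ≤ Y := hm
  have h2 : m < Y := by
    calc m = m * 1 := (mul_one m).symm
      _ < m * q := Nat.mul_lt_mul_of_pos_left (by omega) hm0
      _ ≤ Y := hm
  have e1 := per hq hf hY ha hC h1 hmg
  have e2 := per hq hf hY ha hC h2 hmq
  rw [hf _ _ hm0.ne' hgp.ne', e2] at e1
  have e3 : ZMod.unitOfCoprime (m * (g : ZMod q).val) hmg = ZMod.unitOfCoprime m hmq * g := by
    apply Units.ext
    rw [ZMod.coe_unitOfCoprime, Units.val_mul, ZMod.coe_unitOfCoprime]
    push_cast
    rw [ZMod.natCast_zmod_val]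
  rw [e3] at e1
  exact e1.symm

open Classical in
/-- the stabiliser as a finite set -/
noncomputable def KF (hq : 2 ≤ q) (hf : CM f) : Finset (ZMod q)ˣ :=
  univ.filter (fun h => h ∈ KS hq hf)

lemma mem_KF (hq : 2 ≤ q) (hf : CM f) (h : (ZMod q)ˣ) : h ∈ KF hq hf ↔ h ∈ KS hq hf := by
  unfold KF; simp

/-- many elements in the stabiliser -/
lemma card_KF (hq : 2 ≤ q) (hf : CM f) {Y a : ℕ} {c : A} (hY : q ≤ Y) (ha : Nat.Coprime a q)
    (hC : Const q Y a f c) {M k : ℕ} (hM : M * q ≤ Y) (hMk : M ^ k ≤ q) :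
    (((range (M + 1)).filter Nat.Prime) \ q.primeFactors).card.choose k ≤ (KF hq hf).card := by
  classical
  set P := ((range (M + 1)).filter Nat.Prime) \ q.primeFactors with hP
  have hPp : ∀ p ∈ P, p.Prime ∧ p ≤ M ∧ Nat.Coprime p q := by
    intro p hp
    rw [hP, Finset.mem_sdiff, Finset.mem_filter, Finset.mem_range] at hp
    refine ⟨hp.1.2, by omega, ?_⟩
    rw [Nat.Prime.coprime_iff_not_dvd hp.1.2]
    intro hd
    exact hp.2 (Nat.mem_primeFactors.2 ⟨hp.1.2, hd, by omega⟩)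
  set u : ℕ → (ZMod q)ˣ := fun p => if h : Nat.Coprime p q then ZMod.unitOfCoprime p h else 1
    with hu
  have hup : ∀ p (h : Nat.Coprime p q), u p = ZMod.unitOfCoprime p h := fun p h => dif_pos h
  have hcop : ∀ S ∈ powersetCard k P, Nat.Coprime (∏ p ∈ S, p) q := by
    intro S hS
    apply Nat.Coprime.prod_left
    intro p hp
    exact (hPp p ((Finset.mem_powersetCard.1 hS).1 hp)).2.2
  have hcast : ∀ S ∈ powersetCard k P, ((∏ p ∈ S, u p : (ZMod q)ˣ) : ZMod q) =
      ((∏ p ∈ S, p : ℕ) : ZMod q) := by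
    intro S hS
    rw [Units.coe_prod, Nat.cast_prod]
    refine Finset.prod_congr rfl fun p hp => ?_
    have h1 := (hPp p ((Finset.mem_powersetCard.1 hS).1 hp)).2.2
    rw [hup p h1, ZMod.coe_unitOfCoprime]
  have hlt : ∀ S ∈ powersetCard k P, ∏ p ∈ S, p < q := by
    intro S hS
    have h1 : ∏ p ∈ S, p ≤ M ^ k := by
      calc ∏ p ∈ S, p ≤ ∏ p ∈ S, M := Finset.prod_le_prod' fun p hp =>
            (hPp p ((Finset.mem_powersetCard.1 hS).1 hp)).2.1
        _ = M ^ k := by rw [Finset.prod_const, (Finset.mem_powersetCard.1 hS).2]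
    rcases Nat.lt_or_ge (∏ p ∈ S, p) q with h | h
    · exact h
    · exfalso
      have h2 : ∏ p ∈ S, p = q := by omega
      have h3 := hcop S hS
      rw [h2, Nat.coprime_self] at h3
      omega
  rw [← Finset.card_powersetCard]
  apply Finset.card_le_card_of_injOn (fun S => ∏ p ∈ S, u p)
  · intro S hS
    rw [Finset.mem_coe] at hS
    rw [Finset.mem_coe, mem_KF]
    apply Subgroup.prod_mem
    intro p hp
    obtain ⟨h1, h2, h3⟩ := hPp p ((Finset.mem_powersetCard.1 hS).1 hp)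
    rw [hup p h3]
    exact small_mem hq hf hY ha hC ((Nat.mul_le_mul_right _ h2).trans hM) h3
  · intro S hS T hT hST
    rw [Finset.mem_coe] at hS hT
    simp only at hST
    have h1 : ((∏ p ∈ S, p : ℕ) : ZMod q) = ((∏ p ∈ T, p : ℕ) : ZMod q) := by
      rw [← hcast S hS, ← hcast T hT, hST]
    rw [ZMod.natCast_eq_natCast_iff', Nat.mod_eq_of_lt (hlt S hS), Nat.mod_eq_of_lt (hlt T hT)]
      at h1
    have h2 := congrArg Nat.primeFactors h1
    rw [Nat.primeFactors_prod, Nat.primeFactors_prod] at h2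
    · exact h2
    · intro p hp
      exact (hPp p ((Finset.mem_powersetCard.1 hT).1 hp)).1
    · intro p hp
      exact (hPp p ((Finset.mem_powersetCard.1 hS).1 hp)).1

/-- multiplicativity of the function on the unit group -/
theorem FU_mul (hq : 2 ≤ q) (hf : CM f) {Y a : ℕ} {c : A} (hY : q ≤ Y) (ha : Nat.Coprime a q)
    (hC : Const q Y a f c) {L : ℕ}
    (hL : (q.divisors.card : ℝ) * √((q : ℝ) ^ 3) < (KF hq hf).card * L)
    (hLY : (2 * L) ^ 2 ≤ Y) (g h : (ZMod q)ˣ) : FU f (g * h) = FU f g * FU f h := by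
  have h1mem : (1 : (ZMod q)ˣ) ∈ KF hq hf := by rw [mem_KF]; exact Subgroup.one_mem _
  have hK0 : 0 < (KF hq hf).card := Finset.card_pos.2 ⟨1, h1mem⟩
  have hrep : ∀ g : (ZMod q)ˣ, ∃ n : ℕ, n < 2 * L ∧ ∃ hn : Nat.Coprime n q,
      ∃ k ∈ KS hq hf, g = ZMod.unitOfCoprime n hn * k := by
    intro g
    obtain ⟨n, hn, k, hk, hnk⟩ := coset_rep (KF hq hf) hK0
      (fun k hk k' hk' => by
        rw [mem_KF] at *; exact Subgroup.mul_mem _ hk hk')
      (fun k hk => by
        rw [mem_KF] at *; exact Subgroup.inv_mem _ hk) g L hL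
    have hcop : Nat.Coprime n q := by
      rw [← ZMod.isUnit_iff_coprime, hnk]
      exact (g * k).isUnit
    refine ⟨n, by omega, hcop, k⁻¹, Subgroup.inv_mem _ ((mem_KF hq hf k).1 hk), ?_⟩
    have : ZMod.unitOfCoprime n hcop = g * k := by
      apply Units.ext
      rw [ZMod.coe_unitOfCoprime, hnk]
    rw [this, mul_inv_cancel_right]
  obtain ⟨n, hn, hnq, k, hk, rfl⟩ := hrep g
  obtain ⟨m, hm, hmq, l, hl, rfl⟩ := hrep h
  set u := ZMod.unitOfCoprime n hnq with hu
  set v := ZMod.unitOfCoprime m hmq with hv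
  have hn0 := coprime_pos hq hnq
  have hm0 := coprime_pos hq hmq
  have hnm : n * m < Y := by
    calc n * m < (2 * L) * (2 * L) := Nat.mul_lt_mul'' hn hm
      _ = (2 * L) ^ 2 := by ring
      _ ≤ Y := hLY
  have hnY : n < Y := lt_of_le_of_lt (Nat.le_mul_of_pos_right _ hm0) hnm
  have hmY : m < Y := lt_of_le_of_lt (Nat.le_mul_of_pos_left _ hn0) hnm
  have huv : FU f (u * v) = FU f u * FU f v := by
    have e1 := per hq hf hY ha hC hnm (Nat.Coprime.mul_left hnq hmq)
    rw [hf _ _ hn0.ne' hm0.ne', per hq hf hY ha hC hnY hnq, per hq hf hY ha hC hmY hmq] at e1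
    rw [← hu, ← hv] at e1
    have e3 : ZMod.unitOfCoprime (n * m) (Nat.Coprime.mul_left hnq hmq) = u * v := by
      apply Units.ext
      rw [ZMod.coe_unitOfCoprime, Units.val_mul, hu, hv, ZMod.coe_unitOfCoprime,
        ZMod.coe_unitOfCoprime]
      push_cast
      rfl
    rw [e3] at e1
    exact e1.symm
  have hkl := Subgroup.mul_mem _ hk hl
  rw [mem_KS] at hk hl hkl
  have e1 : u * k * (v * l) = (k * l) * (u * v) := by
    rw [mul_mul_mul_comm, mul_comm]
  rw [e1, hkl, huv, hk l, mul_comm u k, hk u, mul_comm v l, hl v]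
  exact mul_mul_mul_comm _ _ _ _

end

end Pool.Agent.H358R4
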