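import Mathlib

/-!
Real characters of `(ZMod q)ˣ` and Jacobi symbols.
-/

namespace Pool.Agent.H358R4

open Finset NumberTheorySymbols

lemma square_pow_odd (p : ℕ) [Fact p.Prime] (hp2 : p ≠ 2) (k : ℕ) (n : ℤ) (hn : ¬ (p : ℤ) ∣ n)
    (hs : IsSquare (n : ZMod p)) : IsSquare (n : ZMod (p ^ k)) := by
  obtain ⟨y, hy⟩ := hs
  obtain ⟨t, rfl⟩ : ∃ t : ℤ, (t : ZMod p) = y := ⟨(y.val : ℤ), by simp⟩
  have hdvd : (p : ℤ) ∣ t ^ 2 - n := by
    rw [← ZMod.intCast_zmod_eq_zero_iff_dvd]
    push_cast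
    rw [hy]; ring
  have ht : ¬ (p : ℤ) ∣ 2 * t := by
    intro h
    have hpp : Prime (p : ℤ) := Nat.prime_iff_prime_int.1 Fact.out
    rcases hpp.dvd_or_dvd h with h1 | h1
    · have h2 : p ∣ 2 := by exact_mod_cast h1
      exact hp2 ((Nat.prime_dvd_prime_iff_eq Fact.out Nat.prime_two).1 h2)
    · apply hn
      have h2 : (p : ℤ) ∣ t ^ 2 := by rw [sq]; exact h1.mul_right t
      have := dvd_sub h2 hdvd
      simpa using this
  set F : Polynomial ℤ_[p] := Polynomial.X ^ 2 - Polynomial.C (n : ℤ_[p]) with hF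
  have h1 : Polynomial.aeval (t : ℤ_[p]) F = ((t ^ 2 - n : ℤ) : ℤ_[p]) := by
    rw [hF]; simp
  have h2 : Polynomial.aeval (t : ℤ_[p]) F.derivative = ((2 * t : ℤ) : ℤ_[p]) := by
    rw [hF]; simp; left; norm_num
  obtain ⟨z, hz, -⟩ := hensels_lemma (F := F) (a := (t : ℤ_[p])) (by
    rw [h1, h2]
    have h3 : ‖((t ^ 2 - n : ℤ) : ℤ_[p])‖ < 1 := PadicInt.norm_int_lt_one_iff_dvd _ |>.2 hdvd
    have h4 : ‖((2 * t : ℤ) : ℤ_[p])‖ = 1 := by
      apply le_antisymm (PadicInt.norm_le_one _)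
      by_contra h
      push Not at h
      exact ht ((PadicInt.norm_int_lt_one_iff_dvd _).1 h)
    rw [h4]; simpa using h3)
  have hz2 : z * z = (n : ℤ_[p]) := by
    rw [hF] at hz
    simp only [map_sub, map_pow, Polynomial.aeval_X, Polynomial.aeval_C] at hz
    have : z ^ 2 = (n : ℤ_[p]) := by
      simpa [sub_eq_zero] using hz
    rw [← sq]; exact this
  refine ⟨PadicInt.toZModPow k z, ?_⟩
  rw [← map_mul, hz2]
  simp

lemma square_pow_two (k : ℕ) (n : ℤ) (hn : (8 : ℤ) ∣ n - 1) : IsSquare (n : ZMod (2 ^ k)) := by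
  set F : Polynomial ℤ_[2] := Polynomial.X ^ 2 - Polynomial.C (n : ℤ_[2]) with hF
  have h1 : Polynomial.aeval (1 : ℤ_[2]) F = ((1 - n : ℤ) : ℤ_[2]) := by
    rw [hF]; simp
  have h2 : Polynomial.aeval (1 : ℤ_[2]) F.derivative = 2 := by
    rw [hF]; simp; norm_num
  obtain ⟨z, hz, -⟩ := hensels_lemma (F := F) (a := (1 : ℤ_[2])) (by
    rw [h1, h2]
    have h3 : ‖((1 - n : ℤ) : ℤ_[2])‖ ≤ ((2 : ℕ) : ℝ) ^ (-(3 : ℕ) : ℤ) := by
      rw [PadicInt.norm_int_le_pow_iff_dvd]
      have : (1 - n : ℤ) = -(n - 1) := by ring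
      rw [this]
      norm_num
      exact (dvd_neg).1 (by simpa using hn)
    have h4 : ‖(2 : ℤ_[2])‖ = 2⁻¹ := by
      have := PadicInt.norm_p (p := 2)
      simpa using this
    rw [h4]
    refine lt_of_le_of_lt h3 ?_
    norm_num)
  have hz2 : z * z = (n : ℤ_[2]) := by
    rw [hF] at hz
    simp only [map_sub, map_pow, Polynomial.aeval_X, Polynomial.aeval_C] at hz
    have : z ^ 2 = (n : ℤ_[2]) := by
      simpa [sub_eq_zero] using hz
    rw [← sq]; exact this
  refine ⟨PadicInt.toZModPow k z, ?_⟩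
  rw [← map_mul, hz2]
  simp

lemma square_mul (a b : ℕ) (hab : Nat.Coprime a b) (n : ℤ) (ha : IsSquare (n : ZMod a))
    (hb : IsSquare (n : ZMod b)) : IsSquare (n : ZMod (a * b)) := by
  obtain ⟨x, hx⟩ := ha
  obtain ⟨y, hy⟩ := hb
  set e := ZMod.chineseRemainder hab with he
  refine ⟨e.symm (x, y), ?_⟩
  apply e.injective
  rw [map_mul, RingEquiv.apply_symm_apply, map_intCast]
  ext
  · simpa using hx
  · simpa using hy

/-- an integer which is `1` modulo `8` and a square modulo every odd prime factor of `q` is a square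
modulo `q` -/
lemma square_mod (q : ℕ) (hq : 0 < q) (n : ℤ) (h8 : (8 : ℤ) ∣ n - 1)
    (hp : ∀ p : ℕ, p.Prime → p ≠ 2 → p ∣ q → ¬ (p : ℤ) ∣ n ∧ IsSquare (n : ZMod p)) :
    IsSquare (n : ZMod q) := by
  induction q using Nat.recOnPosPrimePosCoprime with
  | prime_pow p k hpp hk =>
    haveI : Fact p.Prime := ⟨hpp⟩
    by_cases h2 : p = 2
    · subst h2; exact square_pow_two k n h8
    · obtain ⟨h3, h4⟩ := hp p hpp h2 (dvd_pow_self p hk.ne')
      exact square_pow_odd p h2 k n h3 h4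
  | zero => omega
  | one => exact ⟨0, Subsingleton.elim _ _⟩
  | coprime a b ha hb hab iha ihb =>
    exact square_mul a b hab n (iha (by omega) fun p h1 h2 h3 => hp p h1 h2 (h3.mul_right b))
      (ihb (by omega) fun p h1 h2 h3 => hp p h1 h2 (h3.mul_left a))

/-- a function with values `±1` on a multiplicatively closed set, which is trivial where finitely
many Jacobi symbols are trivial, is a Jacobi symbol -/
lemma ext_list (F : ℕ → ℤ) (l : List ℤ) : ∀ S : Set ℕ, (∀ m ∈ S, ∀ n ∈ S, m * n ∈ S) →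
    (∀ m ∈ S, ∀ n ∈ S, F (m * n) = F m * F n) → (∀ n ∈ S, F n = 1 ∨ F n = -1) →
    (∀ n ∈ S, n ≠ 0) → (∀ d ∈ l, ∀ n ∈ S, J(d | n) = 1 ∨ J(d | n) = -1) →
    (∀ n ∈ S, (∀ d ∈ l, J(d | n) = 1) → F n = 1) →
    ∃ D : ℤ, D ∣ l.prod ∧ ∀ n ∈ S, F n = J(D | n) := by
  induction l with
  | nil =>
    intro S _ _ _ _ _ h
    refine ⟨1, one_dvd _, fun n hn => ?_⟩
    rw [jacobiSym.one_left]
    exact h n hn (by simp)
  | cons c t ih =>
    intro S hS hF hpm hne hJ h
    have hJm : ∀ d : ℤ, ∀ m ∈ S, ∀ n ∈ S, J(d | m * n) = J(d | m) * J(d | n) :=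
      fun d m hm n hn => jacobiSym.mul_right' d (hne m hm) (hne n hn)
    have hJc := hJ c (List.mem_cons_self)
    set S' : Set ℕ := {n | n ∈ S ∧ J(c | n) = 1} with hS'
    obtain ⟨D, hD, hDF⟩ := ih S'
      (fun m hm n hn => ⟨hS m hm.1 n hn.1, by rw [hJm c m hm.1 n hn.1, hm.2, hn.2, one_mul]⟩)
      (fun m hm n hn => hF m hm.1 n hn.1) (fun n hn => hpm n hn.1) (fun n hn => hne n hn.1)
      (fun d hd n hn => hJ d (List.mem_cons_of_mem _ hd) n hn.1)
      (fun n hn hd => h n hn.1 (by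
        intro d hd'
        rcases List.mem_cons.1 hd' with rfl | h1
        · exact hn.2
        · exact hd d h1))
    -- `J(D | n)` is `±1` on `S`
    have hDpm : ∀ n ∈ S, J(D | n) = 1 ∨ J(D | n) = -1 := by
      intro n hn
      have hprod : ∀ l' : List ℤ, (∀ d ∈ l', J(d | n) ≠ 0) → J(l'.prod | n) ≠ 0 := by
        intro l' hl'
        induction l' with
        | nil => rw [List.prod_nil, jacobiSym.one_left]; exact one_ne_zero
        | cons a b ihb =>
          rw [List.prod_cons, jacobiSym.mul_left]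
          exact mul_ne_zero (hl' a List.mem_cons_self)
            (ihb fun d hd => hl' d (List.mem_cons_of_mem _ hd))
      have h1 : J(t.prod | n) ≠ 0 := hprod t (fun d hd => by
        rcases hJ d (List.mem_cons_of_mem _ hd) n hn with h2 | h2 <;> rw [h2] <;> norm_num)
      obtain ⟨E, hE⟩ := hD
      rw [hE, jacobiSym.mul_left] at h1
      have h2 : J(D | n) ≠ 0 := left_ne_zero_of_mul h1
      rcases jacobiSym.trichotomy D n with h3 | h3 | h3
      · exact absurd h3 h2
      · exact Or.inl h3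
      · exact Or.inr h3
    have hGS' : ∀ n ∈ S, J(c | n) = 1 → F n * J(D | n) = 1 := by
      intro n hn hc
      rw [hDF n ⟨hn, hc⟩]
      rcases hDpm n hn with h1 | h1 <;> rw [h1] <;> norm_num
    by_cases hex : ∃ n0 ∈ S, J(c | n0) = -1 ∧ F n0 * J(D | n0) = -1
    · obtain ⟨n0, hn0, hc0, hG0⟩ := hex
      refine ⟨c * D, by rw [List.prod_cons]; exact mul_dvd_mul_left c hD, fun n hn => ?_⟩
      rw [jacobiSym.mul_left]
      have hG : F n * J(D | n) = J(c | n) := by
        rcases hJc n hn with h1 | h1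
        · rw [h1]; exact hGS' n hn h1
        · have h2 := hGS' (n * n0) (hS n hn n0 hn0) (by rw [hJm c n hn n0 hn0, h1, hc0]; norm_num)
          rw [hF n hn n0 hn0, hJm D n hn n0 hn0] at h2
          rw [h1]
          linear_combination (-1 : ℤ) * h2 + (F n * J(D | n)) * hG0
      rw [← hG, mul_assoc]
      rcases hDpm n hn with h1 | h1 <;> rw [h1] <;> ring
    · push Not at hex
      refine ⟨D, by rw [List.prod_cons]; exact hD.mul_left c, fun n hn => ?_⟩
      have hG : F n * J(D | n) = 1 := by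
        rcases hJc n hn with h1 | h1
        · exact hGS' n hn h1
        · have h2 := hex n hn h1
          rcases hpm n hn with h3 | h3 <;> rcases hDpm n hn with h4 | h4 <;>
            simp [h3, h4] at h2 ⊢
      rcases hDpm n hn with h1 | h1 <;> rw [h1] at hG ⊢ <;> linarith

/-- classification of the real characters modulo `q` -/
theorem real_char (q : ℕ) (hq : 0 < q) (χ : (ZMod q)ˣ →* ℤˣ) :
    ∃ D : ℤ, D ∣ -2 * (∏ p ∈ q.primeFactors.erase 2, (p : ℤ)) ∧
      ∀ (n : ℕ) (hn : Nat.Coprime n q), n % 2 = 1 →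
        ((χ (ZMod.unitOfCoprime n hn) : ℤˣ) : ℤ) = J(D | n) := by
  classical
  set F : ℕ → ℤ := fun n => if h : Nat.Coprime n q then
    ((χ (ZMod.unitOfCoprime n h) : ℤˣ) : ℤ) else 1 with hF
  have hFv : ∀ (n : ℕ) (h : Nat.Coprime n q), F n = ((χ (ZMod.unitOfCoprime n h) : ℤˣ) : ℤ) :=
    fun n h => dif_pos h
  set S : Set ℕ := {n | Nat.Coprime n q ∧ n % 2 = 1} with hS
  set P := q.primeFactors.erase 2 with hP
  set l : List ℤ := (-1) :: 2 :: (P.toList.map (fun p : ℕ => (p : ℤ))) with hl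
  have hprod : l.prod = -2 * (∏ p ∈ P, (p : ℤ)) := by
    rw [hl, List.prod_cons, List.prod_cons, Finset.prod_map_toList]
    ring
  have hPp : ∀ p ∈ P, p.Prime ∧ p ∣ q ∧ p % 2 = 1 := by
    intro p hp
    rw [hP, Finset.mem_erase, Nat.mem_primeFactors] at hp
    exact ⟨hp.2.1, hp.2.2.1, hp.2.1.eq_two_or_odd.resolve_left hp.1⟩
  obtain ⟨D, hD, hDF⟩ := ext_list F l S
    (fun m hm n hn => ⟨Nat.Coprime.mul_left hm.1 hn.1, by rw [Nat.mul_mod, hm.2, hn.2]⟩)
    (fun m hm n hn => by
      rw [hFv m hm.1, hFv n hn.1, hFv (m * n) (Nat.Coprime.mul_left hm.1 hn.1), ← Units.val_mul,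
        ← map_mul]
      congr 2
      apply Units.ext
      rw [Units.val_mul, ZMod.coe_unitOfCoprime, ZMod.coe_unitOfCoprime, ZMod.coe_unitOfCoprime]
      push_cast
      rfl)
    (fun n hn => by
      rw [hFv n hn.1]
      rcases Int.units_eq_one_or (χ (ZMod.unitOfCoprime n hn.1)) with h | h <;> rw [h]
      · left; rfl
      · right; rfl)
    (fun n hn h0 => by have := hn.2; omega)
    (fun d hd n hn => by
      apply jacobiSym.eq_one_or_neg_one
      rw [hl, List.mem_cons, List.mem_cons, List.mem_map] at hd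
      rcases hd with rfl | rfl | ⟨p, hp, rfl⟩
      · simp
      · rw [Int.gcd_eq_natAbs]
        simp only [Int.natAbs_natCast]
        exact (Nat.coprime_two_left).2 (Nat.odd_iff.2 hn.2)
      · obtain ⟨h1, h2, -⟩ := hPp p (Finset.mem_toList.1 hp)
        rw [Int.gcd_natCast_natCast]
        exact (Nat.Coprime.coprime_dvd_right h2 hn.1).symm)
    (fun n hn hd => by
      have hodd : Odd n := Nat.odd_iff.2 hn.2
      have h1 := hd (-1) (by simp [hl])
      have h2 := hd 2 (by simp [hl])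
      rw [jacobiSym.at_neg_one hodd] at h1
      rw [jacobiSym.at_two hodd] at h2
      have h8 : n % 8 = 1 := by
        have h3 : n % 8 = 1 ∨ n % 8 = 3 ∨ n % 8 = 5 ∨ n % 8 = 7 := by have := hn.2; omega
        have h4 : n % 4 = 1 ∨ n % 4 = 3 := by have := hn.2; omega
        rcases h4 with h4 | h4
        · rcases h3 with h3 | h3 | h3 | h3
          · exact h3
          · omega
          · exfalso
            rw [ZMod.χ₈_nat_mod_eight, h3] at h2
            revert h2; decide
          · omega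
        · exfalso
          rw [ZMod.χ₄_nat_mod_four, h4] at h1
          revert h1; decide
      have hsq : IsSquare ((n : ℤ) : ZMod q) := by
        apply square_mod q hq (n : ℤ) (by omega)
        intro p hpp hp2 hpq
        haveI : Fact p.Prime := ⟨hpp⟩
        have hpn : ¬ p ∣ n := by
          intro h
          have := Nat.dvd_gcd h hpq
          rw [hn.1] at this
          exact hpp.one_lt.ne' (Nat.dvd_one.1 this)
        have hpP : p ∈ P := by
          rw [hP, Finset.mem_erase, Nat.mem_primeFactors]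
          exact ⟨hp2, hpp, hpq, hq.ne'⟩
        have h5 := hd (p : ℤ) (by
          rw [hl, List.mem_cons, List.mem_cons, List.mem_map]
          exact Or.inr (Or.inr ⟨p, Finset.mem_toList.2 hpP, rfl⟩))
        have hpodd : Odd p := Nat.odd_iff.2 (hPp p hpP).2.2
        refine ⟨by exact_mod_cast hpn, ?_⟩
        rw [jacobiSym.quadratic_reciprocity_one_mod_four' hpodd (by omega),
          ← jacobiSym.legendreSym.to_jacobiSym] at h5
        rw [legendreSym.eq_one_iff p (by
          intro h0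
          apply hpn
          have : ((n : ℤ) : ZMod p) = ((n : ℕ) : ZMod p) := by push_cast; rfl
          rw [this] at h0
          exact (ZMod.natCast_eq_zero_iff _ _).1 h0)] at h5
        exact h5
      rw [hFv n hn.1]
      obtain ⟨y, hy⟩ := hsq
      have hyu : IsUnit y := by
        have h5 : IsUnit ((n : ℕ) : ZMod q) := (ZMod.isUnit_iff_coprime n q).2 hn.1
        have h6 : ((n : ℕ) : ZMod q) = y * y := by rw [← hy]; push_cast; rfl
        rw [h6] at h5
        exact isUnit_of_mul_isUnit_left h5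
      obtain ⟨u, hu⟩ := hyu
      have h7 : ZMod.unitOfCoprime n hn.1 = u * u := by
        apply Units.ext
        rw [ZMod.coe_unitOfCoprime, Units.val_mul, hu, ← hy]
        push_cast; rfl
      rw [h7, map_mul]
      rcases Int.units_eq_one_or (χ u) with h | h <;> rw [h] <;> rfl)
  refine ⟨D, by rw [← hprod]; exact hD, fun n hn hn2 => ?_⟩
  rw [← hFv n hn]
  exact hDF n ⟨hn, hn2⟩

end Pool.Agent.H358R4
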