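import Pool.Agent.H446R2.BrunD

/-!
Integers without small prime factors in arithmetic progressions.
-/

namespace Pool.Agent.H358R4

open Finset

/-- all prime factors exceed `z` -/
def Rough (z n : ℕ) : Prop := ∀ p : ℕ, p.Prime → p ∣ n → z < p

lemma Rough.one (z : ℕ) : Rough z 1 := by
  intro p hp h
  exact absurd (Nat.dvd_one.1 h) hp.one_lt.ne'

lemma Rough.mul {z m n : ℕ} (hm : Rough z m) (hn : Rough z n) : Rough z (m * n) := by
  intro p hp h
  rcases (Nat.Prime.dvd_mul hp).1 h with h1 | h1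
  · exact hm p hp h1
  · exact hn p hp h1

lemma rough_ap (q : ℕ) [NeZero q] (hq : 2 ≤ q) (I : ℕ) (hI : 1 ≤ I) (k : ℕ)
    (hk : (2 : ℝ) ^ (60 * 2 ^ I) < (k : ℝ) * (Real.exp (-8) ^ I / 2)) (g : (ZMod q)ˣ) :
    ∃ w : ℕ, 0 < w ∧ w ≤ q * (k + 1) ∧ (w : ZMod q) = (g : ZMod q) ∧ Rough (2 ^ 2 ^ I) w := by
  classical
  set S := (range (2 ^ 2 ^ I + 1)).filter (fun p => p.Prime ∧ ¬ p ∣ q) with hS
  have hSp : ∀ p ∈ S, p.Prime ∧ ¬ p ∣ q ∧ p ≤ 2 ^ 2 ^ I := by
    intro p hp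
    rw [hS, Finset.mem_filter, Finset.mem_range] at hp
    exact ⟨hp.2.1, hp.2.2, by omega⟩
  set c := (g : ZMod q).val with hc
  have hcq : c < q := ZMod.val_lt _
  have hccop : Nat.Coprime c q := ZMod.val_coe_unit_coprime g
  have hcop : Nat.Coprime q (∏ p ∈ S, p) := by
    apply Nat.Coprime.prod_right
    intro p hp
    exact ((Nat.Prime.coprime_iff_not_dvd (hSp p hp).1).2 (hSp p hp).2.1).symm
  obtain ⟨u, hu⟩ : ∃ u : ℕ, q * u ≡ c [MOD ∏ p ∈ S, p] := by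
    haveI : NeZero (∏ p ∈ S, p) := ⟨(Finset.prod_pos fun p hp => (hSp p hp).1.pos).ne'⟩
    refine ⟨(((ZMod.unitOfCoprime q hcop)⁻¹ : (ZMod (∏ p ∈ S, p))ˣ) * (c : ZMod (∏ p ∈ S, p)) :
      ZMod (∏ p ∈ S, p)).val, ?_⟩
    rw [← ZMod.natCast_eq_natCast_iff]
    push_cast
    rw [ZMod.natCast_zmod_val, ← mul_assoc]
    have h1 : ((q : ℕ) : ZMod (∏ p ∈ S, p)) = ((ZMod.unitOfCoprime q hcop : _) : ZMod (∏ p ∈ S, p)) :=
      (ZMod.coe_unitOfCoprime q hcop).symm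
    rw [h1, ← Units.val_mul, mul_inv_cancel, Units.val_one, one_mul]
  have hsieve := Pool.Agent.H446R2.sieve_lower S (fun p hp => (hSp p hp).1) I hI
    (fun p hp => (hSp p hp).2.2) u k
  have hpos : 0 < (((Ioc u (u + k)).filter (fun n => ∀ p ∈ S, ¬ p ∣ n)).card : ℝ) := by linarith
  have hpos' : 0 < ((Ioc u (u + k)).filter (fun n => ∀ p ∈ S, ¬ p ∣ n)).card := by
    exact_mod_cast hpos
  obtain ⟨n, hn⟩ := Finset.card_pos.1 hpos'
  rw [Finset.mem_filter, Finset.mem_Ioc] at hn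
  obtain ⟨⟨hn1, hn2⟩, hnS⟩ := hn
  obtain ⟨t, ht⟩ : ∃ t, n = u + t := ⟨n - u, by omega⟩
  have ht1 : 1 ≤ t := by omega
  have htk : t ≤ k := by omega
  refine ⟨c + q * t, by positivity, ?_, ?_, ?_⟩
  · have : q * t ≤ q * k := Nat.mul_le_mul_left _ htk
    rw [mul_add, mul_one]
    omega
  · push_cast
    rw [hc, ZMod.natCast_zmod_val]
    simp
  · intro p hp hpw
    by_contra hle
    push Not at hle
    by_cases hpq : p ∣ q
    · have h1 : p ∣ c := (Nat.dvd_add_left (hpq.mul_right t)).1 hpw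
      have h2 := Nat.dvd_gcd h1 hpq
      rw [hccop] at h2
      exact hp.one_lt.ne' (Nat.dvd_one.1 h2)
    · have hpS : p ∈ S := by
        rw [hS, Finset.mem_filter, Finset.mem_range]
        exact ⟨by omega, hp, hpq⟩
      have h1 : q * u ≡ c [MOD p] := hu.of_dvd (Finset.dvd_prod_of_mem _ hpS)
      have h2 : q * n ≡ c + q * t [MOD p] := by
        rw [ht, mul_add]
        exact h1.add_right _
      have h3 : p ∣ q * n := (h2.dvd_iff (dvd_refl p)).2 hpw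
      rcases (Nat.Prime.dvd_mul hp).1 h3 with h4 | h4
      · exact hpq h4
      · exact hnS p hpS h4

end Pool.Agent.H358R4
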