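import Pool.Agent.H358R4.CountDiv
import Pool.Agent.H358R4.RoughAP
import Pool.Agent.H20R2.EN.FLem

/-!
Small representatives without small prime factors of the cosets of a large subgroup.
-/

namespace Pool.Agent.H358R4

open Finset

lemma prod_Icc_one_sub (z : ℕ) (hz : 1 ≤ z) :
    ∏ n ∈ Icc 2 z, (1 - 1 / (n : ℝ)) = 1 / z := by
  induction z, hz using Nat.le_induction with
  | base => simp
  | succ n hn ih =>
    rw [← Finset.insert_Icc_right_eq_Icc_add_one (by omega), Finset.prod_insert (by simp), ih]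
    have : (0 : ℝ) < n := by exact_mod_cast hn
    push_cast
    field_simp
    ring

lemma prod_primes_ge (P : Finset ℕ) (z : ℕ) (hz : 1 ≤ z) (hP : ∀ p ∈ P, p.Prime ∧ p ≤ z) :
    1 / (z : ℝ) ≤ ∏ p ∈ P, (1 - 1 / (p : ℝ)) := by
  have hsub : P ⊆ Icc 2 z := by
    intro p hp
    rw [Finset.mem_Icc]
    exact ⟨(hP p hp).1.two_le, (hP p hp).2⟩
  rw [← prod_Icc_one_sub z hz, ← Finset.prod_sdiff hsub]
  have h0 : ∀ n ∈ Icc 2 z, 0 ≤ 1 - 1 / (n : ℝ) ∧ 1 - 1 / (n : ℝ) ≤ 1 := by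
    intro n hn
    have h1 : (2 : ℝ) ≤ n := by exact_mod_cast (Finset.mem_Icc.1 hn).1
    have h2 : 1 / (n : ℝ) ≤ 1 := by rw [div_le_one (by linarith)]; linarith
    have h3 : 0 ≤ 1 / (n : ℝ) := by positivity
    exact ⟨by linarith, by linarith⟩
  have h1 : ∏ n ∈ Icc 2 z \ P, (1 - 1 / (n : ℝ)) ≤ 1 := by
    apply Finset.prod_le_one
    · intro n hn; exact (h0 n (Finset.sdiff_subset hn)).1
    · intro n hn; exact (h0 n (Finset.sdiff_subset hn)).2
  have h2 : 0 ≤ ∏ p ∈ P, (1 - 1 / (p : ℝ)) :=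
    Finset.prod_nonneg fun p hp => (h0 p (hsub hp)).1
  nlinarith

lemma card_T (P : Finset ℕ) (hP : ∀ p ∈ P, p.Prime) (D : ℕ) :
    (P.powerset.filter (fun T : Finset ℕ => ∏ p ∈ T, p ≤ D)).card ≤ D := by
  calc (P.powerset.filter (fun T : Finset ℕ => ∏ p ∈ T, p ≤ D)).card ≤ (Icc 1 D).card := by
        apply Finset.card_le_card_of_injOn (fun T => ∏ p ∈ T, p)
        · intro T hT
          rw [Finset.mem_coe, Finset.mem_filter, Finset.mem_powerset] at hT
          rw [Finset.mem_coe, Finset.mem_Icc]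
          exact ⟨Finset.prod_pos fun p hp => (hP p (hT.1 hp)).pos, hT.2⟩
        · intro T hT S hS hTS
          rw [Finset.mem_coe, Finset.mem_filter, Finset.mem_powerset] at hT hS
          have h1 := congrArg Nat.primeFactors hTS
          rw [Nat.primeFactors_prod fun p hp => hP p (hT.1 hp),
            Nat.primeFactors_prod fun p hp => hP p (hS.1 hp)] at h1
          exact h1
    _ = D := by simp

theorem rough_coset : ∃ C0 : ℕ, 1 ≤ C0 ∧ ∀ (J Q : ℕ) [NeZero Q],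
    (∀ p : ℕ, p.Prime → p ≤ C0 → p ∣ Q) →
    ∀ (K : Finset (ZMod Q)ˣ), 0 < K.card → (∀ k ∈ K, ∀ k' ∈ K, k * k' ∈ K) →
    (∀ k ∈ K, k⁻¹ ∈ K) → ∀ (c : (ZMod Q)ˣ) (L : ℕ) (E : ℝ),
    (∀ d : ℕ, 0 < d → d ≤ (2 ^ 2 ^ J) ^ (C0 * C0) → Nat.Coprime Q d →
      ((Q * d).divisors.card : ℝ) * √(Q * d / d.totient) ≤ E) →
    ((J : ℝ) + 2) * ((((2 ^ 2 ^ J) ^ (C0 * C0) : ℕ) : ℝ) * (E * L)) <
      K.card * (L : ℝ) ^ 2 / Q * (1 / (2 * ((2 ^ 2 ^ J : ℕ) : ℝ))) →
    ∃ n : ℕ, n < 2 * L ∧ Rough (2 ^ 2 ^ J) n ∧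
      ∃ k ∈ K, (n : ZMod Q) = ((c * k : (ZMod Q)ˣ) : ZMod Q) := by
  classical
  obtain ⟨C0, hC0, hFL⟩ := Pool.Agent.H20R2.fLem 1
  refine ⟨C0, hC0, ?_⟩
  intro J Q _ hQ K hK0 hmul hinv c L E hE hcond
  have hQ0 : (0 : ℝ) < Q := by exact_mod_cast Nat.pos_of_ne_zero (NeZero.ne Q)
  set z : ℕ := 2 ^ 2 ^ J with hz
  have hz1 : 1 ≤ z := Nat.one_le_two_pow
  have hzR : (1 : ℝ) ≤ z := by exact_mod_cast hz1
  set P := (range (z + 1)).filter (fun p => p.Prime ∧ C0 < p ∧ ¬ p ∣ Q) with hP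
  have hPp : ∀ p ∈ P, p.Prime ∧ C0 < p ∧ p ≤ z ∧ ¬ p ∣ Q := by
    intro p hp
    rw [hP, Finset.mem_filter, Finset.mem_range] at hp
    exact ⟨hp.2.1, hp.2.2.1, by omega, hp.2.2.2⟩
  set A : ℝ := K.card * (L : ℝ) ^ 2 / Q with hA
  have hA0 : 0 ≤ A := by rw [hA]; positivity
  set w : ℕ → ℝ := fun n => ∑ i ∈ range L, ∑ j ∈ range L,
    (if i + j = n ∧ (n : ZMod Q) ∈ Cos K c then (1 : ℝ) else 0) with hw
  have hw0 : ∀ n, 0 ≤ w n := by
    intro n
    simp only [hw]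
    apply Finset.sum_nonneg; intro i _
    apply Finset.sum_nonneg; intro j _
    split_ifs <;> norm_num
  -- total mass with divisibility
  have hmass : ∀ T ⊆ P, ∑ m ∈ (range (2 * L)).filter (fun m => ∀ p ∈ T, p ∣ m), w m =
      ∑ i ∈ range L, ∑ j ∈ range L, (if ((i : ZMod Q) + (j : ZMod Q)) ∈ Cos K c ∧
        (∏ p ∈ T, p) ∣ i + j then (1 : ℝ) else 0) := by
    intro T hT
    simp only [hw]
    rw [Finset.sum_comm]
    refine Finset.sum_congr rfl fun i hi => ?_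
    rw [Finset.sum_comm]
    refine Finset.sum_congr rfl fun j hj => ?_
    have hi' := Finset.mem_range.1 hi
    have hj' := Finset.mem_range.1 hj
    have hdvd : (∀ p ∈ T, p ∣ i + j) ↔ (∏ p ∈ T, p) ∣ i + j := by
      constructor
      · intro h
        exact Finset.prod_primes_dvd _ (fun p hp => (hPp p (hT hp)).1.prime) h
      · intro h p hp
        exact (Finset.dvd_prod_of_mem _ hp).trans h
    rw [Finset.sum_filter]
    have h1 : ∀ m ∈ range (2 * L), (if ∀ p ∈ T, p ∣ m then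
        (if i + j = m ∧ (m : ZMod Q) ∈ Cos K c then (1 : ℝ) else 0) else 0) =
        if i + j = m then (if ((i : ZMod Q) + (j : ZMod Q)) ∈ Cos K c ∧
        (∏ p ∈ T, p) ∣ i + j then (1 : ℝ) else 0) else 0 := by
      intro m _
      by_cases hm : i + j = m
      · subst hm
        by_cases h2 : (∏ p ∈ T, p) ∣ i + j
        · have h3 := hdvd.2 h2
          by_cases h4 : (((i + j : ℕ)) : ZMod Q) ∈ Cos K c
          · have h5 : ((i : ZMod Q) + (j : ZMod Q)) ∈ Cos K c := by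
              push_cast at h4; exact h4
            rw [if_pos h3, if_pos ⟨rfl, h4⟩, if_pos rfl, if_pos ⟨h5, h2⟩]
          · have h5 : ¬ ((i : ZMod Q) + (j : ZMod Q)) ∈ Cos K c := by
              push_cast at h4; exact h4
            rw [if_pos h3, if_neg (fun h => h4 h.2), if_pos rfl, if_neg (fun h => h5 h.1)]
        · have h3 : ¬ ∀ p ∈ T, p ∣ i + j := fun h => h2 (hdvd.1 h)
          rw [if_neg h3, if_pos rfl, if_neg (fun h => h2 h.2)]
      · rw [if_neg hm]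
        split_ifs with h1 h2
        · exact absurd h2.1 hm
        · rfl
        · rfl
    rw [Finset.sum_congr rfl h1, Finset.sum_ite_eq, if_pos]
    rw [Finset.mem_range]; omega
  -- apply the fundamental lemma
  have hfl := hFL C0 J C0 P (fun p => 1 / (p : ℝ)) le_rfl le_rfl
    (fun p hp => ⟨(hPp p hp).1, (hPp p hp).2.1, (hPp p hp).2.2.1⟩)
    (fun p hp => by
      have h1 : (2 : ℝ) ≤ p := by exact_mod_cast (hPp p hp).1.two_le
      refine ⟨by positivity, ?_⟩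
      rw [Nat.cast_one]
      exact one_div_le_one_div_of_le (by linarith) (by linarith))
    (range (2 * L)) w (fun p m => p ∣ m) A (fun _ => E * L) (fun m _ => hw0 m) hA0
    (fun T hT hTD => by
      set d := ∏ p ∈ T, p with hd
      have hd0 : 0 < d := Finset.prod_pos fun p hp => (hPp p (hT hp)).1.pos
      haveI : NeZero d := ⟨hd0.ne'⟩
      have hcop : Nat.Coprime Q d := by
        apply Nat.Coprime.prod_right
        intro p hp
        exact ((Nat.Prime.coprime_iff_not_dvd (hPp p (hT hp)).1).2 (hPp p (hT hp)).2.2.2).symm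
      have h1 := count_div Q d hcop K hK0 hmul hinv c L
      have h2 : A * ∏ p ∈ T, (1 / (p : ℝ)) = K.card * (L : ℝ) ^ 2 / (Q * d) := by
        have h3 : ∏ p ∈ T, (1 / (p : ℝ)) = 1 / (d : ℝ) := by
          rw [hd, Finset.prod_div_distrib, Finset.prod_const_one]; push_cast; rfl
        rw [h3, hA]
        field_simp
      have h4 := hmass T hT
      rw [h2]
      have h5 : (∑ m ∈ (range (2 * L)).filter (fun m => ∀ p ∈ T, p ∣ m), w m) =
        ∑ i ∈ range L, ∑ j ∈ range L, (if ((i : ZMod Q) + (j : ZMod Q)) ∈ Cos K c ∧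
        d ∣ i + j then (1 : ℝ) else 0) := h4
      have h6 : |(∑ m ∈ (range (2 * L)).filter (fun m => ∀ p ∈ T, p ∣ m), w m) -
          K.card * (L : ℝ) ^ 2 / (Q * d)| ≤ E * L := by
        rw [h5]
        refine h1.trans ?_
        have h7 := hE d hd0 hTD hcop
        have hL0 : (0 : ℝ) ≤ L := by positivity
        calc ((Q * d).divisors.card : ℝ) * L * √(Q * d / d.totient) =
            (((Q * d).divisors.card : ℝ) * √(Q * d / d.totient)) * L := by ring
          _ ≤ E * L := mul_le_mul_of_nonneg_right h7 hL0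
      convert h6 using 3
      refine Finset.sum_congr ?_ (fun _ _ => rfl)
      ext x
      simp only [Finset.mem_filter])
  -- lower bound
  set V := ∏ p ∈ P, (1 - 1 / (p : ℝ)) with hV
  have hV1 : 1 / (z : ℝ) ≤ V := prod_primes_ge P z hz1 fun p hp => ⟨(hPp p hp).1, (hPp p hp).2.2.1⟩
  have hhalf : (1 / 2 : ℝ) ^ C0 ≤ 1 / 2 := by
    calc (1 / 2 : ℝ) ^ C0 ≤ (1 / 2 : ℝ) ^ 1 := pow_le_pow_of_le_one (by norm_num) (by norm_num) hC0
      _ = 1 / 2 := pow_one _
  have hE0 : 0 ≤ E := by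
    refine le_trans ?_ (hE 1 one_pos (Nat.one_le_pow _ _ hz1) (Nat.coprime_one_right Q))
    positivity
  have herr : ∑ T ∈ P.powerset.filter (fun T : Finset ℕ => ∏ p ∈ T, p ≤ z ^ (C0 * C0)),
      E * L ≤ (((z) ^ (C0 * C0) : ℕ) : ℝ) * (E * L) := by
    rw [Finset.sum_const, nsmul_eq_mul]
    apply mul_le_mul_of_nonneg_right _ (by positivity)
    exact_mod_cast card_T P (fun p hp => (hPp p hp).1) (z ^ (C0 * C0))
  have hlow := (abs_le.1 hfl).1
  have hAV : A * (1 / (z : ℝ)) ≤ A * V := mul_le_mul_of_nonneg_left hV1 hA0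
  have hAV0 : 0 ≤ A * V := le_trans (by positivity) hAV
  have hpos : 0 < ∑ m ∈ (range (2 * L)).filter (fun m => ∀ p ∈ P, ¬ p ∣ m), w m := by
    have h1 : (1 / 2 : ℝ) ^ C0 * (A * V) ≤ 1 / 2 * (A * V) :=
      mul_le_mul_of_nonneg_right hhalf hAV0
    have h2 : ((J : ℝ) + 2) * ∑ T ∈ P.powerset.filter
        (fun T : Finset ℕ => ∏ p ∈ T, p ≤ z ^ (C0 * C0)), E * L ≤
        ((J : ℝ) + 2) * ((((z) ^ (C0 * C0) : ℕ) : ℝ) * (E * L)) :=
      mul_le_mul_of_nonneg_left herr (by positivity)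
    have h3 : A * (1 / (2 * (z : ℝ))) = 1 / 2 * (A * (1 / (z : ℝ))) := by field_simp
    have h4 : -((1 / 2 : ℝ) ^ C0 * (A * V) + ((J : ℝ) + 2) * ∑ T ∈ P.powerset.filter
        (fun T : Finset ℕ => ∏ p ∈ T, p ≤ z ^ (C0 * C0)), E * L) ≤
        (∑ m ∈ (range (2 * L)).filter (fun m => ∀ p ∈ P, ¬ p ∣ m), w m) - A * V := by
      convert hlow using 2
      · rfl
      · refine Finset.sum_congr ?_ (fun _ _ => rfl)
        ext x
        simp only [Finset.mem_filter]
    rw [h3] at hcond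
    linarith
  obtain ⟨m, hm, hwm⟩ : ∃ m ∈ (range (2 * L)).filter (fun m => ∀ p ∈ P, ¬ p ∣ m), 0 < w m := by
    by_contra hno
    push Not at hno
    exact absurd hpos (not_lt.2 (Finset.sum_nonpos hno))
  rw [Finset.mem_filter, Finset.mem_range] at hm
  have hmC : (m : ZMod Q) ∈ Cos K c := by
    by_contra hmC
    have : w m = 0 := by
      simp only [hw]
      apply Finset.sum_eq_zero; intro i _
      apply Finset.sum_eq_zero; intro j _
      rw [if_neg (fun h => hmC h.2)]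
    linarith
  unfold Cos at hmC
  rw [Finset.mem_image] at hmC
  obtain ⟨k, hk, hkm⟩ := hmC
  refine ⟨m, hm.1, ?_, k, hk, hkm.symm⟩
  intro p hp hpm
  by_contra hle
  push Not at hle
  have hmQ : Nat.Coprime m Q := by
    rw [← ZMod.isUnit_iff_coprime, ← hkm]
    exact (c * k).isUnit
  have hpQ : ¬ p ∣ Q := by
    intro h
    have h2 := Nat.dvd_gcd hpm h
    rw [hmQ] at h2
    exact hp.one_lt.ne' (Nat.dvd_one.1 h2)
  have hpC : C0 < p := by
    by_contra h
    exact hpQ (hQ p hp (by omega))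
  have hpP : p ∈ P := by
    rw [hP, Finset.mem_filter, Finset.mem_range]
    exact ⟨by omega, hp, hpC, hpQ⟩
  exact hm.2 p hpP hpm

end Pool.Agent.H358R4
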