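import Pool.Agent.H358R4.Asym
import Pool.Agent.H358R4.RoughCoset

/-!
Asymptotics for the version with rough numbers.
-/

namespace Pool.Agent.H358R4

open Finset Filter

lemma exp_le_double (a : ℝ) (ha : 0 ≤ a) : ∃ C : ℝ, 1 ≤ C ∧ ∀ I : ℕ,
    Real.exp a ^ I ≤ C * ((2 ^ 2 ^ I : ℕ) : ℝ) := by
  obtain ⟨N, hN⟩ := exists_nat_gt (Real.exp a)
  have h1 : 1 ≤ Real.exp a := Real.one_le_exp ha
  have hz : ∀ I, N ≤ I → Real.exp a ≤ ((2 ^ 2 ^ I : ℕ) : ℝ) := by
    intro I hI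
    refine hN.le.trans ?_
    have : N ≤ 2 ^ 2 ^ I := by
      calc N ≤ I := hI
        _ ≤ 2 ^ I := Nat.lt_two_pow_self.le
        _ ≤ 2 ^ 2 ^ I := Nat.lt_two_pow_self.le
    exact_mod_cast this
  refine ⟨Real.exp a ^ N, one_le_pow₀ h1, ?_⟩
  intro I
  rcases Nat.lt_or_ge I N with h | h
  · calc Real.exp a ^ I ≤ Real.exp a ^ N := pow_le_pow_right₀ h1 h.le
      _ = Real.exp a ^ N * 1 := (mul_one _).symm
      _ ≤ Real.exp a ^ N * ((2 ^ 2 ^ I : ℕ) : ℝ) := by
          apply mul_le_mul_of_nonneg_left _ (by positivity)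
          exact_mod_cast Nat.one_le_two_pow
  · induction I, h using Nat.le_induction with
    | base =>
      calc Real.exp a ^ N = Real.exp a ^ N * 1 := (mul_one _).symm
        _ ≤ Real.exp a ^ N * ((2 ^ 2 ^ N : ℕ) : ℝ) := by
            apply mul_le_mul_of_nonneg_left _ (by positivity)
            exact_mod_cast Nat.one_le_two_pow
    | succ n hn ih =>
      have e : ((2 ^ 2 ^ (n + 1) : ℕ) : ℝ) = ((2 ^ 2 ^ n : ℕ) : ℝ) * ((2 ^ 2 ^ n : ℕ) : ℝ) := by
        rw [pow_succ 2 n, mul_two, pow_add]; push_cast; ring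
      rw [pow_succ, e]
      calc Real.exp a ^ n * Real.exp a ≤
          (Real.exp a ^ N * ((2 ^ 2 ^ n : ℕ) : ℝ)) * ((2 ^ 2 ^ n : ℕ) : ℝ) :=
            mul_le_mul ih (hz n hn) (by positivity) (by positivity)
        _ = _ := by ring

lemma choose_lower' (k : ℕ) (hk : 1 ≤ k) : ∀ᶠ q : ℕ in atTop, ∀ M : ℕ, M ^ k ≤ q →
    q < (M + 1) ^ k → ∀ z : ℕ, (z : ℝ) ≤ (q : ℝ) ^ (1 / (100 * (k : ℝ))) →
    (q : ℝ) ^ (1 - 1 / (16 * (k : ℝ))) ≤
      ((((range (M + 1)).filter Nat.Prime) \ (q.primeFactors ∪ range (z + 1))).card.choose k : ℝ) := by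
  have hkR : (1 : ℝ) ≤ k := by exact_mod_cast hk
  set s : ℝ := 1 / k with hs
  have hs0 : 0 < s := by positivity
  have hs1 : s ≤ 1 := by rw [hs, div_le_one (by linarith)]; exact hkR
  set σ : ℝ := s * (1 - s / 16) with hσ
  set η : ℝ := s ^ 2 / 64 with hη
  have hη0 : 0 < η := by positivity
  have hσ0 : 0 < σ := by rw [hσ]; apply mul_pos hs0; linarith
  have hησ : η ≤ σ := by rw [hη, hσ]; nlinarith
  have hgap : 0 < s - η - σ := by rw [hη, hσ]; nlinarith [mul_pos hs0 hs0]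
  obtain ⟨M1, hM1⟩ := eventually_atTop.1 pi_lower
  filter_upwards [(tendsto_nat_rpow hs0).eventually (eventually_ge_atTop ((M1 : ℝ) + 3)),
    log_le_rpow hη0,
    (tendsto_nat_rpow hgap).eventually
      (eventually_ge_atTop (4 * ((k.factorial : ℝ) + k + 4))),
    eventually_ge_atTop 3] with q hqM hlog hbig hq3 M hMk hMk1 z hz
  have hq3' : (3 : ℝ) ≤ q := by exact_mod_cast hq3
  have hq0 : (0 : ℝ) < q := by linarith
  have hx0 : (0 : ℝ) < (q : ℝ) ^ s := by positivity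
  have hMup : (M : ℝ) ≤ (q : ℝ) ^ s := by
    have h1 : ((M : ℝ)) ^ k ≤ q := by exact_mod_cast hMk
    have h2 := Real.rpow_le_rpow (by positivity) h1 hs0.le
    rw [hs, one_div, Real.pow_rpow_inv_natCast (by positivity) (by omega)] at h2
    rw [hs, one_div]
    exact h2
  have hMlow : (q : ℝ) ^ s < (M : ℝ) + 1 := by
    have h1 : (q : ℝ) < ((M : ℝ) + 1) ^ k := by exact_mod_cast hMk1
    have h2 := Real.rpow_lt_rpow hq0.le h1 hs0
    rw [hs, one_div, Real.pow_rpow_inv_natCast (by positivity) (by omega)] at h2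
    rw [hs, one_div]
    exact h2
  have hMM1 : M1 ≤ M := by
    have : (M1 : ℝ) ≤ M := by linarith
    exact_mod_cast this
  have hM2 : (2 : ℝ) ≤ M := by
    have : (0 : ℝ) ≤ M1 := by positivity
    linarith
  have hlogM : 0 < Real.log M := Real.log_pos (by linarith)
  have hlogq : 0 < Real.log q := Real.log_pos (by linarith)
  have hlogMq : Real.log M ≤ Real.log q := by
    have h1 := Real.log_le_log (by linarith) hMup
    rw [Real.log_rpow hq0] at h1
    nlinarith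
  have hpi := hM1 M hMM1
  have hpi2 : (q : ℝ) ^ (s - η) / 4 ≤ (Nat.primeCounting M : ℝ) := by
    refine le_trans ?_ hpi
    have h1 : (q : ℝ) ^ s / 2 ≤ M := by linarith
    have hqη : (0 : ℝ) < (q : ℝ) ^ η := by positivity
    have h2 : (q : ℝ) ^ (s - η) * (q : ℝ) ^ η = (q : ℝ) ^ s := by
      rw [← Real.rpow_add hq0]; congr 1; ring
    have h0 : (0 : ℝ) < (q : ℝ) ^ (s - η) := by positivity
    rw [le_div_iff₀ (by positivity)]
    have h3 : Real.log M ≤ (q : ℝ) ^ η := hlogMq.trans hlog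
    calc (q : ℝ) ^ (s - η) / 4 * (2 * Real.log M) = (q : ℝ) ^ (s - η) * Real.log M / 2 := by ring
      _ ≤ (q : ℝ) ^ (s - η) * (q : ℝ) ^ η / 2 := by gcongr
      _ = (q : ℝ) ^ s / 2 := by rw [h2]
      _ ≤ M := h1
  set n := (((range (M + 1)).filter Nat.Prime) \ (q.primeFactors ∪ range (z + 1))).card with hn
  have hcard : ((range (M + 1)).filter Nat.Prime).card = Nat.primeCounting M := by
    rw [Nat.primeCounting, Nat.primeCounting', Nat.count_eq_card_filter_range]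
  have hn1 : (Nat.primeCounting M : ℝ) ≤ n + (q.primeFactors.card + (z + 1)) := by
    have h1 := Finset.card_le_card_sdiff_add_card (s := ((range (M + 1)).filter Nat.Prime))
      (t := q.primeFactors ∪ range (z + 1))
    have h2 := Finset.card_union_le q.primeFactors (range (z + 1))
    rw [hcard, ← hn] at h1
    rw [card_range] at h2
    have h3 : Nat.primeCounting M ≤ n + (q.primeFactors.card + (z + 1)) := by omega
    exact_mod_cast h3
  have homega := omega_le q (by omega)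
  have hqη1 : (q : ℝ) ^ η ≤ (q : ℝ) ^ σ := Real.rpow_le_rpow_of_exponent_le (by linarith) hησ
  have hqσ1 : (1 : ℝ) ≤ (q : ℝ) ^ σ := Real.one_le_rpow (by linarith) hσ0.le
  have hzσ : (z : ℝ) ≤ (q : ℝ) ^ σ := by
    refine hz.trans (Real.rpow_le_rpow_of_exponent_le (by linarith) ?_)
    have h1 : 1 / (100 * (k : ℝ)) = s / 100 := by rw [hs]; field_simp
    rw [h1, hσ]; nlinarith
  have hkey : (k.factorial : ℝ) * (q : ℝ) ^ σ + k ≤ n := by
    have h1 : (q : ℝ) ^ (s - η) = (q : ℝ) ^ (s - η - σ) * (q : ℝ) ^ σ := by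
      rw [← Real.rpow_add hq0]; congr 1; ring
    have h2 : 4 * ((k.factorial : ℝ) + k + 4) * (q : ℝ) ^ σ ≤ (q : ℝ) ^ (s - η) := by
      rw [h1]
      exact mul_le_mul_of_nonneg_right hbig (by positivity)
    have h3 : (k : ℝ) ≤ k * (q : ℝ) ^ σ := le_mul_of_one_le_right (by positivity) hqσ1
    nlinarith
  have hkey2 : (k.factorial : ℝ) * (q : ℝ) ^ σ ≤ ((n + 1 - k : ℕ) : ℝ) := by
    have h1 : ((n : ℝ) - k) ≤ ((n + 1 - k : ℕ) : ℝ) := by
      have h2 : n ≤ (n + 1 - k) + k := by omega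
      have h3 : (n : ℝ) ≤ ((n + 1 - k : ℕ) : ℝ) + k := by exact_mod_cast h2
      linarith
    linarith
  have hfact : (1 : ℝ) ≤ k.factorial := by exact_mod_cast Nat.one_le_iff_ne_zero.2 (Nat.factorial_ne_zero k)
  have hch := Nat.pow_le_choose (α := ℝ) k n
  refine le_trans ?_ hch
  have h4 : ((k.factorial : ℝ) * (q : ℝ) ^ σ) ^ k ≤ ((n + 1 - k : ℕ) : ℝ) ^ k :=
    pow_le_pow_left₀ (by positivity) hkey2 k
  have h5 : ((q : ℝ) ^ σ) ^ k = (q : ℝ) ^ (1 - 1 / (16 * (k : ℝ))) := by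
    rw [← Real.rpow_natCast, ← Real.rpow_mul hq0.le]
    congr 1
    rw [hσ, hs]
    field_simp
  rw [le_div_iff₀ (by positivity), ← h5]
  refine le_trans ?_ h4
  rw [mul_pow, mul_comm]
  apply mul_le_mul_of_nonneg_right _ (by positivity)
  calc (k.factorial : ℝ) = (k.factorial : ℝ) ^ 1 := (pow_one _).symm
    _ ≤ (k.factorial : ℝ) ^ k := pow_le_pow_right₀ hfact hk

/-- uniform divisor bound -/
lemma tau_le_uniform {t : ℝ} (ht : 0 < t) : ∀ᶠ q : ℕ in atTop, ∀ n : ℕ, 0 < n →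
    (n : ℝ) ≤ (q : ℝ) ^ (3 : ℝ) → (n.divisors.card : ℝ) ≤ (q : ℝ) ^ t := by
  obtain ⟨K, hK⟩ := exists_nat_gt (4 / t)
  have hK0 : (0 : ℝ) < K := lt_trans (by positivity) hK
  have hK0' : 0 < K := by exact_mod_cast hK0
  set C : ℕ := (K ^ K * 2) ^ (2 ^ K) with hC
  filter_upwards [(tendsto_nat_rpow (t := 1) one_pos).eventually (eventually_ge_atTop (C : ℝ)),
    eventually_ge_atTop 1] with q hq hq1 n hn0 hn
  have hq1' : (1 : ℝ) ≤ q := by exact_mod_cast hq1
  rw [Real.rpow_one] at hq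
  have h1 := Pool.Agent.H358R2.card_divisors_pow_le K hK0' n (by omega)
  rw [← hC] at h1
  have h2 : ((n.divisors.card : ℝ)) ^ K ≤ C * n := by exact_mod_cast h1
  have h3 : ((n.divisors.card : ℝ)) ^ K ≤ ((q : ℝ) ^ t) ^ K := by
    refine h2.trans ?_
    rw [← Real.rpow_natCast, ← Real.rpow_mul (by positivity)]
    have h4 : (4 : ℝ) ≤ t * K := by
      rw [div_lt_iff₀ ht] at hK
      linarith
    calc (C : ℝ) * n ≤ q * (q : ℝ) ^ (3 : ℝ) := mul_le_mul hq hn (by positivity) (by positivity)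
      _ = (q : ℝ) ^ (4 : ℝ) := by
          rw [← Real.rpow_one_add' (by positivity) (by norm_num)]; norm_num
      _ ≤ (q : ℝ) ^ (t * K) := Real.rpow_le_rpow_of_exponent_le hq1' h4
  exact le_of_pow_le_pow_left₀ hK0'.ne' (by positivity) h3

end Pool.Agent.H358R4
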