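import Pool.Agent.H358R4.Final
import Pool.Agent.H358R4.RoughAsym
import Pool.Agent.H505R3.SieveG

/-!
A prime which is not too small and on which a real character is `1`.
-/

namespace Pool.Agent.H358R4

open Finset Filter NumberTheorySymbols

/-- the roots of `x ^ 2 = D` modulo `p` -/
def rts (D : ℤ) (p : ℕ) : Finset ℕ := (range p).filter (fun r => ((r : ZMod p)) ^ 2 = (D : ZMod p))

lemma card_rts (D : ℤ) (p : ℕ) (hp : p.Prime) : (rts D p).card ≤ 2 := by
  classical
  haveI : Fact p.Prime := ⟨hp⟩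
  have h1 : (rts D p).card ≤ ((Polynomial.X ^ 2 - Polynomial.C (D : ZMod p)).roots.toFinset).card := by
    apply Finset.card_le_card_of_injOn (fun r : ℕ => (r : ZMod p))
    · intro r hr
      rw [Finset.mem_coe, rts, Finset.mem_filter] at hr
      rw [Finset.mem_coe, Multiset.mem_toFinset, Polynomial.mem_roots
        (Polynomial.X_pow_sub_C_ne_zero (by norm_num) _)]
      simp [Polynomial.IsRoot, hr.2]
    · intro r hr r' hr' hrr
      rw [Finset.mem_coe, rts, Finset.mem_filter, Finset.mem_range] at hr hr'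
      simp only at hrr
      rw [ZMod.natCast_eq_natCast_iff', Nat.mod_eq_of_lt hr.1, Nat.mod_eq_of_lt hr'.1] at hrr
      exact hrr
  refine h1.trans ((Multiset.toFinset_card_le _).trans ?_)
  refine (Polynomial.card_roots' _).trans ?_
  rw [Polynomial.natDegree_X_pow_sub_C]

lemma card_rts_two (D : ℤ) : (rts D 2).card ≤ 1 := by
  have hsq : ∀ x : ZMod 2, x ^ 2 = x := by decide
  rw [Finset.card_le_one]
  intro r hr r' hr'
  rw [rts, Finset.mem_filter, Finset.mem_range] at hr hr'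
  have h1 : ((r : ℕ) : ZMod 2) = ((r' : ℕ) : ZMod 2) := by
    rw [← hsq (r : ZMod 2), ← hsq (r' : ZMod 2), hr.2, hr'.2]
  rw [ZMod.natCast_eq_natCast_iff', Nat.mod_eq_of_lt hr.1, Nat.mod_eq_of_lt hr'.1] at h1
  exact h1

open Classical in
/-- many `x` for which `x ^ 2 - D` has no small prime factor -/
lemma rough_values (D : ℤ) (I : ℕ) (hI : 1 ≤ I) (k : ℕ) :
    (k : ℝ) * (Real.exp (-32) ^ I / 2) - (2 : ℝ) ^ (452 * 2 ^ I) ≤
      (((Ioc 0 k).filter (fun x : ℕ => ∀ p : ℕ, p.Prime → p ≤ 2 ^ 2 ^ I →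
        ¬ (p : ℤ) ∣ (x : ℤ) ^ 2 - D)).card : ℝ) := by
  set S := (range (2 ^ 2 ^ I + 1)).filter Nat.Prime with hS
  have hSp : ∀ p ∈ S, p.Prime ∧ p ≤ 2 ^ 2 ^ I := by
    intro p hp
    rw [hS, Finset.mem_filter, Finset.mem_range] at hp
    exact ⟨hp.2, by omega⟩
  have h1 := Pool.Agent.H505R3.sieve_lowerG (Ω := rts D) 1 (by norm_num) S
    (fun p hp => (hSp p hp).1)
    (fun p hp => by
      rcases Nat.lt_or_ge p 3 with h | h
      · have h2 : p = 2 := by have := (hSp p hp).1.two_le; omega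
        rw [h2]
        have := card_rts_two D
        omega
      · have := card_rts D p (hSp p hp).1
        omega)
    (fun p _ => Finset.filter_subset _ _)
    (fun p hp => by have := card_rts D p (hSp p hp).1; omega) I hI
    (fun p hp => (hSp p hp).2) k
  have e1 : Real.exp (-(32 * ((1 : ℕ) : ℝ))) = Real.exp (-32) := by norm_num
  have e2 : (420 * 1 + 32) * 2 ^ I = 452 * 2 ^ I := by norm_num
  rw [e1, e2] at h1
  refine h1.trans ?_
  have hsub : (Ioc 0 k).filter (fun n => ∀ p ∈ S, n % p ∉ rts D p) ⊆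
      (Ioc 0 k).filter (fun x : ℕ => ∀ p : ℕ, p.Prime → p ≤ 2 ^ 2 ^ I →
        ¬ (p : ℤ) ∣ (x : ℤ) ^ 2 - D) := by
    intro x hx
    rw [Finset.mem_filter] at hx ⊢
    refine ⟨hx.1, fun p hp hpz hdvd => ?_⟩
    have hpS : p ∈ S := by
      rw [hS, Finset.mem_filter, Finset.mem_range]; exact ⟨by omega, hp⟩
    apply hx.2 p hpS
    rw [rts, Finset.mem_filter, Finset.mem_range]
    refine ⟨Nat.mod_lt _ hp.pos, ?_⟩
    have h2 : (((x : ℤ) ^ 2 - D : ℤ) : ZMod p) = 0 := by
      rw [ZMod.intCast_zmod_eq_zero_iff_dvd]; exact hdvd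
    push_cast at h2
    rw [ZMod.natCast_mod]
    linear_combination h2
  exact_mod_cast Finset.card_le_card hsub

/-- a prime in `(z, 3 q]` on which a real character is `1` -/
theorem least_pos_rough : ∀ᶠ q : ℕ in atTop, ∀ I : ℕ, 1 ≤ I →
    ((2 ^ 2 ^ I : ℕ) : ℝ) ≤ (q : ℝ) ^ (1 / 3200 : ℝ) → ∀ χ : (ZMod q)ˣ →* ℤˣ,
    ∃ l : ℕ, l.Prime ∧ 2 ^ 2 ^ I < l ∧ l ≤ 3 * q ∧
      ∃ h : Nat.Coprime l q, χ (ZMod.unitOfCoprime l h) = 1 := by
  classical
  obtain ⟨C, hC1, hC⟩ := exp_le_double 32 (by norm_num)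
  filter_upwards [count_small, eventually_ge_atTop 81,
    (tendsto_nat_rpow (t := 1 / 8) (by norm_num)).eventually (eventually_ge_atTop (16 * C))]
    with q hcount hq81 hbig I hI hIz χ
  by_contra hno
  push Not at hno
  have hq0 : 0 < q := by omega
  obtain ⟨D, hD, hDχ⟩ := real_char q hq0 χ
  set P := q.primeFactors.erase 2 with hP
  have hprodpos : 0 < ∏ p ∈ P, p := Finset.prod_pos fun p hp =>
    (Nat.prime_of_mem_primeFactors (Finset.mem_of_mem_erase hp)).pos
  have hDabs : D.natAbs ≤ 2 * q := by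
    have h1 : D.natAbs ∣ 2 * ∏ p ∈ P, p := by
      have h2 := Int.natAbs_dvd_natAbs.2 hD
      rw [Int.natAbs_mul] at h2
      have h3 : (∏ p ∈ P, (p : ℤ)).natAbs = ∏ p ∈ P, p := by
        rw [← Nat.cast_prod, Int.natAbs_natCast]
      rw [h3] at h2
      exact h2
    have h2 := Nat.le_of_dvd (by positivity) h1
    have h3 := prod_erase_le q hq0
    rw [← hP] at h3
    omega
  have hDp : ∀ p : ℕ, p.Prime → p ≠ 2 → ¬ p ∣ q → ¬ (p : ℤ) ∣ D := by
    intro p hp hp2 hpq hpD
    have h1 := hpD.trans hD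
    have hpp : Prime (p : ℤ) := Nat.prime_iff_prime_int.1 hp
    rcases hpp.dvd_or_dvd h1 with h2 | h2
    · have h3 : (p : ℤ) ∣ 2 := by
        have := (dvd_neg).2 h2
        simpa using this
      have h4 : p ∣ 2 := by exact_mod_cast h3
      exact hp2 ((Nat.prime_dvd_prime_iff_eq hp Nat.prime_two).1 h4)
    · rw [hpp.dvd_finsetProd_iff] at h2
      obtain ⟨r, hr, hpr⟩ := h2
      have h3 : p ∣ r := by exact_mod_cast hpr
      rw [hP, Finset.mem_erase, Nat.mem_primeFactors] at hr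
      rw [(Nat.prime_dvd_prime_iff_eq hp hr.2.1).1 h3] at hpq
      exact hpq hr.2.2.1
  set T := (Icc 1 (3 * q)).filter (fun e => e.primeFactors ⊆ insert 2 q.primeFactors) with hT
  set T' : Finset ℤ := insert 0 (T.image (fun n : ℕ => (n : ℤ)) ∪ T.image (fun n : ℕ => -(n : ℤ)))
    with hT'
  have hT'card : T'.card ≤ 2 * T.card + 1 := by
    calc T'.card ≤ (T.image (fun n : ℕ => (n : ℤ)) ∪ T.image (fun n : ℕ => -(n : ℤ))).card + 1 :=
          Finset.card_insert_le _ _
      _ ≤ (T.image (fun n : ℕ => (n : ℤ))).card + (T.image (fun n : ℕ => -(n : ℤ))).card + 1 := by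
          have := Finset.card_union_le (T.image (fun n : ℕ => (n : ℤ)))
            (T.image (fun n : ℕ => -(n : ℤ)))
          omega
      _ ≤ T.card + T.card + 1 := by
          have h1 := Finset.card_image_le (s := T) (f := fun n : ℕ => (n : ℤ))
          have h2 := Finset.card_image_le (s := T) (f := fun n : ℕ => -(n : ℤ))
          omega
      _ = 2 * T.card + 1 := by ring
  set G := (Ioc 0 (Nat.sqrt q)).filter (fun x : ℕ => ∀ p : ℕ, p.Prime → p ≤ 2 ^ 2 ^ I →
        ¬ (p : ℤ) ∣ (x : ℤ) ^ 2 - D) with hG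
  have hinj : G.card ≤ T'.card := by
    apply Finset.card_le_card_of_injOn (fun x : ℕ => (x : ℤ) ^ 2 - D)
    · intro x hx
      rw [Finset.mem_coe, hG, Finset.mem_filter, Finset.mem_Ioc] at hx
      rw [Finset.mem_coe]
      obtain ⟨hx, hxz⟩ := hx
      have hx2 : x ^ 2 ≤ q := by
        calc x ^ 2 ≤ (Nat.sqrt q) ^ 2 := Nat.pow_le_pow_left hx.2 2
          _ ≤ q := Nat.sqrt_le' q
      set n := ((x : ℤ) ^ 2 - D).natAbs with hn
      rcases Nat.eq_zero_or_pos n with hn0 | hn0
      · rw [hT', Finset.mem_insert]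
        left
        exact Int.natAbs_eq_zero.1 hn0
      · have hn3 : n ≤ 3 * q := by
          have h1 : ((x : ℤ) ^ 2 - D).natAbs ≤ ((x : ℤ) ^ 2).natAbs + D.natAbs :=
            Int.natAbs_sub_le _ _
          have h2 : ((x : ℤ) ^ 2).natAbs = x ^ 2 := by
            rw [Int.natAbs_pow, Int.natAbs_natCast]
          omega
        have hnT : n ∈ T := by
          rw [hT, Finset.mem_filter, Finset.mem_Icc]
          refine ⟨⟨hn0, hn3⟩, fun p hp => ?_⟩
          rw [Nat.mem_primeFactors] at hp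
          obtain ⟨hpp, hpn, -⟩ := hp
          rw [Finset.mem_insert, Nat.mem_primeFactors]
          by_cases hp2 : p = 2
          · exact Or.inl hp2
          · right
            refine ⟨hpp, ?_, hq0.ne'⟩
            by_contra hpq
            haveI : Fact p.Prime := ⟨hpp⟩
            have hcop : Nat.Coprime p q := (Nat.Prime.coprime_iff_not_dvd hpp).2 hpq
            have hpodd : p % 2 = 1 := hpp.eq_two_or_odd.resolve_left hp2
            have h3 : (p : ℤ) ∣ (x : ℤ) ^ 2 - D := by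
              rw [← Int.natCast_dvd] at hpn
              exact hpn
            have hzp : 2 ^ 2 ^ I < p := by
              by_contra h
              exact hxz p hpp (by omega) h3
            apply hno p hpp hzp ((Nat.le_of_dvd hn0 hpn).trans hn3) hcop
            have h1 := hDχ p hcop hpodd
            have h2 : J(D | p) = 1 := by
              rw [← jacobiSym.legendreSym.to_jacobiSym]
              have hD0 : (D : ZMod p) ≠ 0 := by
                rw [Ne, ZMod.intCast_zmod_eq_zero_iff_dvd]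
                exact hDp p hpp hp2 hpq
              rw [legendreSym.eq_one_iff p hD0]
              refine ⟨(x : ZMod p), ?_⟩
              have h4 : (((x : ℤ) ^ 2 - D : ℤ) : ZMod p) = 0 := by
                rw [ZMod.intCast_zmod_eq_zero_iff_dvd]; exact h3
              push_cast at h4
              linear_combination -h4
            rw [h2] at h1
            exact Units.ext h1
        rw [hT', Finset.mem_insert, Finset.mem_union, Finset.mem_image, Finset.mem_image]
        right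
        rcases Int.natAbs_eq ((x : ℤ) ^ 2 - D) with h1 | h1
        · left; exact ⟨n, hnT, h1.symm⟩
        · right; exact ⟨n, hnT, h1.symm⟩
    · intro x hx y hy hxy
      simp only at hxy
      have h1 : (x : ℤ) ^ 2 = (y : ℤ) ^ 2 := by linarith
      have h2 : x ^ 2 = y ^ 2 := by exact_mod_cast h1
      exact Nat.pow_left_injective (by norm_num : (2 : ℕ) ≠ 0) h2
  have h1 : (G.card : ℝ) ≤ 2 * (q : ℝ) ^ (1 / 4 : ℝ) + 1 := by
    have h2 : (G.card : ℝ) ≤ 2 * T.card + 1 := by exact_mod_cast hinj.trans hT'card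
    linarith
  have h2 := rough_values D I hI (Nat.sqrt q)
  rw [← hG] at h2
  -- lower bound
  have hqR : (81 : ℝ) ≤ q := by exact_mod_cast hq81
  have hqpos : (0 : ℝ) < q := by linarith
  set u : ℝ := (q : ℝ) ^ (1 / 8 : ℝ) with hu
  have hu4 : u ^ 4 = √q := by
    rw [hu, ← Real.rpow_natCast, ← Real.rpow_mul hqpos.le, Real.sqrt_eq_rpow]
    norm_num
  have hu2 : (q : ℝ) ^ (1 / 4 : ℝ) = u ^ 2 := by
    rw [hu, ← Real.rpow_natCast, ← Real.rpow_mul hqpos.le]
    norm_num
  have hu0 : 0 ≤ u := by positivity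
  have hu16 : 16 ≤ u := by linarith
  have hzu : ((2 ^ 2 ^ I : ℕ) : ℝ) ≤ u := by
    refine hIz.trans (Real.rpow_le_rpow_of_exponent_le (by linarith) (by norm_num))
  have hz452 : (2 : ℝ) ^ (452 * 2 ^ I) ≤ u ^ 2 := by
    have e1 : (2 : ℝ) ^ (452 * 2 ^ I) = (((2 ^ 2 ^ I : ℕ) : ℝ)) ^ 452 := by
      push_cast; rw [← pow_mul]; congr 1; ring
    rw [e1, ← hu2]
    calc (((2 ^ 2 ^ I : ℕ) : ℝ)) ^ 452 ≤ ((q : ℝ) ^ (1 / 3200 : ℝ)) ^ 452 :=
          pow_le_pow_left₀ (by positivity) hIz _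
      _ = (q : ℝ) ^ ((1 / 3200 : ℝ) * ((452 : ℕ) : ℝ)) := by
          rw [← Real.rpow_natCast, ← Real.rpow_mul hqpos.le]
      _ ≤ (q : ℝ) ^ (1 / 4 : ℝ) :=
          Real.rpow_le_rpow_of_exponent_le (by linarith) (by norm_num)
  have hexp : 1 / (C * u) ≤ Real.exp (-32) ^ I := by
    have e1 : Real.exp (-32) ^ I = 1 / (Real.exp 32 ^ I) := by
      rw [Real.exp_neg, inv_pow, one_div]
    rw [e1]
    apply one_div_le_one_div_of_le (by positivity)
    exact (hC I).trans (mul_le_mul_of_nonneg_left hzu (by linarith))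
  have hsqrt : √(q : ℝ) - 1 ≤ ((Nat.sqrt q : ℕ) : ℝ) := by
    have h3 : (q : ℝ) < ((Nat.sqrt q : ℕ) + 1 : ℝ) ^ 2 := by
      have := Nat.lt_succ_sqrt' q
      exact_mod_cast this
    have h4 : √(q : ℝ) ≤ (Nat.sqrt q : ℕ) + 1 := by
      rw [Real.sqrt_le_left (by positivity)]; exact h3.le
    linarith
  have hlow : u ^ 4 / (4 * (C * u)) ≤ ((Nat.sqrt q : ℕ) : ℝ) * (Real.exp (-32) ^ I / 2) := by
    have h3 : u ^ 4 / 2 ≤ ((Nat.sqrt q : ℕ) : ℝ) := by
      rw [← hu4] at hsqrt
      have : (2 : ℝ) ≤ u ^ 4 := by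
        calc (2 : ℝ) ≤ 16 ^ 4 := by norm_num
          _ ≤ u ^ 4 := pow_le_pow_left₀ (by norm_num) hu16 4
      linarith
    calc u ^ 4 / (4 * (C * u)) = (u ^ 4 / 2) * ((1 / (C * u)) / 2) := by
          have : C * u ≠ 0 := by positivity
          field_simp
          ring
      _ ≤ ((Nat.sqrt q : ℕ) : ℝ) * (Real.exp (-32) ^ I / 2) := by
          apply mul_le_mul h3 _ (by positivity) (by positivity)
          linarith
  have hlow2 : 4 * u ^ 2 ≤ u ^ 4 / (4 * (C * u)) := by
    rw [le_div_iff₀ (by positivity)]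
    have h5 : 16 * C * u ≤ u * u := mul_le_mul_of_nonneg_right hbig hu0
    nlinarith [sq_nonneg u]
  rw [hu2] at h1
  nlinarith

end Pool.Agent.H358R4
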