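import Pool.Agent.H358R4.RoughAsym

/-!
Small rough representatives of the cosets of a large subgroup.
-/

namespace Pool.Agent.H358R4

open Finset Filter

lemma lift_coset {C0 B : ℕ} (hB0 : 0 < B) (hB : ∀ p : ℕ, p.Prime → p ≤ C0 → p ∣ B)
    (hRC : ∀ (J Q : ℕ) [NeZero Q],
    (∀ p : ℕ, p.Prime → p ≤ C0 → p ∣ Q) →
    ∀ (K : Finset (ZMod Q)ˣ), 0 < K.card → (∀ k ∈ K, ∀ k' ∈ K, k * k' ∈ K) →
    (∀ k ∈ K, k⁻¹ ∈ K) → ∀ (c : (ZMod Q)ˣ) (L : ℕ) (E : ℝ),
    (∀ d : ℕ, 0 < d → d ≤ (2 ^ 2 ^ J) ^ (C0 * C0) → Nat.Coprime Q d →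
      ((Q * d).divisors.card : ℝ) * √(Q * d / d.totient) ≤ E) →
    ((J : ℝ) + 2) * ((((2 ^ 2 ^ J) ^ (C0 * C0) : ℕ) : ℝ) * (E * L)) <
      K.card * (L : ℝ) ^ 2 / Q * (1 / (2 * ((2 ^ 2 ^ J : ℕ) : ℝ))) →
    ∃ n : ℕ, n < 2 * L ∧ Rough (2 ^ 2 ^ J) n ∧
      ∃ k ∈ K, (n : ZMod Q) = ((c * k : (ZMod Q)ˣ) : ZMod Q))
    (J q : ℕ) [NeZero q] (K : Finset (ZMod q)ˣ) (hK0 : 0 < K.card)
    (hmul : ∀ k ∈ K, ∀ k' ∈ K, k * k' ∈ K) (hinv : ∀ k ∈ K, k⁻¹ ∈ K) (c : (ZMod q)ˣ) (L : ℕ)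
    (E : ℝ)
    (hE : ∀ d : ℕ, 0 < d → d ≤ (2 ^ 2 ^ J) ^ (C0 * C0) →
      (((q * B) * d).divisors.card : ℝ) * √(((q * B : ℕ) : ℝ) * d / d.totient) ≤ E)
    (hcond : ((J : ℝ) + 2) * ((((2 ^ 2 ^ J) ^ (C0 * C0) : ℕ) : ℝ) * (E * L)) <
      K.card * (L : ℝ) ^ 2 / ((q * B : ℕ) : ℝ) * (1 / (2 * ((2 ^ 2 ^ J : ℕ) : ℝ)))) :
    ∃ n : ℕ, n < 2 * L ∧ Rough (2 ^ 2 ^ J) n ∧
      ∃ k ∈ K, (n : ZMod q) = ((c * k : (ZMod q)ˣ) : ZMod q) := by
  classical
  haveI : NeZero (q * B) := ⟨mul_ne_zero (NeZero.ne q) hB0.ne'⟩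
  have hdvd : q ∣ q * B := Dvd.intro _ rfl
  set π := ZMod.unitsMap hdvd with hπ
  have hsurj : Function.Surjective π := ZMod.unitsMap_surjective hdvd
  set K' : Finset (ZMod (q * B))ˣ := univ.filter (fun u => π u ∈ K) with hK'
  have hK'mem : ∀ u, u ∈ K' ↔ π u ∈ K := by intro u; rw [hK']; simp
  have hcard : K.card ≤ K'.card := by
    have h1 : K ⊆ K'.image π := by
      intro k hk
      obtain ⟨u, hu⟩ := hsurj k
      rw [Finset.mem_image]
      exact ⟨u, (hK'mem u).2 (by rw [hu]; exact hk), hu⟩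
    exact (Finset.card_le_card h1).trans Finset.card_image_le
  obtain ⟨c', hc'⟩ := hsurj c
  obtain ⟨n, hn, hr, k, hk, hnk⟩ := hRC J (q * B) (fun p hp hpC => (hB p hp hpC).mul_left q) K'
    (lt_of_lt_of_le hK0 hcard)
    (fun k hk k' hk' => by
      rw [hK'mem] at *; rw [map_mul]; exact hmul _ hk _ hk')
    (fun k hk => by
      rw [hK'mem] at *; rw [map_inv]; exact hinv _ hk) c' L E
    (fun d hd0 hdD _ => hE d hd0 hdD)
    (by
      refine lt_of_lt_of_le hcond ?_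
      apply mul_le_mul_of_nonneg_right _ (by positivity)
      apply div_le_div_of_nonneg_right _ (by positivity)
      apply mul_le_mul_of_nonneg_right _ (by positivity)
      exact_mod_cast hcard)
  refine ⟨n, hn, hr, π k, (hK'mem k).1 hk, ?_⟩
  have h1 := congrArg (ZMod.castHom hdvd (ZMod q)) hnk
  rw [map_natCast] at h1
  rw [h1, ← hc', ← map_mul]
  rfl

theorem rough_rep (k : ℕ) (hk : 1 ≤ k) : ∃ η : ℝ, 0 < η ∧ η ≤ 1 / (3200 * (k : ℝ)) ∧
    ∀ᶠ q : ℕ in atTop, ∀ I : ℕ, ((2 ^ 2 ^ I : ℕ) : ℝ) ≤ (q : ℝ) ^ η →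
    ∀ K : Finset (ZMod q)ˣ, 0 < K.card → (∀ k ∈ K, ∀ k' ∈ K, k * k' ∈ K) → (∀ k ∈ K, k⁻¹ ∈ K) →
      (q : ℝ) ^ (1 - 1 / (16 * (k : ℝ))) ≤ K.card →
      ∃ L : ℕ, (((2 * L) ^ 2 : ℕ) : ℝ) ≤ (q : ℝ) ^ (1 + 3 / (4 * (k : ℝ))) ∧
        ∀ c : (ZMod q)ˣ, ∃ n : ℕ, n < 2 * L ∧ Rough (2 ^ 2 ^ I) n ∧
          ∃ k ∈ K, (n : ZMod q) = ((c * k : (ZMod q)ˣ) : ZMod q) := by
  obtain ⟨C0, hC0, hRC⟩ := rough_coset
  have hkR : (1 : ℝ) ≤ k := by exact_mod_cast hk
  set B : ℕ := C0.factorial with hBdef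
  have hB0 : 0 < B := Nat.factorial_pos _
  have hB : ∀ p : ℕ, p.Prime → p ≤ C0 → p ∣ B := fun p hp hpC =>
    (Nat.Prime.dvd_factorial hp).2 hpC
  set s : ℝ := 1 / k with hs
  have hs0 : 0 < s := by positivity
  have hs1 : s ≤ 1 := by rw [hs, div_le_one (by linarith)]; exact hkR
  set t : ℝ := s / 64 with ht
  have ht0 : 0 < t := by positivity
  have hC0R : (1 : ℝ) ≤ C0 := by exact_mod_cast hC0
  set η : ℝ := s / (32 * ((C0 : ℝ) * C0 + 100)) with hη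
  have hη0 : 0 < η := by positivity
  have hη1 : η * ((C0 : ℝ) * C0 + 100) = s / 32 := by rw [hη]; field_simp
  have hCC : (1 : ℝ) ≤ (C0 : ℝ) * C0 := by nlinarith
  refine ⟨η, hη0, ?_, ?_⟩
  · have : 1 / (3200 * (k : ℝ)) = s / 3200 := by rw [hs]; field_simp
    rw [this, hη]
    apply div_le_div_of_nonneg_left hs0.le (by norm_num)
    nlinarith
  filter_upwards [tau_le_uniform ht0,
    (tendsto_nat_rpow ht0).eventually (eventually_ge_atTop (B : ℝ)),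
    (tendsto_nat_rpow (t := 7 * t) (by positivity)).eventually (eventually_ge_atTop 3),
    (tendsto_nat_rpow (t := s / 4) (by positivity)).eventually (eventually_ge_atTop 16),
    eventually_ge_atTop 2] with q htau hBq h7t hs4 hq2 I hI K hK0 hmul hinv hKc
  have hq2' : (2 : ℝ) ≤ q := by exact_mod_cast hq2
  have hq1 : (1 : ℝ) ≤ q := by linarith
  have hq0 : (0 : ℝ) < q := by linarith
  haveI : NeZero q := ⟨by omega⟩
  set R : ℝ := (q : ℝ) ^ (1 / 2 + s / 4) with hR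
  have hR1 : 1 ≤ R := Real.one_le_rpow hq1 (by positivity)
  set L : ℕ := ⌊R⌋₊ + 1 with hL
  have hLR : R < (L : ℝ) := by
    rw [hL]; push_cast; exact Nat.lt_floor_add_one R
  have hLR2 : (L : ℝ) ≤ 2 * R := by
    rw [hL]; push_cast
    have := Nat.floor_le (show 0 ≤ R by linarith)
    linarith
  have hL0 : (0 : ℝ) < L := by linarith
  refine ⟨L, ?_, ?_⟩
  · have h3 : 3 / (4 * (k : ℝ)) = 3 * s / 4 := by rw [hs]; field_simp
    rw [h3]
    push_cast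
    have h4 : (2 * (L : ℝ)) ^ 2 ≤ 16 * R ^ 2 := by nlinarith
    have h5 : R ^ 2 = (q : ℝ) ^ (1 + s / 2) := by
      rw [hR, ← Real.rpow_natCast, ← Real.rpow_mul hq0.le]
      congr 1; push_cast; ring
    have h6 : (q : ℝ) ^ (1 + 3 * s / 4) = (q : ℝ) ^ (s / 4) * (q : ℝ) ^ (1 + s / 2) := by
      rw [← Real.rpow_add hq0]; congr 1; ring
    rw [h6]
    refine h4.trans ?_
    rw [h5]
    exact mul_le_mul_of_nonneg_right hs4 (by positivity)
  · intro c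
    set z : ℕ := 2 ^ 2 ^ I with hz
    have hz1 : (1 : ℝ) ≤ z := by exact_mod_cast Nat.one_le_two_pow
    have hD : (((z ^ (C0 * C0) : ℕ)) : ℝ) ≤ (q : ℝ) ^ (η * ((C0 : ℝ) * C0)) := by
      push_cast
      calc (z : ℝ) ^ (C0 * C0) ≤ ((q : ℝ) ^ η) ^ (C0 * C0) := pow_le_pow_left₀ (by positivity) hI _
        _ = (q : ℝ) ^ (η * ((C0 : ℝ) * C0)) := by
            rw [← Real.rpow_natCast, ← Real.rpow_mul hq0.le]; push_cast; rfl
    have hQ : ((q * B : ℕ) : ℝ) ≤ (q : ℝ) ^ (1 + t) := by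
      push_cast
      rw [Real.rpow_add hq0, Real.rpow_one]
      exact mul_le_mul_of_nonneg_left hBq hq0.le
    have hBpos : (0 : ℝ) < B := by exact_mod_cast hB0
    have hQ0 : (0 : ℝ) < ((q * B : ℕ) : ℝ) := by push_cast; positivity
    have hηC : η * ((C0 : ℝ) * C0) ≤ 1 := by nlinarith
    refine lift_coset hB0 hB hRC I q K hK0 hmul hinv c L ((q : ℝ) ^ (1 / 2 + 2 * t)) ?_ ?_
    · intro d hd0 hdD
      have hd0R : (0 : ℝ) < d := by exact_mod_cast hd0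
      have hdq : (d : ℝ) ≤ q := by
        have h1 : (d : ℝ) ≤ ((z ^ (C0 * C0) : ℕ) : ℝ) := by exact_mod_cast hdD
        calc (d : ℝ) ≤ (q : ℝ) ^ (η * ((C0 : ℝ) * C0)) := h1.trans hD
          _ ≤ (q : ℝ) ^ (1 : ℝ) := Real.rpow_le_rpow_of_exponent_le hq1 hηC
          _ = q := Real.rpow_one _
      have h1 : (((q * B * d : ℕ)) : ℝ) ≤ (q : ℝ) ^ (3 : ℝ) := by
        have e : (q : ℝ) ^ (3 : ℝ) = (q : ℝ) ^ (2 : ℝ) * q := by
          rw [← Real.rpow_add_one hq0.ne']; norm_num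
        rw [e]
        push_cast
        push_cast at hQ
        apply mul_le_mul _ hdq (by positivity) (by positivity)
        refine hQ.trans (Real.rpow_le_rpow_of_exponent_le hq1 ?_)
        rw [ht]; linarith
      have h2 := htau (q * B * d) (by positivity) h1
      have h3 : (d : ℝ) ≤ (q : ℝ) ^ (3 : ℝ) := by
        calc (d : ℝ) ≤ (q : ℝ) ^ (1 : ℝ) := by rw [Real.rpow_one]; exact hdq
          _ ≤ (q : ℝ) ^ (3 : ℝ) := Real.rpow_le_rpow_of_exponent_le hq1 (by norm_num)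
      have h4 := htau d hd0 h3
      have htot : (0 : ℝ) < d.totient := by exact_mod_cast Nat.totient_pos.2 hd0
      have h5 : (d : ℝ) / d.totient ≤ (q : ℝ) ^ t := by
        rw [div_le_iff₀ htot]
        have h6 : (d : ℝ) ≤ (d.divisors.card : ℝ) * d.totient := by
          have h7 : d ≤ d.divisors.card * d.totient := by
            calc d = ∑ m ∈ d.divisors, m.totient := (Nat.sum_totient d).symm
              _ ≤ ∑ m ∈ d.divisors, d.totient := by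
                  apply sum_le_sum
                  intro m hm
                  exact Nat.le_of_dvd (Nat.totient_pos.2 hd0)
                    (Nat.totient_dvd_of_dvd (Nat.dvd_of_mem_divisors hm))
              _ = d.divisors.card * d.totient := by rw [sum_const, smul_eq_mul]
          exact_mod_cast h7
        exact h6.trans (mul_le_mul_of_nonneg_right h4 htot.le)
      have h6 : √(((q * B : ℕ) : ℝ) * d / d.totient) ≤ (q : ℝ) ^ (1 / 2 + t) := by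
        rw [Real.sqrt_le_left (by positivity), ← Real.rpow_natCast, ← Real.rpow_mul hq0.le]
        rw [mul_div_assoc]
        calc ((q * B : ℕ) : ℝ) * ((d : ℝ) / d.totient) ≤ (q : ℝ) ^ (1 + t) * (q : ℝ) ^ t :=
              mul_le_mul hQ h5 (by positivity) (by positivity)
          _ = (q : ℝ) ^ ((1 / 2 + t) * ((2 : ℕ) : ℝ)) := by
              rw [← Real.rpow_add hq0]; congr 1; push_cast; ring
      calc ((q * B * d).divisors.card : ℝ) * √(((q * B : ℕ) : ℝ) * d / d.totient)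
          ≤ (q : ℝ) ^ t * (q : ℝ) ^ (1 / 2 + t) := mul_le_mul h2 h6 (by positivity) (by positivity)
        _ = (q : ℝ) ^ (1 / 2 + 2 * t) := by rw [← Real.rpow_add hq0]; congr 1; ring
    · set E : ℝ := (q : ℝ) ^ (1 / 2 + 2 * t) with hE
      have hE0 : 0 < E := by positivity
      have hIz : (I : ℝ) + 2 ≤ (q : ℝ) ^ η := by
        refine le_trans ?_ hI
        have h1 : I < 2 ^ I := Nat.lt_two_pow_self
        have h2 : 2 ^ I < 2 ^ 2 ^ I := Nat.lt_two_pow_self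
        have h3 : I + 2 ≤ 2 ^ 2 ^ I := by omega
        exact_mod_cast h3
      have key : ((I : ℝ) + 2) * (((z ^ (C0 * C0) : ℕ)) : ℝ) * E * ((q * B : ℕ) : ℝ) * (2 * z) <
          K.card * L := by
        have h1 : ((I : ℝ) + 2) * (((z ^ (C0 * C0) : ℕ)) : ℝ) ≤
            (q : ℝ) ^ η * (q : ℝ) ^ (η * ((C0 : ℝ) * C0)) :=
          mul_le_mul hIz hD (by positivity) (by positivity)
        have h2 : ((I : ℝ) + 2) * (((z ^ (C0 * C0) : ℕ)) : ℝ) * E ≤
            (q : ℝ) ^ η * (q : ℝ) ^ (η * ((C0 : ℝ) * C0)) * E :=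
          mul_le_mul_of_nonneg_right h1 hE0.le
        have h3 : ((I : ℝ) + 2) * (((z ^ (C0 * C0) : ℕ)) : ℝ) * E * ((q * B : ℕ) : ℝ) ≤
            (q : ℝ) ^ η * (q : ℝ) ^ (η * ((C0 : ℝ) * C0)) * E * (q : ℝ) ^ (1 + t) :=
          mul_le_mul h2 hQ hQ0.le (by positivity)
        have h4 : ((I : ℝ) + 2) * (((z ^ (C0 * C0) : ℕ)) : ℝ) * E * ((q * B : ℕ) : ℝ) * (2 * z) ≤
            (q : ℝ) ^ η * (q : ℝ) ^ (η * ((C0 : ℝ) * C0)) * E * (q : ℝ) ^ (1 + t) *
              (2 * (q : ℝ) ^ η) :=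
          mul_le_mul h3 (by linarith) (by positivity) (by positivity)
        refine lt_of_le_of_lt h4 ?_
        have h5 : (q : ℝ) ^ η * (q : ℝ) ^ (η * ((C0 : ℝ) * C0)) * E * (q : ℝ) ^ (1 + t) *
              (2 * (q : ℝ) ^ η) = 2 * (q : ℝ) ^ (η + η * ((C0 : ℝ) * C0) + (1 / 2 + 2 * t) +
                (1 + t) + η) := by
          rw [hE]
          simp only [Real.rpow_add hq0]
          ring
        rw [h5]
        have h6 : η + η * ((C0 : ℝ) * C0) + (1 / 2 + 2 * t) + (1 + t) + η ≤ 3 / 2 + 5 * t := by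
          have : η * ((C0 : ℝ) * C0 + 100) = 2 * t := by rw [hη1, ht]; ring
          nlinarith
        have h7 : (q : ℝ) ^ (η + η * ((C0 : ℝ) * C0) + (1 / 2 + 2 * t) + (1 + t) + η) ≤
            (q : ℝ) ^ (3 / 2 + 5 * t) := Real.rpow_le_rpow_of_exponent_le hq1 h6
        have h8 : (q : ℝ) ^ (7 * t) * (q : ℝ) ^ (3 / 2 + 5 * t) ≤ K.card * L := by
          have h9 : (q : ℝ) ^ (7 * t) * (q : ℝ) ^ (3 / 2 + 5 * t) =
              (q : ℝ) ^ (1 - 1 / (16 * (k : ℝ))) * R := by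
            have h16 : 1 / (16 * (k : ℝ)) = s / 16 := by rw [hs]; field_simp
            rw [hR, h16, ← Real.rpow_add hq0, ← Real.rpow_add hq0]
            congr 1
            rw [ht]
            ring
          rw [h9]
          exact mul_le_mul hKc hLR.le (by positivity) (by positivity)
        have h10 : (0 : ℝ) < (q : ℝ) ^ (3 / 2 + 5 * t) := by positivity
        nlinarith
      have hzpos : (0 : ℝ) < z := by linarith
      rw [mul_one_div, lt_div_iff₀ (by positivity), lt_div_iff₀ hQ0]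
      calc ((I : ℝ) + 2) * ((((z ^ (C0 * C0) : ℕ)) : ℝ) * (E * L)) * (2 * (z : ℝ)) *
            ((q * B : ℕ) : ℝ)
          = (((I : ℝ) + 2) * (((z ^ (C0 * C0) : ℕ)) : ℝ) * E * ((q * B : ℕ) : ℝ) * (2 * z)) * L := by
            ring
        _ < (K.card * L) * L := mul_lt_mul_of_pos_right key hL0
        _ = K.card * (L : ℝ) ^ 2 := by ring

end Pool.Agent.H358R4
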