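import Pool.Agent.H358R4.RoughHom
import Pool.Agent.H358R4.RoughRep
import Pool.Agent.H358R4.RoughPos

/-!
Both parities of the number of prime factors, among integers with a bounded number of prime factors.
-/

namespace Pool.Agent.H358R4

open Finset Filter

/-- Rigidity for rough numbers. -/
theorem rough_rigid (k : ℕ) (hk : 1 ≤ k) : ∃ η : ℝ, 0 < η ∧ η ≤ 1 / (3200 * (k : ℝ)) ∧
    ∀ᶠ q : ℕ in atTop, ∀ I : ℕ, 1 ≤ I → ((2 ^ 2 ^ I : ℕ) : ℝ) ≤ (q : ℝ) ^ η →
    ∀ (A : Type) [CommGroup A] (f : ℕ → A), CM f → ∀ a : ℕ, Nat.Coprime a q → ∀ c : A,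
    (∀ N : ℕ, 0 < N → (N : ℝ) ≤ (q : ℝ) ^ (2 + 3 / (k : ℝ)) → N ≡ a [MOD q] →
      Rough (2 ^ 2 ^ I) N → f N = c) →
    ∃ χ : (ZMod q)ˣ →* A, ∀ (n : ℕ) (hn : Nat.Coprime n q), Rough (2 ^ 2 ^ I) n →
      (n : ℝ) ≤ (q : ℝ) ^ (1 + 2 / (k : ℝ)) → f n = χ (ZMod.unitOfCoprime n hn) := by
  obtain ⟨η, hη0, hηk, hrr⟩ := rough_rep k hk
  obtain ⟨C, hC1, hC⟩ := exp_le_double 8 (by norm_num)
  refine ⟨η, hη0, hηk, ?_⟩
  have hkR : (1 : ℝ) ≤ k := by exact_mod_cast hk
  have hk0 : k ≠ 0 := by omega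
  set s : ℝ := 1 / k with hs
  have hs0 : 0 < s := by positivity
  have hηs : η ≤ s / 3200 := by
    have : 1 / (3200 * (k : ℝ)) = s / 3200 := by rw [hs]; field_simp
    linarith
  filter_upwards [hrr, choose_lower' k hk,
    (tendsto_nat_rpow hη0).eventually (eventually_ge_atTop (2 * C + 3)),
    eventually_ge_atTop 2] with q hrq hch hqη hq2 I hI hIz A _ f hf a ha c hconst
  haveI : NeZero q := ⟨by omega⟩
  have hq2' : (2 : ℝ) ≤ q := by exact_mod_cast hq2
  have hq1 : (1 : ℝ) ≤ q := by linarith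
  have hq0 : (0 : ℝ) < q := by linarith
  set z : ℕ := 2 ^ 2 ^ I with hz
  have hz1 : (1 : ℝ) ≤ z := by exact_mod_cast Nat.one_le_two_pow
  have hzpos : (0 : ℝ) < z := by linarith
  set k1 : ℕ := ⌊(q : ℝ) ^ (62 * η)⌋₊ + 1 with hk1
  set W : ℕ := q * (k1 + 1) with hW
  set Y : ℕ := ⌊(q : ℝ) ^ (1 + 2 * s)⌋₊ with hY
  have hk1low : (q : ℝ) ^ (62 * η) < k1 := by
    rw [hk1]; push_cast; exact Nat.lt_floor_add_one _
  have hWup : (W : ℝ) ≤ (q : ℝ) ^ (1 + s) := by
    rw [hW, hk1]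
    push_cast
    have h1 : (⌊(q : ℝ) ^ (62 * η)⌋₊ : ℝ) ≤ (q : ℝ) ^ (62 * η) := Nat.floor_le (by positivity)
    have h2 : (1 : ℝ) ≤ (q : ℝ) ^ (62 * η) := Real.one_le_rpow hq1 (by positivity)
    have h3 : (⌊(q : ℝ) ^ (62 * η)⌋₊ : ℝ) + 1 + 1 ≤ (q : ℝ) ^ (63 * η) := by
      have h4 : (q : ℝ) ^ (63 * η) = (q : ℝ) ^ η * (q : ℝ) ^ (62 * η) := by
        rw [← Real.rpow_add hq0]; congr 1; ring
      rw [h4]
      nlinarith
    rw [Real.rpow_add hq0, Real.rpow_one]
    apply mul_le_mul_of_nonneg_left _ hq0.le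
    refine h3.trans (Real.rpow_le_rpow_of_exponent_le hq1 ?_)
    linarith
  have hYup : (Y : ℝ) ≤ (q : ℝ) ^ (1 + 2 * s) := Nat.floor_le (by positivity)
  have hWY : W ≤ Y := by
    apply Nat.le_floor
    exact hWup.trans (Real.rpow_le_rpow_of_exponent_le hq1 (by linarith))
  have hsieve : (2 : ℝ) ^ (60 * 2 ^ I) < (k1 : ℝ) * (Real.exp (-8) ^ I / 2) := by
    have e1 : (2 : ℝ) ^ (60 * 2 ^ I) = (z : ℝ) ^ 60 := by
      rw [hz]; push_cast; rw [← pow_mul]; congr 1; ring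
    have e2 : Real.exp (-8) ^ I = 1 / (Real.exp 8 ^ I) := by
      rw [Real.exp_neg, inv_pow, one_div]
    have h1 : 1 / (C * z) ≤ Real.exp (-8) ^ I := by
      rw [e2]
      exact one_div_le_one_div_of_le (by positivity) (hC I)
    have h2 : (z : ℝ) ^ 60 * (2 * (C * z)) < k1 := by
      have h3 : (z : ℝ) ^ 61 ≤ (q : ℝ) ^ (61 * η) := by
        calc (z : ℝ) ^ 61 ≤ ((q : ℝ) ^ η) ^ 61 := pow_le_pow_left₀ hzpos.le hIz _
          _ = (q : ℝ) ^ (61 * η) := by
              rw [← Real.rpow_natCast, ← Real.rpow_mul hq0.le]; congr 1; push_cast; ring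
      have h4 : (q : ℝ) ^ (62 * η) = (q : ℝ) ^ η * (q : ℝ) ^ (61 * η) := by
        rw [← Real.rpow_add hq0]; congr 1; ring
      calc (z : ℝ) ^ 60 * (2 * (C * z)) = 2 * C * (z : ℝ) ^ 61 := by ring
        _ ≤ 2 * C * (q : ℝ) ^ (61 * η) := mul_le_mul_of_nonneg_left h3 (by linarith)
        _ ≤ (q : ℝ) ^ η * (q : ℝ) ^ (61 * η) :=
            mul_le_mul_of_nonneg_right (by linarith) (by positivity)
        _ = (q : ℝ) ^ (62 * η) := h4.symm
        _ < k1 := hk1low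
    rw [e1]
    have hCz : 0 < C * z := by positivity
    have hk1pos : (0 : ℝ) < k1 := lt_of_le_of_lt (by positivity) h2
    calc (z : ℝ) ^ 60 = (z : ℝ) ^ 60 * (2 * (C * z)) * (1 / (C * z) / 2) := by field_simp
      _ < k1 * (1 / (C * z) / 2) := mul_lt_mul_of_pos_right h2 (by positivity)
      _ ≤ k1 * (Real.exp (-8) ^ I / 2) := by
          apply mul_le_mul_of_nonneg_left _ hk1pos.le
          linarith
  have hdat : Dat q z W Y (Y * W) a f c := by
    refine ⟨hq2, hf, ha, ?_, ?_, le_rfl, hWY⟩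
    · intro N hN0 hN hNa hr
      apply hconst N hN0 _ ((ZMod.natCast_eq_natCast_iff _ _ _).1 hNa) hr
      have h1 : (N : ℝ) ≤ Y * W := by exact_mod_cast hN
      refine h1.trans ?_
      have h2 : (2 : ℝ) + 3 / (k : ℝ) = (1 + 2 * s) + (1 + s) := by rw [hs]; field_simp; ring
      rw [h2, Real.rpow_add hq0]
      exact mul_le_mul hYup hWup (by positivity) (by positivity)
    · intro g
      exact rough_ap q hq2 I hI k1 hsieve g
  -- the parameter M
  obtain ⟨M, hMk, hMk1⟩ : ∃ M : ℕ, M ^ k ≤ q ∧ q < (M + 1) ^ k := by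
    classical
    have hex : ∃ m : ℕ, q < (m + 1) ^ k := ⟨q, by
      calc q < q + 1 := Nat.lt_succ_self q
        _ = (q + 1) ^ 1 := (pow_one _).symm
        _ ≤ (q + 1) ^ k := Nat.pow_le_pow_right (by omega) hk⟩
    refine ⟨Nat.find hex, ?_, Nat.find_spec hex⟩
    rcases Nat.eq_zero_or_pos (Nat.find hex) with h | h
    · rw [h, zero_pow hk0]; omega
    · have h1 := Nat.find_min hex (m := Nat.find hex - 1) (by omega)
      rw [Nat.sub_add_cancel h] at h1
      omega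
  have hMq : (M : ℝ) ≤ (q : ℝ) ^ s := by
    have h1 : ((M : ℝ)) ^ k ≤ q := by exact_mod_cast hMk
    have h2 := Real.rpow_le_rpow (by positivity) h1 (show (0 : ℝ) ≤ 1 / k by positivity)
    rw [one_div, Real.pow_rpow_inv_natCast (by positivity) hk0] at h2
    rw [hs, one_div]
    exact h2
  have hMW : M * W ≤ Y := by
    apply Nat.le_floor
    push_cast
    calc (M : ℝ) * W ≤ (q : ℝ) ^ s * (q : ℝ) ^ (1 + s) :=
          mul_le_mul hMq hWup (by positivity) (by positivity)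
      _ = (q : ℝ) ^ (1 + 2 * s) := by rw [← Real.rpow_add hq0]; congr 1; ring
  have hcard := card_KRF hdat hMW hMk
  have hzs : (z : ℝ) ≤ (q : ℝ) ^ (1 / (100 * (k : ℝ))) := by
    refine hIz.trans (Real.rpow_le_rpow_of_exponent_le hq1 ?_)
    have : 1 / (100 * (k : ℝ)) = s / 100 := by rw [hs]; field_simp
    rw [this]; linarith
  have hKcard : (q : ℝ) ^ (1 - 1 / (16 * (k : ℝ))) ≤ (KRF hdat).card := by
    refine (hch M hMk hMk1 z hzs).trans ?_
    exact_mod_cast hcard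
  have h1mem : (1 : (ZMod q)ˣ) ∈ KRF hdat := by rw [mem_KRF]; exact Subgroup.one_mem _
  obtain ⟨L, hL1, hL2⟩ := hrq I hIz (KRF hdat) (Finset.card_pos.2 ⟨1, h1mem⟩)
    (fun k hk k' hk' => by rw [mem_KRF] at *; exact Subgroup.mul_mem _ hk hk')
    (fun k hk => by rw [mem_KRF] at *; exact Subgroup.inv_mem _ hk) hKcard
  have hLY : (2 * L) ^ 2 ≤ Y := by
    apply Nat.le_floor
    refine hL1.trans (Real.rpow_le_rpow_of_exponent_le hq1 ?_)
    have : 3 / (4 * (k : ℝ)) = 3 * s / 4 := by rw [hs]; field_simp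
    rw [this]; linarith
  refine ⟨MonoidHom.mk' (FR hdat) (FR_mul hdat hLY hL2), fun n hn hr hnY => ?_⟩
  have h2s : 2 / (k : ℝ) = 2 * s := by rw [hs]; field_simp
  rw [h2s] at hnY
  exact perR hdat (Nat.le_floor hnY) hr hn

lemma pow_omega_le (x : ℝ) (hx : 0 ≤ x) : ∀ N : ℕ, N ≠ 0 → (∀ p : ℕ, p.Prime → p ∣ N → x ≤ p) →
    x ^ (ArithmeticFunction.cardFactors N) ≤ N := by
  intro N
  induction N using Nat.recOnMul with
  | zero => intro h; exact absurd rfl h
  | one => intro _ _; simp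
  | prime p hp =>
    intro _ h
    rw [ArithmeticFunction.cardFactors_apply_prime hp, pow_one]
    exact h p hp dvd_rfl
  | mul a b iha ihb =>
    intro hab h
    have ha : a ≠ 0 := left_ne_zero_of_mul hab
    have hb : b ≠ 0 := right_ne_zero_of_mul hab
    rw [ArithmeticFunction.cardFactors_mul ha hb, pow_add]
    push_cast
    exact mul_le_mul (iha ha fun p hp hpa => h p hp (hpa.mul_right b))
      (ihb hb fun p hp hpb => h p hp (hpb.mul_left a)) (by positivity) (by positivity)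

/-- both parities among products of a bounded number of primes, each larger than a power of `q` -/
theorem parity_rough (ε : ℝ) (hε : 0 < ε) : ∃ η : ℝ, 0 < η ∧ ∃ r : ℕ, ∃ q0 : ℕ, ∀ q : ℕ, q0 ≤ q →
    ∀ a : ℕ, Nat.Coprime a q → ∀ j : ℕ, j < 2 → ∃ N : ℕ, 0 < N ∧ (N : ℝ) < (q : ℝ) ^ (2 + ε) ∧
      N ≡ a [MOD q] ∧ ArithmeticFunction.cardFactors N % 2 = j ∧
      ArithmeticFunction.cardFactors N ≤ r ∧ ∀ p : ℕ, p.Prime → p ∣ N → (q : ℝ) ^ η < p := by
  obtain ⟨k, hk⟩ := exists_nat_gt (3 / ε)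
  have hk0 : (0 : ℝ) < k := lt_trans (by positivity) hk
  have hk1 : 1 ≤ k := by
    have : 0 < k := by exact_mod_cast hk0
    omega
  have hkR : (1 : ℝ) ≤ k := by exact_mod_cast hk1
  have h3k : 3 / (k : ℝ) < ε := by
    rw [div_lt_iff₀ hk0]
    rw [div_lt_iff₀ hε] at hk
    linarith
  obtain ⟨η, hη0, hηk, hev⟩ := rough_rigid k hk1
  obtain ⟨r, hr⟩ := exists_nat_gt ((2 + ε) / (η / 2))
  refine ⟨η / 2, by positivity, r, ?_⟩
  have h2k : (0 : ℝ) < 2 / (k : ℝ) := by positivity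
  obtain ⟨q0, hq0⟩ := eventually_atTop.1 (hev.and (least_pos_rough.and
    (((tendsto_nat_rpow hη0).eventually (eventually_ge_atTop (4 : ℝ))).and
    (((tendsto_nat_rpow h2k).eventually (eventually_ge_atTop (3 : ℝ))).and
    (eventually_ge_atTop 2)))))
  refine ⟨q0, fun q hq a ha j hj => ?_⟩
  obtain ⟨hrig, hpos, h4, h3, hq2⟩ := hq0 q hq
  have hq2' : (2 : ℝ) ≤ q := by exact_mod_cast hq2
  have hq1 : (1 : ℝ) ≤ q := by linarith
  have hqpos : (0 : ℝ) < q := by linarith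
  -- choose I
  obtain ⟨I, hI1, hIz, hIz2⟩ : ∃ I : ℕ, 1 ≤ I ∧ ((2 ^ 2 ^ I : ℕ) : ℝ) ≤ (q : ℝ) ^ η ∧
      (q : ℝ) ^ η < ((2 ^ 2 ^ (I + 1) : ℕ) : ℝ) := by
    classical
    have hex : ∃ I : ℕ, (q : ℝ) ^ η < ((2 ^ 2 ^ (I + 1) : ℕ) : ℝ) := by
      obtain ⟨n, hn⟩ := exists_nat_gt ((q : ℝ) ^ η)
      refine ⟨n, hn.trans_le ?_⟩
      have : n ≤ 2 ^ 2 ^ (n + 1) := by
        calc n ≤ n + 1 := Nat.le_succ n
          _ ≤ 2 ^ (n + 1) := Nat.lt_two_pow_self.le
          _ ≤ 2 ^ 2 ^ (n + 1) := Nat.lt_two_pow_self.le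
      exact_mod_cast this
    have hpos1 : 1 ≤ Nat.find hex := by
      by_contra h
      have h0 : Nat.find hex = 0 := by omega
      have h1 := Nat.find_spec hex
      rw [h0] at h1
      norm_num at h1
      linarith
    refine ⟨Nat.find hex, hpos1, ?_, Nat.find_spec hex⟩
    have h1 := Nat.find_min hex (m := Nat.find hex - 1) (by omega)
    rw [Nat.sub_add_cancel hpos1, not_lt] at h1
    exact h1
  set z : ℕ := 2 ^ 2 ^ I with hz
  have hzlow : (q : ℝ) ^ (η / 2) < z := by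
    have h5 : (q : ℝ) ^ η < (z : ℝ) ^ 2 := by
      refine hIz2.trans_eq ?_
      rw [hz]; push_cast; rw [← pow_mul]; congr 1
    have h6 : ((q : ℝ) ^ (η / 2)) ^ 2 = (q : ℝ) ^ η := by
      rw [← Real.rpow_natCast, ← Real.rpow_mul hqpos.le]; congr 1; push_cast; ring
    rw [← h6] at h5
    exact lt_of_pow_lt_pow_left₀ 2 (by positivity) h5
  by_contra hno
  push Not at hno
  have hpar : ∀ n : ℕ, lio n = 1 ↔ ArithmeticFunction.cardFactors n % 2 = 0 := by
    intro n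
    unfold lio
    constructor
    · intro h
      rcases Nat.mod_two_eq_zero_or_one (ArithmeticFunction.cardFactors n) with h3 | h3
      · exact h3
      · rw [Odd.neg_one_pow (Nat.odd_iff.2 h3)] at h
        exact absurd h (by decide)
    · intro h
      exact Even.neg_one_pow (Nat.even_iff.2 h)
  obtain ⟨χ, hχ⟩ := hrig I hI1 hIz ℤˣ lio lio_mul a ha (if j = 0 then -1 else 1) (by
    intro N hN0 hN hNa hrN
    have hNε : (N : ℝ) < (q : ℝ) ^ (2 + ε) := by
      refine lt_of_le_of_lt hN ?_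
      exact Real.rpow_lt_rpow_of_exponent_lt (by linarith) (by linarith)
    have hprime : ∀ p : ℕ, p.Prime → p ∣ N → (q : ℝ) ^ (η / 2) < p := by
      intro p hp hpN
      have h5 : z < p := hrN p hp hpN
      have h6 : (z : ℝ) < p := by exact_mod_cast h5
      linarith
    have hom : ArithmeticFunction.cardFactors N ≤ r := by
      by_contra hc
      push Not at hc
      have h5 := pow_omega_le ((q : ℝ) ^ (η / 2)) (by positivity) N hN0.ne'
        (fun p hp hpN => (hprime p hp hpN).le)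
      have h6 : (q : ℝ) ^ (2 + ε) ≤ ((q : ℝ) ^ (η / 2)) ^ (ArithmeticFunction.cardFactors N) := by
        rw [← Real.rpow_natCast, ← Real.rpow_mul hqpos.le]
        apply Real.rpow_le_rpow_of_exponent_le hq1
        rw [div_lt_iff₀ (by positivity)] at hr
        have h7 : (r : ℝ) ≤ ArithmeticFunction.cardFactors N := by exact_mod_cast hc.le
        nlinarith
      linarith
    have h5 : ArithmeticFunction.cardFactors N % 2 ≠ j := by
      intro h5
      obtain ⟨p, hp, hpN, hple⟩ := hno N hN0 hNε hNa h5 hom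
      exact absurd (hprime p hp hpN) (not_lt.2 hple)
    have h6 : ArithmeticFunction.cardFactors N % 2 < 2 := Nat.mod_lt _ (by norm_num)
    split_ifs with hj0
    · rcases Int.units_eq_one_or (lio N) with h7 | h7
      · exfalso; apply h5; rw [(hpar N).1 h7, hj0]
      · exact h7
    · rw [hpar]; omega)
  obtain ⟨l, hl, hzl, hl3, hlq, hχl⟩ := hpos I hI1 (hIz.trans
    (Real.rpow_le_rpow_of_exponent_le hq1 (by
      refine hηk.trans ?_
      apply one_div_le_one_div_of_le (by norm_num)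
      linarith))) χ
  have hlt : (l : ℝ) ≤ (q : ℝ) ^ (1 + 2 / (k : ℝ)) := by
    have h5 : (l : ℝ) ≤ 3 * q := by exact_mod_cast hl3
    rw [Real.rpow_add hqpos, Real.rpow_one]
    nlinarith
  have h5 := hχ l hlq (rough_prime hl hzl) hlt
  rw [hχl, lio_prime hl] at h5
  exact absurd h5 (by decide)

end Pool.Agent.H358R4
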