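import Pool.Agent.H358R4.Hom
import Pool.Agent.H358R4.RoughAP

/-!
A completely multiplicative function which is constant on the integers of a residue class without
small prime factors.
-/

namespace Pool.Agent.H358R4

open Finset

section

variable {A : Type*} [CommGroup A]

/-- the data: constancy on rough numbers of a class, and existence of rough representatives -/
structure Dat (q z W Y B a : ℕ) (f : ℕ → A) (c : A) : Prop where
  hq : 2 ≤ q
  hf : CM f
  ha : Nat.Coprime a q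
  hC : ∀ N : ℕ, 0 < N → N ≤ B → (N : ZMod q) = (a : ZMod q) → Rough z N → f N = c
  hW : ∀ g : (ZMod q)ˣ, ∃ w : ℕ, 0 < w ∧ w ≤ W ∧ (w : ZMod q) = (g : ZMod q) ∧ Rough z w
  hYW : Y * W ≤ B
  hWY : W ≤ Y

variable {q z W Y B a : ℕ} [NeZero q] {f : ℕ → A} {c : A}

/-- rough representative -/
noncomputable def rep (h : Dat q z W Y B a f c) (g : (ZMod q)ˣ) : ℕ := (h.hW g).choose

lemma rep_pos (h : Dat q z W Y B a f c) (g : (ZMod q)ˣ) : 0 < rep h g := (h.hW g).choose_spec.1

lemma rep_le (h : Dat q z W Y B a f c) (g : (ZMod q)ˣ) : rep h g ≤ W := (h.hW g).choose_spec.2.1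

lemma rep_cast (h : Dat q z W Y B a f c) (g : (ZMod q)ˣ) :
    ((rep h g : ℕ) : ZMod q) = (g : ZMod q) := (h.hW g).choose_spec.2.2.1

lemma rep_rough (h : Dat q z W Y B a f c) (g : (ZMod q)ˣ) : Rough z (rep h g) :=
  (h.hW g).choose_spec.2.2.2

lemma rep_coprime (h : Dat q z W Y B a f c) (g : (ZMod q)ˣ) : Nat.Coprime (rep h g) q := by
  rw [← ZMod.isUnit_iff_coprime, rep_cast]; exact g.isUnit

/-- the function on the unit group -/
noncomputable def FR (h : Dat q z W Y B a f c) (g : (ZMod q)ˣ) : A := f (rep h g)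

lemma perR (h : Dat q z W Y B a f c) {n : ℕ} (hn : n ≤ Y) (hr : Rough z n)
    (hnq : Nat.Coprime n q) : f n = FR h (ZMod.unitOfCoprime n hnq) := by
  set u := ZMod.unitOfCoprime n hnq with hu
  set w : (ZMod q)ˣ := ZMod.unitOfCoprime a h.ha * u⁻¹ with hw
  have hwp := rep_pos h w
  have hup := rep_pos h u
  have hwl := rep_le h w
  have hul := rep_le h u
  have hn0 := coprime_pos h.hq hnq
  have hcast : ((u : ZMod q)) * (w : ZMod q) = (a : ZMod q) := by
    rw [← Units.val_mul, hw, mul_comm u, inv_mul_cancel_right, ZMod.coe_unitOfCoprime]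
  have e1 : f (n * rep h w) = c := by
    apply h.hC
    · positivity
    · exact (Nat.mul_le_mul hn hwl).trans h.hYW
    · push_cast
      rw [rep_cast, ← hcast, hu, ZMod.coe_unitOfCoprime]
    · exact hr.mul (rep_rough h w)
  have e2 : f (rep h u * rep h w) = c := by
    apply h.hC
    · positivity
    · exact (Nat.mul_le_mul (hul.trans h.hWY) hwl).trans h.hYW
    · push_cast
      rw [rep_cast, rep_cast, ← hcast]
    · exact (rep_rough h u).mul (rep_rough h w)
  rw [h.hf _ _ hn0.ne' hwp.ne'] at e1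
  rw [h.hf _ _ hup.ne' hwp.ne'] at e2
  have e3 := e2.trans e1.symm
  exact (mul_right_cancel e3).symm

lemma W_pos (h : Dat q z W Y B a f c) : 1 ≤ W := by
  have := rep_pos h 1
  have := rep_le h 1
  omega

lemma FR_one (h : Dat q z W Y B a f c) : FR h (1 : (ZMod q)ˣ) = 1 := by
  have h1 := perR h (n := 1) ((W_pos h).trans h.hWY) (Rough.one z) (Nat.coprime_one_left q)
  have h2 : ZMod.unitOfCoprime 1 (Nat.coprime_one_left q) = (1 : (ZMod q)ˣ) := by
    apply Units.ext
    rw [ZMod.coe_unitOfCoprime]; simp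
  rw [h2, h.hf.one] at h1
  exact h1.symm

/-- the stabiliser -/
def KR (h : Dat q z W Y B a f c) : Subgroup (ZMod q)ˣ where
  carrier := {u | ∀ g : (ZMod q)ˣ, FR h (u * g) = FR h u * FR h g}
  mul_mem' := by
    intro u k hu hk g
    simp only [Set.mem_ofPred_eq] at hu hk
    rw [mul_assoc, hu, hk, hu k]
    exact (mul_assoc _ _ _).symm
  one_mem' := by
    intro g
    rw [one_mul, FR_one h, one_mul]
  inv_mem' := by
    intro u hu g
    simp only [Set.mem_ofPred_eq] at hu
    have h1 : FR h u * FR h u⁻¹ = 1 := by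
      rw [← hu, mul_inv_cancel, FR_one h]
    have h2 : FR h u * FR h (u⁻¹ * g) = FR h g := by
      rw [← hu, mul_inv_cancel_left]
    have h3 : FR h u⁻¹ = (FR h u)⁻¹ := eq_inv_of_mul_eq_one_right h1
    rw [h3, ← h2, inv_mul_cancel_left]

lemma mem_KR (h : Dat q z W Y B a f c) (u : (ZMod q)ˣ) :
    u ∈ KR h ↔ ∀ g : (ZMod q)ˣ, FR h (u * g) = FR h u * FR h g := Iff.rfl

lemma small_memR (h : Dat q z W Y B a f c) {m : ℕ} (hm : m * W ≤ Y) (hr : Rough z m)
    (hmq : Nat.Coprime m q) : ZMod.unitOfCoprime m hmq ∈ KR h := by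
  rw [mem_KR]
  intro g
  have hm0 := coprime_pos h.hq hmq
  have hgp := rep_pos h g
  have hmg : Nat.Coprime (m * rep h g) q := Nat.Coprime.mul_left hmq (rep_coprime h g)
  have h1 : m * rep h g ≤ Y := (Nat.mul_le_mul_left m (rep_le h g)).trans hm
  have h2 : m ≤ Y := (Nat.le_mul_of_pos_right m (W_pos h)).trans hm
  have e1 := perR h h1 (hr.mul (rep_rough h g)) hmg
  have e2 := perR h h2 hr hmq
  rw [h.hf _ _ hm0.ne' hgp.ne', e2] at e1
  have e3 : ZMod.unitOfCoprime (m * rep h g) hmg = ZMod.unitOfCoprime m hmq * g := by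
    apply Units.ext
    rw [ZMod.coe_unitOfCoprime, Units.val_mul, ZMod.coe_unitOfCoprime]
    push_cast
    rw [rep_cast]
  rw [e3] at e1
  exact e1.symm

open Classical in
/-- the stabiliser as a finite set -/
noncomputable def KRF (h : Dat q z W Y B a f c) : Finset (ZMod q)ˣ :=
  univ.filter (fun u => u ∈ KR h)

lemma mem_KRF (h : Dat q z W Y B a f c) (u : (ZMod q)ˣ) : u ∈ KRF h ↔ u ∈ KR h := by
  unfold KRF; simp

lemma rough_prime {z p : ℕ} (hp : p.Prime) (h : z < p) : Rough z p := by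
  intro r hr hrp
  rw [(Nat.prime_dvd_prime_iff_eq hr hp).1 hrp]; exact h

/-- many elements in the stabiliser -/
lemma card_KRF (h : Dat q z W Y B a f c) {M k : ℕ} (hM : M * W ≤ Y) (hMk : M ^ k ≤ q) :
    (((range (M + 1)).filter Nat.Prime) \ (q.primeFactors ∪ range (z + 1))).card.choose k ≤
      (KRF h).card := by
  classical
  have hq := h.hq
  set P := ((range (M + 1)).filter Nat.Prime) \ (q.primeFactors ∪ range (z + 1)) with hP
  have hPp : ∀ p ∈ P, p.Prime ∧ p ≤ M ∧ Nat.Coprime p q ∧ z < p := by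
    intro p hp
    rw [hP, Finset.mem_sdiff, Finset.mem_filter, Finset.mem_range, Finset.mem_union,
      Finset.mem_range] at hp
    refine ⟨hp.1.2, by omega, ?_, ?_⟩
    · rw [Nat.Prime.coprime_iff_not_dvd hp.1.2]
      intro hd
      exact hp.2 (Or.inl (Nat.mem_primeFactors.2 ⟨hp.1.2, hd, by omega⟩))
    · by_contra hz
      exact hp.2 (Or.inr (by omega))
  set u : ℕ → (ZMod q)ˣ := fun p => if h : Nat.Coprime p q then ZMod.unitOfCoprime p h else 1
    with hu
  have hup : ∀ p (h : Nat.Coprime p q), u p = ZMod.unitOfCoprime p h := fun p h => dif_pos h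
  have hcop : ∀ S ∈ powersetCard k P, Nat.Coprime (∏ p ∈ S, p) q := by
    intro S hS
    apply Nat.Coprime.prod_left
    intro p hp
    exact (hPp p ((Finset.mem_powersetCard.1 hS).1 hp)).2.2.1
  have hcast : ∀ S ∈ powersetCard k P, ((∏ p ∈ S, u p : (ZMod q)ˣ) : ZMod q) =
      ((∏ p ∈ S, p : ℕ) : ZMod q) := by
    intro S hS
    rw [Units.coe_prod, Nat.cast_prod]
    refine Finset.prod_congr rfl fun p hp => ?_
    have h1 := (hPp p ((Finset.mem_powersetCard.1 hS).1 hp)).2.2.1
    rw [hup p h1, ZMod.coe_unitOfCoprime]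
  have hlt : ∀ S ∈ powersetCard k P, ∏ p ∈ S, p < q := by
    intro S hS
    have h1 : ∏ p ∈ S, p ≤ M ^ k := by
      calc ∏ p ∈ S, p ≤ ∏ p ∈ S, M := Finset.prod_le_prod' fun p hp =>
            (hPp p ((Finset.mem_powersetCard.1 hS).1 hp)).2.1
        _ = M ^ k := by rw [Finset.prod_const, (Finset.mem_powersetCard.1 hS).2]
    rcases Nat.lt_or_ge (∏ p ∈ S, p) q with h | h
    · exact h
    · exfalso
      have h2 : ∏ p ∈ S, p = q := by omega
      have h3 := hcop S hS
      rw [h2, Nat.coprime_self] at h3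
      omega
  rw [← Finset.card_powersetCard]
  apply Finset.card_le_card_of_injOn (fun S => ∏ p ∈ S, u p)
  · intro S hS
    rw [Finset.mem_coe] at hS
    rw [Finset.mem_coe, mem_KRF]
    apply Subgroup.prod_mem
    intro p hp
    obtain ⟨h1, h2, h3, h4⟩ := hPp p ((Finset.mem_powersetCard.1 hS).1 hp)
    rw [hup p h3]
    exact small_memR h ((Nat.mul_le_mul_right _ h2).trans hM) (rough_prime h1 h4) h3
  · intro S hS T hT hST
    rw [Finset.mem_coe] at hS hT
    simp only at hST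
    have h1 : ((∏ p ∈ S, p : ℕ) : ZMod q) = ((∏ p ∈ T, p : ℕ) : ZMod q) := by
      rw [← hcast S hS, ← hcast T hT, hST]
    rw [ZMod.natCast_eq_natCast_iff', Nat.mod_eq_of_lt (hlt S hS), Nat.mod_eq_of_lt (hlt T hT)]
      at h1
    have h2 := congrArg Nat.primeFactors h1
    rw [Nat.primeFactors_prod, Nat.primeFactors_prod] at h2
    · exact h2
    · intro p hp
      exact (hPp p ((Finset.mem_powersetCard.1 hT).1 hp)).1
    · intro p hp
      exact (hPp p ((Finset.mem_powersetCard.1 hS).1 hp)).1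

/-- multiplicativity of the function on the unit group -/
theorem FR_mul (h : Dat q z W Y B a f c) {L : ℕ} (hLY : (2 * L) ^ 2 ≤ Y)
    (hrep : ∀ g : (ZMod q)ˣ, ∃ n : ℕ, n < 2 * L ∧ Rough z n ∧
      ∃ k ∈ KRF h, (n : ZMod q) = ((g * k : (ZMod q)ˣ) : ZMod q))
    (g g' : (ZMod q)ˣ) : FR h (g * g') = FR h g * FR h g' := by
  have hq := h.hq
  have hrep' : ∀ g : (ZMod q)ˣ, ∃ n : ℕ, n < 2 * L ∧ Rough z n ∧ ∃ hn : Nat.Coprime n q,
      ∃ k ∈ KR h, g = ZMod.unitOfCoprime n hn * k := by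
    intro g
    obtain ⟨n, hn, hr, k, hk, hnk⟩ := hrep g
    have hcop : Nat.Coprime n q := by
      rw [← ZMod.isUnit_iff_coprime, hnk]
      exact (g * k).isUnit
    refine ⟨n, hn, hr, hcop, k⁻¹, Subgroup.inv_mem _ ((mem_KRF h k).1 hk), ?_⟩
    have : ZMod.unitOfCoprime n hcop = g * k := by
      apply Units.ext
      rw [ZMod.coe_unitOfCoprime, hnk]
    rw [this, mul_inv_cancel_right]
  obtain ⟨n, hn, hnr, hnq, k, hk, rfl⟩ := hrep' g
  obtain ⟨m, hm, hmr, hmq, l, hl, rfl⟩ := hrep' g'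
  set u := ZMod.unitOfCoprime n hnq with hu
  set v := ZMod.unitOfCoprime m hmq with hv
  have hn0 := coprime_pos hq hnq
  have hm0 := coprime_pos hq hmq
  have hnm : n * m ≤ Y := by
    calc n * m ≤ (2 * L) * (2 * L) := Nat.mul_le_mul hn.le hm.le
      _ = (2 * L) ^ 2 := by ring
      _ ≤ Y := hLY
  have hnY : n ≤ Y := (Nat.le_mul_of_pos_right _ hm0).trans hnm
  have hmY : m ≤ Y := (Nat.le_mul_of_pos_left _ hn0).trans hnm
  have huv : FR h (u * v) = FR h u * FR h v := by
    have e1 := perR h hnm (hnr.mul hmr) (Nat.Coprime.mul_left hnq hmq)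
    rw [h.hf _ _ hn0.ne' hm0.ne', perR h hnY hnr hnq, perR h hmY hmr hmq] at e1
    rw [← hu, ← hv] at e1
    have e3 : ZMod.unitOfCoprime (n * m) (Nat.Coprime.mul_left hnq hmq) = u * v := by
      apply Units.ext
      rw [ZMod.coe_unitOfCoprime, Units.val_mul, hu, hv, ZMod.coe_unitOfCoprime,
        ZMod.coe_unitOfCoprime]
      push_cast
      rfl
    rw [e3] at e1
    exact e1.symm
  have hkl := Subgroup.mul_mem _ hk hl
  rw [mem_KR] at hk hl hkl
  have e1 : u * k * (v * l) = (k * l) * (u * v) := by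
    rw [mul_mul_mul_comm, mul_comm]
  rw [e1, hkl, huv, hk l, mul_comm u k, hk u, mul_comm v l, hl v]
  exact mul_mul_mul_comm _ _ _ _

end

end Pool.Agent.H358R4
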