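import Pool.Agent.H358R4.Asym
import Pool.Agent.H358R4.Quad

/-!
Integers composed of the prime factors of `2 q`, and small primes with `χ ℓ = 1`.
-/

namespace Pool.Agent.H358R4

open Finset Filter NumberTheorySymbols

/-- the completely multiplicative weight -/
noncomputable def wt (δ : ℝ) : ℕ →* ℝ where
  toFun n := (n : ℝ) ^ (-δ)
  map_one' := by simp
  map_mul' m n := by push_cast; rw [Real.mul_rpow (by positivity) (by positivity)]

lemma count_factored (δ : ℝ) (hδ : 0 < δ) (s : Finset ℕ) (hs : ∀ p ∈ s, p.Prime) (E : ℕ) :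
    (((Icc 1 E).filter (fun e => e.primeFactors ⊆ s)).card : ℝ) ≤
      (E : ℝ) ^ δ * ∏ p ∈ s, (1 - (p : ℝ) ^ (-δ))⁻¹ := by
  classical
  set T := (Icc 1 E).filter (fun e => e.primeFactors ⊆ s) with hT
  have hlt : ∀ {p : ℕ}, p.Prime → ‖wt δ p‖ < 1 := by
    intro p hp
    have h1 : (1 : ℝ) < p := by exact_mod_cast hp.one_lt
    show ‖(p : ℝ) ^ (-δ)‖ < 1
    rw [Real.norm_eq_abs, abs_of_nonneg (by positivity)]
    exact Real.rpow_lt_one_of_one_lt_of_neg h1 (by linarith)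
  obtain ⟨-, hsum⟩ := EulerProduct.summable_and_hasSum_factoredNumbers_prod_filter_prime_geometric
    (f := wt δ) hlt s
  have hfil : s.filter Nat.Prime = s := Finset.filter_true_of_mem hs
  rw [hfil] at hsum
  have hTmem : ∀ e ∈ T, e ∈ Nat.factoredNumbers s := by
    intro e he
    rw [hT, Finset.mem_filter, Finset.mem_Icc] at he
    exact Nat.mem_factoredNumbers_of_primeFactors_subset (by omega) he.2
  set T' : Finset (Nat.factoredNumbers s) := T.attach.image (fun e => ⟨e.1, hTmem e.1 e.2⟩) with hT'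
  have hle := sum_le_hasSum T' (fun i _ => show (0 : ℝ) ≤ wt δ i by
    show (0 : ℝ) ≤ ((i : ℕ) : ℝ) ^ (-δ); positivity) hsum
  have hsumT : ∑ e ∈ T, (e : ℝ) ^ (-δ) = ∑ i ∈ T', wt δ i := by
    rw [hT', Finset.sum_image (by
      intro a _ b _ hab
      have := congrArg (fun x : Nat.factoredNumbers s => (x : ℕ)) hab
      exact Subtype.ext this), ← Finset.sum_attach]
    rfl
  have hE : ∀ e ∈ T, (E : ℝ) ^ (-δ) ≤ (e : ℝ) ^ (-δ) := by
    intro e he
    rw [hT, Finset.mem_filter, Finset.mem_Icc] at he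
    apply Real.rpow_le_rpow_of_nonpos
    · exact_mod_cast he.1.1
    · exact_mod_cast he.1.2
    · linarith
  have h1 : (T.card : ℝ) * (E : ℝ) ^ (-δ) ≤ ∏ p ∈ s, (1 - (p : ℝ) ^ (-δ))⁻¹ := by
    calc (T.card : ℝ) * (E : ℝ) ^ (-δ) = ∑ e ∈ T, (E : ℝ) ^ (-δ) := by
          rw [Finset.sum_const, nsmul_eq_mul]
      _ ≤ ∑ e ∈ T, (e : ℝ) ^ (-δ) := Finset.sum_le_sum hE
      _ = ∑ i ∈ T', wt δ i := hsumT
      _ ≤ _ := hle
  rcases Nat.eq_zero_or_pos E with h0 | h0
  · have : T = ∅ := by rw [hT, h0]; rfl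
    rw [this, Finset.card_empty, Nat.cast_zero]
    apply mul_nonneg (by positivity)
    apply Finset.prod_nonneg
    intro p hp
    have h2 : (1 : ℝ) < p := by exact_mod_cast (hs p hp).one_lt
    have h3 : (p : ℝ) ^ (-δ) < 1 := Real.rpow_lt_one_of_one_lt_of_neg h2 (by linarith)
    exact inv_nonneg.2 (by linarith)
  · have hE0 : (0 : ℝ) < E := by exact_mod_cast h0
    have h2 : (E : ℝ) ^ (-δ) * (E : ℝ) ^ δ = 1 := by
      rw [← Real.rpow_add hE0]; simp
    have h3 : (0 : ℝ) < (E : ℝ) ^ δ := by positivity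
    calc (T.card : ℝ) = (T.card : ℝ) * (E : ℝ) ^ (-δ) * (E : ℝ) ^ δ := by
          rw [mul_assoc, h2, mul_one]
      _ ≤ (∏ p ∈ s, (1 - (p : ℝ) ^ (-δ))⁻¹) * (E : ℝ) ^ δ :=
          mul_le_mul_of_nonneg_right h1 h3.le
      _ = _ := mul_comm _ _

lemma prod_factored (δ : ℝ) (hδ : 0 < δ) : ∃ C : ℝ, 0 < C ∧ ∀ s : Finset ℕ, (∀ p ∈ s, p.Prime) →
    ∏ p ∈ s, (1 - (p : ℝ) ^ (-δ))⁻¹ ≤ C * 2 ^ s.card := by
  classical
  obtain ⟨P0, hP0⟩ := exists_nat_gt ((2 : ℝ) ^ (1 / δ))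
  set c0 : ℝ := (1 - (2 : ℝ) ^ (-δ))⁻¹ with hc0
  have h21 : (2 : ℝ) ^ (-δ) < 1 := Real.rpow_lt_one_of_one_lt_of_neg (by norm_num) (by linarith)
  have h20 : (0 : ℝ) < (2 : ℝ) ^ (-δ) := by positivity
  have hc1 : 1 ≤ c0 := by
    rw [hc0]; exact (one_le_inv₀ (by linarith)).2 (by linarith)
  refine ⟨c0 ^ P0, by positivity, fun s hs => ?_⟩
  have hterm : ∀ p ∈ s, (1 - (p : ℝ) ^ (-δ))⁻¹ ≤ (if p < P0 then c0 else 1) * 2 := by
    intro p hp
    have hp2 : (2 : ℝ) ≤ p := by exact_mod_cast (hs p hp).two_le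
    split_ifs with h
    · have h1 : (p : ℝ) ^ (-δ) ≤ (2 : ℝ) ^ (-δ) :=
        Real.rpow_le_rpow_of_nonpos (by norm_num) hp2 (by linarith)
      have h2 : (1 - (p : ℝ) ^ (-δ))⁻¹ ≤ c0 := by
        rw [hc0]; exact inv_anti₀ (by linarith) (by linarith)
      linarith
    · push Not at h
      have h1 : (2 : ℝ) ^ (1 / δ) ≤ p := le_trans hP0.le (by exact_mod_cast h)
      have h2 : (2 : ℝ) ≤ (p : ℝ) ^ δ := by
        have := Real.rpow_le_rpow (by positivity) h1 hδ.le
        rw [← Real.rpow_mul (by norm_num), one_div, inv_mul_cancel₀ hδ.ne', Real.rpow_one] at this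
        exact this
      have h3 : (p : ℝ) ^ (-δ) ≤ 1 / 2 := by
        rw [Real.rpow_neg (by linarith), ← one_div]
        exact one_div_le_one_div_of_le (by norm_num) h2
      rw [one_mul]
      calc (1 - (p : ℝ) ^ (-δ))⁻¹ ≤ (1 / 2 : ℝ)⁻¹ := inv_anti₀ (by norm_num) (by linarith)
        _ = 2 := by norm_num
  calc ∏ p ∈ s, (1 - (p : ℝ) ^ (-δ))⁻¹ ≤ ∏ p ∈ s, (if p < P0 then c0 else 1) * 2 := by
        apply Finset.prod_le_prod
        · intro p hp
          have h2 : (1 : ℝ) < p := by exact_mod_cast (hs p hp).one_lt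
          have h3 : (p : ℝ) ^ (-δ) < 1 := Real.rpow_lt_one_of_one_lt_of_neg h2 (by linarith)
          exact inv_nonneg.2 (by linarith)
        · exact hterm
    _ = (∏ p ∈ s, (if p < P0 then c0 else 1)) * 2 ^ s.card := by
        rw [Finset.prod_mul_distrib, Finset.prod_const]
    _ ≤ c0 ^ P0 * 2 ^ s.card := by
        apply mul_le_mul_of_nonneg_right _ (by positivity)
        rw [← Finset.prod_filter, Finset.prod_const]
        apply pow_le_pow_right₀ hc1
        calc (s.filter (fun p => p < P0)).card ≤ (range P0).card := by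
              apply Finset.card_le_card
              intro p hp
              exact Finset.mem_range.2 (Finset.mem_filter.1 hp).2
          _ = P0 := Finset.card_range P0

lemma two_pow_omega (q : ℕ) (hq : q ≠ 0) : 2 ^ q.primeFactors.card ≤ q.divisors.card := by
  rw [Nat.card_divisors hq]
  calc 2 ^ q.primeFactors.card = ∏ p ∈ q.primeFactors, 2 := by rw [Finset.prod_const]
    _ ≤ ∏ p ∈ q.primeFactors, (q.factorization p + 1) := by
        apply Finset.prod_le_prod'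
        intro p hp
        have : 0 < q.factorization p := by
          apply Nat.Prime.factorization_pos_of_dvd (Nat.prime_of_mem_primeFactors hp) hq
          exact Nat.dvd_of_mem_primeFactors hp
        omega

/-- few integers up to `3 q` are composed of the prime factors of `2 q` -/
lemma count_small : ∀ᶠ q : ℕ in atTop,
    (((Icc 1 (3 * q)).filter (fun e => e.primeFactors ⊆ insert 2 q.primeFactors)).card
      : ℝ) ≤ (q : ℝ) ^ (1 / 4 : ℝ) := by
  obtain ⟨C, hC0, hC⟩ := prod_factored (1 / 16) (by norm_num)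
  filter_upwards [tau_le (t := 1 / 16) (by norm_num),
    (tendsto_nat_rpow (t := 1 / 8) (by norm_num)).eventually (eventually_ge_atTop (6 * C)),
    eventually_ge_atTop 1] with q htau hbig hq1
  have hq1' : (1 : ℝ) ≤ q := by exact_mod_cast hq1
  have hq0 : (0 : ℝ) < q := by linarith
  have hs : ∀ p ∈ insert 2 q.primeFactors, p.Prime := by
    intro p hp
    rcases Finset.mem_insert.1 hp with rfl | h
    · exact Nat.prime_two
    · exact Nat.prime_of_mem_primeFactors h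
  have h1 := count_factored (1 / 16) (by norm_num) (insert 2 q.primeFactors) hs (3 * q)
  have h2 := hC (insert 2 q.primeFactors) hs
  have h3 : (2 : ℝ) ^ (insert 2 q.primeFactors).card ≤ 2 * (q : ℝ) ^ (1 / 16 : ℝ) := by
    have h4 : (insert 2 q.primeFactors).card ≤ q.primeFactors.card + 1 := Finset.card_insert_le _ _
    have h5 : ((2 : ℝ) ^ q.primeFactors.card) ≤ q.divisors.card := by
      exact_mod_cast two_pow_omega q (by omega)
    calc (2 : ℝ) ^ (insert 2 q.primeFactors).card ≤ 2 ^ (q.primeFactors.card + 1) :=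
          pow_le_pow_right₀ (by norm_num) h4
      _ = 2 * 2 ^ q.primeFactors.card := by rw [pow_succ]; ring
      _ ≤ 2 * (q : ℝ) ^ (1 / 16 : ℝ) := by linarith
  have h4 : (((3 * q : ℕ) : ℝ)) ^ (1 / 16 : ℝ) ≤ 3 * (q : ℝ) ^ (1 / 16 : ℝ) := by
    push_cast
    rw [Real.mul_rpow (by norm_num) hq0.le]
    apply mul_le_mul_of_nonneg_right _ (by positivity)
    calc (3 : ℝ) ^ (1 / 16 : ℝ) ≤ 3 ^ (1 : ℝ) :=
          Real.rpow_le_rpow_of_exponent_le (by norm_num) (by norm_num)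
      _ = 3 := Real.rpow_one 3
  calc _ ≤ ((3 * q : ℕ) : ℝ) ^ (1 / 16 : ℝ) *
        ∏ p ∈ insert 2 q.primeFactors, (1 - (p : ℝ) ^ (-(1 / 16) : ℝ))⁻¹ := h1
    _ ≤ (3 * (q : ℝ) ^ (1 / 16 : ℝ)) * (C * 2 ^ (insert 2 q.primeFactors).card) := by
        apply mul_le_mul h4 h2 _ (by positivity)
        apply Finset.prod_nonneg
        intro p hp
        have h2 : (1 : ℝ) < p := by exact_mod_cast (hs p hp).one_lt
        have h3 : (p : ℝ) ^ (-(1 / 16) : ℝ) < 1 :=
          Real.rpow_lt_one_of_one_lt_of_neg h2 (by norm_num)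
        exact inv_nonneg.2 (by linarith)
    _ ≤ (3 * (q : ℝ) ^ (1 / 16 : ℝ)) * (C * (2 * (q : ℝ) ^ (1 / 16 : ℝ))) := by gcongr
    _ = 6 * C * ((q : ℝ) ^ (1 / 16 : ℝ) * (q : ℝ) ^ (1 / 16 : ℝ)) := by ring
    _ = 6 * C * (q : ℝ) ^ (1 / 8 : ℝ) := by
        rw [← Real.rpow_add hq0]; norm_num
    _ ≤ (q : ℝ) ^ (1 / 8 : ℝ) * (q : ℝ) ^ (1 / 8 : ℝ) :=
        mul_le_mul_of_nonneg_right hbig (by positivity)
    _ = (q : ℝ) ^ (1 / 4 : ℝ) := by rw [← Real.rpow_add hq0]; norm_num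

end Pool.Agent.H358R4
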